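import Pool.Agent.MP_f1b239_ag.Hilb

set_option autoImplicit false

namespace Pool.Agent.MP_f1b239_ag

open MvPolynomial Module

def bw (p q : ℕ) : Fin p ⊕ Fin q → ℕ × ℕ := Sum.elim (fun _ => (1, 0)) (fun _ => (0, 1))

lemma bw_ne_zero (p q : ℕ) : ∀ i, bw p q i ≠ 0 := by
  rintro (i | i) <;> simp [bw, Prod.ext_iff]

lemma weight_bw {p q : ℕ} (d : Fin p ⊕ Fin q →₀ ℕ) :
    Finsupp.weight (bw p q) d = (∑ i, d (Sum.inl i), ∑ j, d (Sum.inr j)) := by
  rw [Finsupp.weight_apply, Finsupp.sum_fintype _ _ (by simp), Fintype.sum_sum_type]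
  ext <;> simp [bw, Prod.fst_sum, Prod.snd_sum]

lemma finrank_Gr_bw (p q a b : ℕ) :
    finrank ℂ (Gr (bw p q) (a, b)) = p.multichoose a * q.multichoose b := by
  classical
  rw [finrank_Gr]
  have e : {d : Fin p ⊕ Fin q →₀ ℕ | Finsupp.weight (bw p q) d = (a, b)} ≃
      ((Finset.univ : Finset (Fin p)).finsuppAntidiag a) ×
        ((Finset.univ : Finset (Fin q)).finsuppAntidiag b) :=
    { toFun := fun d => (⟨(Finsupp.sumFinsuppEquivProdFinsupp d.1).1, by
          have := d.2
          simp only [Set.mem_ofPred_eq, weight_bw, Prod.mk.injEq] at this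
          simp [Finset.mem_finsuppAntidiag, this.1]⟩,
        ⟨(Finsupp.sumFinsuppEquivProdFinsupp d.1).2, by
          have := d.2
          simp only [Set.mem_ofPred_eq, weight_bw, Prod.mk.injEq] at this
          simp [Finset.mem_finsuppAntidiag, this.2]⟩)
      invFun := fun x => ⟨Finsupp.sumFinsuppEquivProdFinsupp.symm (x.1.1, x.2.1), by
        have h1 := x.1.2
        have h2 := x.2.2
        simp only [Finset.mem_finsuppAntidiag] at h1 h2
        simp [weight_bw, h1.1, h2.1]⟩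
      left_inv := fun d => by simp
      right_inv := fun x => by simp }
  rw [Nat.card_congr e, Nat.card_prod, Nat.card_eq_finsetCard, Nat.card_eq_finsetCard,
    Finset.card_finsuppAntidiag_nat_eq_multichoose, Finset.card_finsuppAntidiag_nat_eq_multichoose]
  simp

noncomputable def Xs (p q : ℕ) : Submodule ℂ (MvPolynomial (Fin p ⊕ Fin q) ℂ) :=
  Submodule.span ℂ (Set.range fun i => X (Sum.inl i))

noncomputable def Ys (p q : ℕ) : Submodule ℂ (MvPolynomial (Fin p ⊕ Fin q) ℂ) :=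
  Submodule.span ℂ (Set.range fun j => X (Sum.inr j))

lemma X_inl_mem {p q : ℕ} (i : Fin p) :
    (X (Sum.inl i) : MvPolynomial (Fin p ⊕ Fin q) ℂ) ∈ Gr (bw p q) (1, 0) :=
  isWeightedHomogeneous_X ℂ (bw p q) (Sum.inl i)

lemma X_inr_mem {p q : ℕ} (j : Fin q) :
    (X (Sum.inr j) : MvPolynomial (Fin p ⊕ Fin q) ℂ) ∈ Gr (bw p q) (0, 1) :=
  isWeightedHomogeneous_X ℂ (bw p q) (Sum.inr j)

lemma pow_le_Gr {σ : Type} {w : σ → ℕ × ℕ} {U : Submodule ℂ (MvPolynomial σ ℂ)} {m : ℕ × ℕ}
    (h : U ≤ Gr w m) (n : ℕ) : U ^ n ≤ Gr w (n • m) := by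
  induction n with
  | zero =>
    rw [pow_zero, Submodule.one_le, zero_smul]
    exact isWeightedHomogeneous_one ℂ w
  | succ n ih =>
    rw [pow_succ, succ_nsmul]
    exact (mul_le_mul' ih h).trans (weightedHomogeneousSubmodule_mul w _ _)

lemma monomial_mem_XY {p q : ℕ} (d : Fin p ⊕ Fin q →₀ ℕ) :
    (monomial d (1 : ℂ)) ∈ Xs p q ^ (Finsupp.weight (bw p q) d).1 *
      Ys p q ^ (Finsupp.weight (bw p q) d).2 := by
  induction d using Finsupp.induction_linear with
  | zero =>
    simpa using (Submodule.one_le (R := ℂ) (A := MvPolynomial (Fin p ⊕ Fin q) ℂ)).1 le_rfl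
  | add f g hf hg =>
    have : (monomial (f + g) (1 : ℂ)) = monomial f 1 * monomial g 1 := by
      rw [monomial_mul, one_mul]
    rw [this, map_add, Prod.fst_add, Prod.snd_add, pow_add, pow_add, mul_mul_mul_comm]
    exact Submodule.mul_mem_mul hf hg
  | single i n =>
    rw [← X_pow_eq_monomial, Finsupp.weight_single]
    rcases i with i | j
    · simp only [bw, Sum.elim_inl, Prod.smul_mk, smul_eq_mul, mul_one, mul_zero, pow_zero]
      exact Submodule.pow_mem_pow (Xs p q) (Submodule.subset_span (Set.mem_range_self i)) n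
    · simp only [bw, Sum.elim_inr, Prod.smul_mk, smul_eq_mul, mul_one, mul_zero, pow_zero,
        one_mul]
      exact Submodule.pow_mem_pow (Ys p q) (Submodule.subset_span (Set.mem_range_self j)) n

lemma Gr_eq_XY (p q a b : ℕ) : Gr (bw p q) (a, b) = Xs p q ^ a * Ys p q ^ b := by
  apply le_antisymm
  · intro f hf
    have hf' : IsWeightedHomogeneous (bw p q) f (a, b) := hf
    clear hf
    induction hf' using IsWeightedHomogeneous.induction_on with
    | zero => exact zero_mem _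
    | add f g _ _ ihf ihg => exact add_mem ihf ihg
    | monomial d r hr =>
      have h := monomial_mem_XY d
      rw [hr] at h
      have : (monomial d r : MvPolynomial (Fin p ⊕ Fin q) ℂ) = r • monomial d 1 := by
        rw [smul_monomial, smul_eq_mul, mul_one]
      rw [this]
      exact Submodule.smul_mem _ _ h
  · have h1 : Xs p q ≤ Gr (bw p q) (1, 0) := by
      rw [Xs, Submodule.span_le]; rintro _ ⟨i, rfl⟩; exact X_inl_mem i
    have h2 : Ys p q ≤ Gr (bw p q) (0, 1) := by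
      rw [Ys, Submodule.span_le]; rintro _ ⟨i, rfl⟩; exact X_inr_mem i
    have h3 := (mul_le_mul' (pow_le_Gr h1 a) (pow_le_Gr h2 b)).trans
      (weightedHomogeneousSubmodule_mul (bw p q) _ _)
    simpa using h3

lemma map_Gr {p q : ℕ} {B : Type} [CommRing B] [Algebra ℂ B]
    (φ : MvPolynomial (Fin p ⊕ Fin q) ℂ →ₐ[ℂ] B) (a b : ℕ) :
    (Gr (bw p q) (a, b)).map φ.toLinearMap =
      Submodule.span ℂ (Set.range fun i => φ (X (Sum.inl i))) ^ a *
        Submodule.span ℂ (Set.range fun j => φ (X (Sum.inr j))) ^ b := by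
  rw [Gr_eq_XY, Submodule.map_mul, Submodule.map_pow, Submodule.map_pow, Xs, Ys,
    Submodule.map_span, Submodule.map_span, ← Set.range_comp, ← Set.range_comp]
  rfl

lemma mc3 (a : ℕ) : (Nat.multichoose 3 a : ℝ) = (a + 1) * (a + 2) / 2 := by
  rw [Nat.multichoose_eq]
  have : 3 + a - 1 = a + 2 := by omega
  rw [this, Nat.choose_symm_add, Nat.cast_choose_two]
  push_cast; ring

lemma mc2 (a : ℕ) : (Nat.multichoose 2 a : ℝ) = a + 1 := by simp

lemma mc1 (a : ℕ) : (Nat.multichoose 1 a : ℝ) = 1 := by simp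

/-- Leading coefficient of an eventually nonnegative quadratic. -/
lemma lead_nonneg {A B C : ℝ} {N : ℕ} (h : ∀ n : ℕ, N ≤ n → 0 ≤ A * (n : ℝ) ^ 2 + B * n + C) :
    0 ≤ A := by
  by_contra hA
  push Not at hA
  obtain ⟨n, hn⟩ := exists_nat_gt ((|B| + |C|) / (-A) + 1 + N)
  have hA' : 0 < -A := by linarith
  have h0 : 0 ≤ (|B| + |C|) / (-A) := by positivity
  have hN : N ≤ n := by
    have : (N : ℝ) ≤ n := by linarith
    exact_mod_cast this
  have hn1 : (1 : ℝ) ≤ n := by
    have : (0 : ℝ) ≤ N := Nat.cast_nonneg _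
    linarith
  have h1 : (|B| + |C|) < -A * n := by
    have : (0 : ℝ) ≤ N := Nat.cast_nonneg _
    have h2 : (|B| + |C|) / (-A) < n := by linarith
    rw [div_lt_iff₀ hA'] at h2
    linarith
  have h2 := h n hN
  have h3 : B ≤ |B| := le_abs_self B
  have h4 : C ≤ |C| := le_abs_self C
  have h5 : 0 ≤ |C| := abs_nonneg C
  nlinarith

lemma lead_nonneg' {B C : ℝ} {N : ℕ} (h : ∀ n : ℕ, N ≤ n → 0 ≤ B * n + C) : 0 ≤ B := by
  refine lead_nonneg (B := C) (C := 0) (N := N) fun n hn => ?_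
  have h1 := h n hn
  have h2 : (0 : ℝ) ≤ n := Nat.cast_nonneg _
  nlinarith

end Pool.Agent.MP_f1b239_ag
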