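import Pool.Agent.MP_f1b239_ag.Hyp

set_option autoImplicit false

namespace Pool.Agent.MP_f1b239_ag

open MvPolynomial Module

def Deg (H : ℕ → ℕ → ℕ) (v : Fin 3 → ℝ) : Prop :=
  ∃ (c₁ c₂ c₀ : ℝ) (N : ℕ), ∀ a b : ℕ, N ≤ a → N ≤ b →
    (H a b : ℝ) = v 0 * (a : ℝ) ^ 2 / 2 + v 1 * a * b + v 2 * (b : ℝ) ^ 2 / 2
      + c₁ * a + c₂ * b + c₀

def Good (v : Fin 3 → ℝ) : Prop := 0 ≤ v 0 ∧ 0 ≤ v 2 ∧ v 0 ≤ v 1 ∧ v 1 ≤ v 2 + 2 * v 0

lemma Deg.nonneg0 {H : ℕ → ℕ → ℕ} {v : Fin 3 → ℝ} (h : Deg H v) : 0 ≤ v 0 := by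
  obtain ⟨c₁, c₂, c₀, N, h⟩ := h
  have := lead_nonneg (A := v 0 / 2) (B := v 1 * N + c₁) (C := v 2 * (N : ℝ) ^ 2 / 2 + c₂ * N + c₀)
    (N := N) fun n hn => by
      have h1 := h n N hn le_rfl
      have h2 : (0 : ℝ) ≤ H n N := Nat.cast_nonneg _
      linarith
  linarith

lemma Deg.nonneg2 {H : ℕ → ℕ → ℕ} {v : Fin 3 → ℝ} (h : Deg H v) : 0 ≤ v 2 := by
  obtain ⟨c₁, c₂, c₀, N, h⟩ := h
  have := lead_nonneg (A := v 2 / 2) (B := v 1 * N + c₂) (C := v 0 * (N : ℝ) ^ 2 / 2 + c₁ * N + c₀)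
    (N := N) fun n hn => by
      have h1 := h N n le_rfl hn
      have h2 : (0 : ℝ) ≤ H N n := Nat.cast_nonneg _
      linarith
  linarith

lemma Deg.good_of_shift {H : ℕ → ℕ → ℕ} {v : Fin 3 → ℝ} (h : Deg H v)
    (hs : ∀ a b, H (a + 1) b ≤ H a (b + 1)) : Good v := by
  have h0 := h.nonneg0
  have h2 := h.nonneg2
  obtain ⟨c₁, c₂, c₀, N, h⟩ := h
  have key : ∀ a b : ℕ, N ≤ a → N ≤ b →
      0 ≤ (v 1 - v 0) * a + (v 2 - v 1) * b + (v 2 / 2 - v 0 / 2 + c₂ - c₁) := by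
    intro a b ha hb
    have h1 := h (a + 1) b (by omega) hb
    have h3 := h a (b + 1) ha (by omega)
    have h4 : (H (a + 1) b : ℝ) ≤ H a (b + 1) := by exact_mod_cast hs a b
    push_cast at h1 h3
    nlinarith
  have k1 := lead_nonneg' (B := v 1 - v 0) (C := (v 2 - v 1) * N + (v 2 / 2 - v 0 / 2 + c₂ - c₁))
    (N := N) fun n hn => by have := key n N hn le_rfl; linarith
  have k2 := lead_nonneg' (B := v 2 - v 1) (C := (v 1 - v 0) * N + (v 2 / 2 - v 0 / 2 + c₂ - c₁))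
    (N := N) fun n hn => by have := key N n le_rfl hn; linarith
  exact ⟨h0, h2, by linarith, by linarith⟩

lemma Deg.good_of_small {H : ℕ → ℕ → ℕ} {v : Fin 3 → ℝ} (h : Deg H v) {d₁ d₂ d₀ : ℝ} {M : ℕ}
    (hs : ∀ a b : ℕ, M ≤ a → M ≤ b → (H a b : ℝ) ≤ d₁ * a + d₂ * b + d₀) : Good v := by
  have h0 := h.nonneg0
  have h2 := h.nonneg2
  obtain ⟨c₁, c₂, c₀, N, h⟩ := h
  set K := N + M with hK
  have k0 := lead_nonneg (A := - v 0 / 2) (B := d₁ - (v 1 * K + c₁))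
    (C := d₂ * K + d₀ - (v 2 * (K : ℝ) ^ 2 / 2 + c₂ * K + c₀))
    (N := K) fun n hn => by
      have h1 := h n K (by omega) (by omega)
      have h2 := hs n K (by omega) (by omega)
      linarith
  have k2 := lead_nonneg (A := - v 2 / 2) (B := d₂ - (v 1 * K + c₂))
    (C := d₁ * K + d₀ - (v 0 * (K : ℝ) ^ 2 / 2 + c₁ * K + c₀))
    (N := K) fun n hn => by
      have h1 := h K n (by omega) (by omega)
      have h2 := hs K n (by omega) (by omega)
      linarith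
  have k3 := lead_nonneg (A := v 0 / 2 + v 1 + v 2 / 2) (B := c₁ + c₂) (C := c₀)
    (N := K) fun n hn => by
      have h1 := h n n (by omega) (by omega)
      have h2 : (0 : ℝ) ≤ H n n := Nat.cast_nonneg _
      nlinarith
  have k4 := lead_nonneg (A := -(v 0 / 2 + v 1 + v 2 / 2)) (B := d₁ + d₂ - (c₁ + c₂))
    (C := d₀ - c₀) (N := K) fun n hn => by
      have h1 := h n n (by omega) (by omega)
      have h2 := hs n n (by omega) (by omega)
      nlinarith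
  exact ⟨h0, h2, by linarith, by linarith⟩

noncomputable def Phi (x y : ℝ) : ℝ :=
  (x + 1) * (x + 2) / 2 * ((y + 1) * (y + 2) / 2) - (x - 1) * x / 2 * (y * (y + 1) / 2)

lemma HF_If {a b : ℕ} (ha : 2 ≤ a) (hb : 1 ≤ b) :
    (HF (bw 3 3) If (a, b) : ℝ) = Phi a b := by
  obtain ⟨a, rfl⟩ := Nat.exists_eq_add_of_le ha
  obtain ⟨b, rfl⟩ := Nat.exists_eq_add_of_le hb
  have h := HF_sup_add (bw_ne_zero 3 3) isHom_bot ff_mem (fun c hc => by
    rw [Ideal.mem_bot] at hc ⊢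
    exact (mul_eq_zero.1 hc).resolve_left ff_prime.ne_zero) (a, b)
  rw [bot_sup_eq, HF_bot, HF_bot, Prod.mk_add_mk, finrank_Gr_bw, finrank_Gr_bw] at h
  have h2 := congrArg (Nat.cast : ℕ → ℝ) h
  push_cast at h2
  rw [mc3, mc3, mc3, mc3] at h2
  unfold Phi
  push_cast at h2 ⊢
  linarith

lemma HF_step {I : Ideal T} (hI : I.IsPrime) (hh : IsHom (bw 3 3) I) {G : T} {p q : ℕ}
    (hG : G ∈ Gr (bw 3 3) (p, q)) (hGI : G ∉ I) {a b : ℕ} (ha : p ≤ a) (hb : q ≤ b) :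
    (HF (bw 3 3) (I ⊔ Ideal.span {G}) (a, b) : ℝ) =
      HF (bw 3 3) I (a, b) - HF (bw 3 3) I (a - p, b - q) := by
  obtain ⟨a, rfl⟩ := Nat.exists_eq_add_of_le ha
  obtain ⟨b, rfl⟩ := Nat.exists_eq_add_of_le hb
  have h := HF_sup_add (bw_ne_zero 3 3) hh hG
    (fun c hc => (hI.mem_or_mem hc).resolve_left hGI) (a, b)
  rw [Prod.mk_add_mk] at h
  have h2 := congrArg (Nat.cast : ℕ → ℝ) h
  push_cast at h2
  rw [Nat.add_sub_cancel_left, Nat.add_sub_cancel_left]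
  linarith

lemma HF_sec {G : T} {p q : ℕ} (hG : G ∈ Gr (bw 3 3) (p, q)) (hGI : G ∉ If) {a b : ℕ}
    (ha : p + 2 ≤ a) (hb : q + 1 ≤ b) :
    (HF (bw 3 3) (If ⊔ Ideal.span {G}) (a, b) : ℝ) = Phi a b - Phi (a - p) (b - q) := by
  rw [HF_step If_prime isHom_If hG hGI (by omega) (by omega), HF_If (by omega) (by omega),
    HF_If (by omega) (by omega), Nat.cast_sub (by omega), Nat.cast_sub (by omega)]

lemma good_T {Q : Ideal T} (hQ : Q.IsPrime) (hh : IsHom (bw 3 3) Q) (hf : ff ∈ Q)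
    {v : Fin 3 → ℝ} (h : Deg (fun a b => HF (bw 3 3) Q (a, b)) v) : Good v := by
  have hle : If ≤ Q := (Ideal.span_singleton_le_iff_mem _).2 hf
  by_cases hne : Q ≤ If
  · exfalso
    obtain rfl : Q = If := le_antisymm hne hle
    obtain ⟨c₁, c₂, c₀, N, h⟩ := h
    have key : ∀ a b : ℕ, N + 2 ≤ a → N + 2 ≤ b → Phi a b =
        v 0 * (a : ℝ) ^ 2 / 2 + v 1 * a * b + v 2 * (b : ℝ) ^ 2 / 2 + c₁ * a + c₂ * b + c₀ := by
      intro a b ha hb
      rw [← HF_If (by omega) (by omega)]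
      exact h a b (by omega) (by omega)
    have h1 := key (N + 2) (N + 2) (by omega) (by omega)
    have h2 := key (N + 2) (N + 3) (by omega) (by omega)
    have h3 := key (N + 2) (N + 4) (by omega) (by omega)
    have h4 := key (N + 3) (N + 2) (by omega) (by omega)
    have h5 := key (N + 3) (N + 3) (by omega) (by omega)
    have h6 := key (N + 3) (N + 4) (by omega) (by omega)
    unfold Phi at h1 h2 h3 h4 h5 h6
    push_cast at h1 h2 h3 h4 h5 h6
    have : (0 : ℝ) = 2 := by linear_combination -(h6 - 2 * h5 + h4 - h3 + 2 * h2 - h1)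
    norm_num at this
  obtain ⟨G, p, q, hG, hGQ, hGI, hP⟩ := exists_section hQ hh hf hne
  have hle2 : If ⊔ Ideal.span {G} ≤ Q :=
    sup_le hle ((Ideal.span_singleton_le_iff_mem _).2 hGQ)
  by_cases hne2 : Q ≤ If ⊔ Ideal.span {G}
  · obtain rfl : Q = If ⊔ Ideal.span {G} := le_antisymm hne2 hle2
    obtain ⟨c₁, c₂, c₀, N, h⟩ := h
    set K := N + p + q + 2 with hK
    have key : ∀ a b : ℕ, K ≤ a → K ≤ b → Phi a b - Phi (a - p) (b - q) =
        v 0 * (a : ℝ) ^ 2 / 2 + v 1 * a * b + v 2 * (b : ℝ) ^ 2 / 2 + c₁ * a + c₂ * b + c₀ := by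
      intro a b ha hb
      rw [← HF_sec hG hGI (by omega) (by omega)]
      exact h a b (by omega) (by omega)
    have h1 := key K K (by omega) (by omega)
    have h2 := key K (K + 1) (by omega) (by omega)
    have h3 := key K (K + 2) (by omega) (by omega)
    have h4 := key (K + 1) K (by omega) (by omega)
    have h5 := key (K + 1) (K + 1) (by omega) (by omega)
    have h6 := key (K + 2) K (by omega) (by omega)
    unfold Phi at h1 h2 h3 h4 h5 h6
    push_cast at h1 h2 h3 h4 h5 h6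
    have e0 : v 0 = q := by linear_combination -(h6 - 2 * h4 + h1)
    have e2 : v 2 = 2 * p := by linear_combination -(h3 - 2 * h2 + h1)
    have e1 : v 1 = p + 2 * q := by linear_combination -(h5 - h4 - h2 + h1)
    have hp : (0 : ℝ) ≤ p := Nat.cast_nonneg _
    have hq : (0 : ℝ) ≤ q := Nat.cast_nonneg _
    exact ⟨by linarith, by linarith, by linarith, by linarith⟩
  obtain ⟨⟨p', q'⟩, u, hu, huQ, huI⟩ := exists_hom_notMem hh hne2
  have hle3 : (If ⊔ Ideal.span {G}) ⊔ Ideal.span {u} ≤ Q :=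
    sup_le hle2 ((Ideal.span_singleton_le_iff_mem _).2 huQ)
  let L : ℝ → ℝ → ℝ := fun x y => (Phi x y - Phi (x - p) (y - q)) -
    (Phi (x - p') (y - q') - Phi (x - p' - p) (y - q' - q))
  refine h.good_of_small (d₁ := L 1 0 - L 0 0) (d₂ := L 0 1 - L 0 0) (d₀ := L 0 0)
    (M := p + q + p' + q' + 2) fun a b ha hb => ?_
  have h1 : (HF (bw 3 3) Q (a, b) : ℝ) ≤
      HF (bw 3 3) ((If ⊔ Ideal.span {G}) ⊔ Ideal.span {u}) (a, b) := by
    exact_mod_cast HF_mono (bw_ne_zero 3 3) hle3 (a, b)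
  rw [HF_step hP (isHom_If.sup_span hG) hu huI (by omega) (by omega),
    HF_sec hG hGI (by omega) (by omega), HF_sec hG hGI (by omega) (by omega),
    Nat.cast_sub (by omega), Nat.cast_sub (by omega)] at h1
  refine h1.trans (le_of_eq ?_)
  simp only [L, Phi]
  ring

end Pool.Agent.MP_f1b239_ag
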