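import Pool.Agent.MP_f1b239_ag.Examples

set_option autoImplicit false

namespace Pool.Agent.MP_f1b239_ag

open MvPolynomial Module

lemma mem_pseudoEff {v : Fin 3 → ℝ} (hv : v ∈ surfaceClasses Mx) : v ∈ pseudoEff Mx :=
  subset_closure (Submodule.subset_span hv)

lemma exists_extremal {s : Set (Fin 3 → ℝ)} (hs : ∀ v ∈ s, Good v) (φ : (Fin 3 → ℝ) →ₗ[ℝ] ℝ)
    (hφ : ∀ v, Good v → 0 ≤ φ v) {z : Fin 3 → ℝ} (hz : z ∈ Submodule.span NNReal s) :
    φ z = 0 → z = 0 ∨ ∃ e ∈ s, e ≠ 0 ∧ φ e = 0 := by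
  induction hz using Submodule.span_induction with
  | mem x hx =>
    intro h
    by_cases h0 : x = 0
    · exact Or.inl h0
    · exact Or.inr ⟨x, hx, h0, h⟩
  | zero => exact fun _ => Or.inl rfl
  | add x y hx hy ihx ihy =>
    intro h
    have h1 := hφ x (good_of_mem_span hs hx)
    have h2 := hφ y (good_of_mem_span hs hy)
    rw [map_add] at h
    rcases ihx (by linarith) with h3 | h3
    · rcases ihy (by linarith) with h4 | h4
      · left; rw [h3, h4, add_zero]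
      · exact Or.inr h4
    · exact Or.inr h3
  | smul c x hx ih =>
    intro h
    rw [NNReal.smul_def, map_smul, smul_eq_mul, mul_eq_zero] at h
    rcases h with h | h
    · left; rw [NNReal.smul_def, h, zero_smul]
    · rcases ih h with h3 | h3
      · left; rw [h3, smul_zero]
      · exact Or.inr h3

noncomputable def lin (a b c : ℝ) : (Fin 3 → ℝ) →ₗ[ℝ] ℝ :=
  a • LinearMap.proj 0 + b • LinearMap.proj 1 + c • LinearMap.proj 2

lemma lin_apply (a b c : ℝ) (v : Fin 3 → ℝ) : lin a b c v = a * v 0 + b * v 1 + c * v 2 := by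
  simp [lin]

lemma ne_zero_iff (v : Fin 3 → ℝ) : v ≠ 0 ↔ ¬ (v 0 = 0 ∧ v 1 = 0 ∧ v 2 = 0) := by
  rw [Ne, funext_iff, Fin.forall_fin_succ, Fin.forall_fin_succ, Fin.forall_fin_succ]
  simp

theorem not_simplicial : ¬ IsSimplicial (pseudoEff Mx) := by
  rintro ⟨s, hli, hK⟩
  have hs : ∀ v ∈ s, Good v := fun v hv =>
    good_pseudoEff (hK ▸ (Submodule.subset_span hv : v ∈ Submodule.span NNReal s))
  have mem : ∀ v ∈ surfaceClasses Mx, v ∈ Submodule.span NNReal s := fun v hv => by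
    have := mem_pseudoEff hv
    rwa [hK] at this
  obtain ⟨eF, hF, hF0, hF1⟩ := (exists_extremal hs (lin 0 1 0) (fun v h => by
    obtain ⟨h1, h2, h3, h4⟩ := h
    rw [lin_apply]; linarith) (mem _ class_F) (by simp [lin_apply])).resolve_left class_F.1
  obtain ⟨eC, hC, hC0, hC1⟩ := (exists_extremal hs (lin 3 (-1) 1) (fun v h => by
    obtain ⟨h1, h2, h3, h4⟩ := h
    rw [lin_apply]; linarith) (mem _ class_C) (by simp [lin_apply])).resolve_left class_C.1
  obtain ⟨eB, hB, hB0, hB1⟩ := (exists_extremal hs (lin 2 (-1) 2) (fun v h => by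
    obtain ⟨h1, h2, h3, h4⟩ := h
    rw [lin_apply]; linarith) (mem _ class_B) (by simp [lin_apply])).resolve_left class_B.1
  rw [lin_apply] at hF1 hC1 hB1
  rw [ne_zero_iff] at hF0 hC0 hB0
  obtain ⟨f1, f2, f3, f4⟩ := hs _ hF
  obtain ⟨c1, c2, c3, c4⟩ := hs _ hC
  obtain ⟨b1, b2, b3, b4⟩ := hs _ hB
  have F0 : eF 0 = 0 := by linarith
  have F1 : eF 1 = 0 := by linarith
  have F2 : eF 2 ≠ 0 := fun h => hF0 ⟨F0, F1, h⟩
  have C0 : eC 0 = 0 := by linarith
  have C1 : eC 1 = eC 2 := by linarith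
  have C2 : eC 2 ≠ 0 := fun h => hC0 ⟨C0, C1.trans h, h⟩
  have B2 : eB 2 = 0 := by linarith
  have B1 : eB 1 = 2 * eB 0 := by linarith
  have B0 : eB 0 ≠ 0 := fun h => hB0 ⟨h, by rw [B1, h, mul_zero], B2⟩
  have key : ∀ e ∈ s, 2 * e 0 ≤ e 1 := by
    intro e he
    by_contra hlt
    have hn : (⟨e, he⟩ : s) ∉ ({⟨eF, hF⟩, ⟨eC, hC⟩, ⟨eB, hB⟩} : Set s) := by
      simp only [Set.mem_insert_iff, Set.mem_singleton_iff, Subtype.mk.injEq]
      rintro (rfl | rfl | rfl) <;> apply hlt <;> linarith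
    apply hli.notMem_span_image hn
    have : e = ((e 2 - (e 1 - 2 * e 0)) / eF 2) • eF + ((e 1 - 2 * e 0) / eC 2) • eC +
        (e 0 / eB 0) • eB := by
      funext i
      fin_cases i <;> simp [F0, F1, C0, C1, B1, B2] <;> field_simp <;> ring
    change e ∈ _
    rw [this]
    refine add_mem (add_mem ?_ ?_) ?_ <;> apply Submodule.smul_mem <;> apply Submodule.subset_span
    · exact ⟨⟨eF, hF⟩, by simp, rfl⟩
    · exact ⟨⟨eC, hC⟩, by simp, rfl⟩
    · exact ⟨⟨eB, hB⟩, by simp, rfl⟩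
  have key2 : ∀ z ∈ Submodule.span NNReal s, 2 * z 0 ≤ z 1 := by
    intro z hz
    induction hz using Submodule.span_induction with
    | mem x hx => exact key x hx
    | zero => simp
    | add x y _ _ hx hy => simp only [Pi.add_apply]; linarith
    | smul c x _ hx =>
      have hc : (0 : ℝ) ≤ c := c.2
      simp only [Pi.smul_apply, NNReal.smul_def, smul_eq_mul]
      nlinarith
  have := key2 _ (mem _ class_A)
  norm_num at this

lemma Mx_hom (i : Fin 4) (j : Fin 6) : (Mx i j).IsHomogeneous (![2, 1, 1, 1] i) := by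
  have h1 : ∀ k : Fin 3, (X k : MvPolynomial (Fin 3) ℂ).IsHomogeneous 1 :=
    fun k => isHomogeneous_X ℂ k
  have h2 : ∀ k : Fin 3, (X k ^ 2 : MvPolynomial (Fin 3) ℂ).IsHomogeneous 2 :=
    fun k => isHomogeneous_X_pow k 2
  have h3 : ∀ k : Fin 3, (-X k : MvPolynomial (Fin 3) ℂ).IsHomogeneous 1 := fun k => (h1 k).neg
  have h0 : ∀ n, (0 : MvPolynomial (Fin 3) ℂ).IsHomogeneous n := fun n => isHomogeneous_zero _ _ n
  fin_cases i <;> fin_cases j <;> simp [Mx, h0, h1, h2, h3]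

lemma Mx_apply (x : Fin 3 → ℂ) (y : Fin 6 → ℂ) : Matrix.toLin' (Mx.map (eval x)) y =
    ![x 0 ^ 2 * y 0 + x 1 ^ 2 * y 1 + x 2 ^ 2 * y 2, x 1 * y 3 - x 0 * y 4,
      x 2 * y 3 - x 0 * y 5, x 2 * y 4 - x 1 * y 5] := by
  funext i
  fin_cases i <;> simp [Mx, Matrix.mulVec, dotProduct, Fin.sum_univ_six, sub_eq_add_neg]

lemma Mx_rank (x : Fin 3 → ℂ) (hx : x ≠ 0) :
    finrank ℂ (LinearMap.ker (Matrix.toLin' (Mx.map (eval x)))) = 3 := by
  let μ : (Fin 4 → ℂ) →ₗ[ℂ] ℂ :=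
    x 2 • LinearMap.proj 1 - x 1 • LinearMap.proj 2 + x 0 • LinearMap.proj 3
  have hμ : ∀ z, μ z = x 2 * z 1 - x 1 * z 2 + x 0 * z 3 := fun z => by simp [μ]
  have hx' : x 0 ≠ 0 ∨ x 1 ≠ 0 ∨ x 2 ≠ 0 := by
    by_contra h
    push Not at h
    apply hx
    funext i
    fin_cases i <;> simp [h.1, h.2.1, h.2.2]
  have h1 : LinearMap.range (Matrix.toLin' (Mx.map (eval x))) = LinearMap.ker μ := by
    apply le_antisymm
    · rintro _ ⟨y, rfl⟩
      rw [LinearMap.mem_ker, hμ, Mx_apply]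
      simp
      ring
    · intro z hz
      rw [LinearMap.mem_ker, hμ] at hz
      rcases hx' with h | h | h
      · refine ⟨![z 0 / x 0 ^ 2, 0, 0, 0, - z 1 / x 0, - z 2 / x 0], ?_⟩
        rw [Mx_apply]
        funext i
        fin_cases i <;> simp <;> field_simp
        linear_combination -hz
      · refine ⟨![0, z 0 / x 1 ^ 2, 0, z 1 / x 1, 0, - z 3 / x 1], ?_⟩
        rw [Mx_apply]
        funext i
        fin_cases i <;> simp <;> field_simp
        linear_combination hz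
      · refine ⟨![0, 0, z 0 / x 2 ^ 2, z 2 / x 2, z 3 / x 2, 0], ?_⟩
        rw [Mx_apply]
        funext i
        fin_cases i <;> simp <;> field_simp
        linear_combination -hz
  have h2 : LinearMap.range μ = ⊤ := by
    rw [eq_top_iff]
    intro c _
    rcases hx' with h | h | h
    · exact ⟨![0, 0, 0, c / x 0], by rw [hμ]; simp; field_simp⟩
    · exact ⟨![0, 0, - c / x 1, 0], by rw [hμ]; simp; field_simp⟩
    · exact ⟨![0, c / x 2, 0, 0], by rw [hμ]; simp; field_simp⟩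
  have h3 := μ.finrank_range_add_finrank_ker
  have h4 := (Matrix.toLin' (Mx.map (eval x))).finrank_range_add_finrank_ker
  rw [h2, finrank_top] at h3
  rw [h1] at h4
  simp only [finrank_self, finrank_fintype_fun_eq_card, Fintype.card_fin] at h3 h4
  omega

end Pool.Agent.MP_f1b239_ag
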