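import Mathlib

set_option autoImplicit false

namespace Pool.Agent.MP_f1b239_ag

open MvPolynomial

/-- Bihomogeneous coordinate ring of the product of the plane (variables `inl i`) and of the
projective space of lines in `ℂ ^ n` (variables `inr j`). -/
abbrev Coord (n : ℕ) : Type := MvPolynomial (Fin 3 ⊕ Fin n) ℂ

/-- The bidegree of the variables. -/
def bideg (n : ℕ) : Fin 3 ⊕ Fin n → ℕ × ℕ := Sum.elim (fun _ => (1, 0)) (fun _ => (0, 1))

/-- The bigraded Hilbert function of the quotient by `P`. -/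
noncomputable def hilb {n : ℕ} (P : Ideal (Coord n)) (a b : ℕ) : ℕ :=
  Module.finrank ℂ
    ((weightedHomogeneousSubmodule ℂ (bideg n) (a, b)).map (Ideal.Quotient.mkₐ ℂ P).toLinearMap)

/-- The bigraded Hilbert polynomial of `P` has total degree at most two, with normalised
leading coefficients `v 0, v 1, v 2` (the intersection numbers with `h^2, h ξ, ξ^2`). -/
def HasDegrees {n : ℕ} (P : Ideal (Coord n)) (v : Fin 3 → ℝ) : Prop :=
  ∃ (c₁ c₂ c₀ : ℝ) (N : ℕ), ∀ a b : ℕ, N ≤ a → N ≤ b →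
    (hilb P a b : ℝ) = v 0 * (a : ℝ) ^ 2 / 2 + v 1 * a * b + v 2 * (b : ℝ) ^ 2 / 2
      + c₁ * a + c₂ * b + c₀

/-- `P` is a bihomogeneous prime ideal containing the equations `M(x) y = 0`. -/
def IsSubvariety {m n : ℕ} (M : Matrix (Fin m) (Fin n) (MvPolynomial (Fin 3) ℂ))
    (P : Ideal (Coord n)) : Prop :=
  P.IsPrime ∧ (∀ p ∈ P, ∀ e : ℕ × ℕ, weightedHomogeneousComponent (bideg n) e p ∈ P) ∧
    ∀ i, ∑ j, rename Sum.inl (M i j) * X (Sum.inr j) ∈ P

/-- Numerical classes of irreducible surfaces in `{(x, y) | M(x) y = 0}`. -/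
def surfaceClasses {m n : ℕ} (M : Matrix (Fin m) (Fin n) (MvPolynomial (Fin 3) ℂ)) :
    Set (Fin 3 → ℝ) :=
  {v | v ≠ 0 ∧ ∃ P, IsSubvariety M P ∧ HasDegrees P v}

/-- The closure of the convex cone spanned by the classes of irreducible surfaces. -/
def pseudoEff {m n : ℕ} (M : Matrix (Fin m) (Fin n) (MvPolynomial (Fin 3) ℂ)) :
    Set (Fin 3 → ℝ) :=
  closure (Submodule.span NNReal (surfaceClasses M) : Set (Fin 3 → ℝ))

/-- A cone is simplicial if it is the set of nonnegative combinations of linearly independent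
vectors. -/
def IsSimplicial (K : Set (Fin 3 → ℝ)) : Prop :=
  ∃ s : Set (Fin 3 → ℝ), LinearIndependent ℝ (fun v : s => (v : Fin 3 → ℝ)) ∧
    K = (Submodule.span NNReal s : Set (Fin 3 → ℝ))

end Pool.Agent.MP_f1b239_ag
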