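import Pool.Agent.MP_f1b239_ag.Defs

set_option autoImplicit false

namespace Pool.Agent.MP_f1b239_ag

/-- A cone is finitely generated if it is the set of nonnegative combinations of finitely many
vectors. -/
def IsFinGen (K : Set (Fin 3 → ℝ)) : Prop :=
  ∃ s : Finset (Fin 3 → ℝ), K = (Submodule.span NNReal (s : Set (Fin 3 → ℝ)) : Set (Fin 3 → ℝ))

end Pool.Agent.MP_f1b239_ag
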