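import Pool.Agent.MP_f1b239_ag.Upper

set_option autoImplicit false

namespace Pool.Agent.MP_f1b239_ag

open MvPolynomial Module

lemma isHom_ker {σ τ : Type} {w : σ → ℕ × ℕ} (w' : τ → ℕ × ℕ) (ι : ℕ × ℕ →+ ℕ × ℕ)
    (hι : Function.Injective ι) (φ : MvPolynomial σ ℂ →ₐ[ℂ] MvPolynomial τ ℂ)
    (hφ : ∀ i, φ (X i) ∈ Gr w' (ι (w i))) : IsHom w (RingHom.ker φ) :=
  IsHom.comap w' ι hι φ hφ isHom_bot

def shear : ℕ × ℕ →+ ℕ × ℕ where
  toFun m := (m.1 + m.2, m.2)
  map_zero' := rfl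
  map_add' m n := by ext <;> simp; omega

lemma shear_inj : Function.Injective shear := by
  intro m n h
  simp only [shear, AddMonoidHom.coe_mk, ZeroHom.coe_mk, Prod.mk.injEq] at h
  ext <;> omega

lemma span_range_eq {B ι κ : Type} [AddCommGroup B] [Module ℂ B] {f : ι → B} {g : κ → B}
    (h1 : ∀ i, f i = 0 ∨ ∃ k, g k = f i) (h2 : ∀ k, ∃ i, f i = g k) :
    Submodule.span ℂ (Set.range f) = Submodule.span ℂ (Set.range g) := by
  apply le_antisymm
  · rw [Submodule.span_le]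
    rintro _ ⟨i, rfl⟩
    rcases h1 i with h | h
    · rw [h]; exact zero_mem _
    · exact Submodule.subset_span h
  · apply Submodule.span_mono
    rintro _ ⟨k, rfl⟩
    exact h2 k

lemma XY_eq (p : ℕ) : Xs p 1 * Ys p 1 =
    Submodule.span ℂ (Set.range fun i : Fin p => X (Sum.inl i) * X (Sum.inr 0)) := by
  rw [Xs, Ys, Submodule.span_mul_span]
  congr 1
  ext z
  constructor
  · rintro ⟨_, ⟨i, rfl⟩, _, ⟨j, rfl⟩, rfl⟩
    exact ⟨i, by rw [Subsingleton.elim j 0]⟩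
  · rintro ⟨i, rfl⟩
    exact ⟨_, ⟨i, rfl⟩, _, ⟨0, rfl⟩, rfl⟩

lemma xt_mem {p : ℕ} (i : Fin p) : (X (Sum.inl i) * X (Sum.inr 0) :
    MvPolynomial (Fin p ⊕ Fin 1) ℂ) ∈ Gr (bw p 1) (1, 1) :=
  IsWeightedHomogeneous.mul (X_inl_mem (q := 1) i) (X_inr_mem (p := p) 0)

/-! The fibre. -/

noncomputable def phiF : Coord 6 →ₐ[ℂ] MvPolynomial (Fin 1 ⊕ Fin 3) ℂ :=
  aeval (Sum.elim ![X (Sum.inl 0), 0, 0]
    ![0, X (Sum.inr 0), X (Sum.inr 1), X (Sum.inr 2), 0, 0])

lemma class_F : (![0, 0, 1] : Fin 3 → ℝ) ∈ surfaceClasses Mx := by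
  refine ⟨fun h => by simpa using congrFun h 2, RingHom.ker phiF,
    ⟨RingHom.ker_isPrime _, ?_, ?_⟩, ?_⟩
  · refine isHom_ker (w := bw 3 6) (bw 1 3) (AddMonoidHom.id _) Function.injective_id phiF ?_
    rintro (i | j)
    · have := fun k => X_inl_mem (p := 1) (q := 3) k
      change _ ∈ Gr (bw 1 3) (1, 0)
      fin_cases i <;> simp [phiF, -mem_weightedHomogeneousSubmodule, this]
    · have := fun k => X_inr_mem (p := 1) (q := 3) k
      change _ ∈ Gr (bw 1 3) (0, 1)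
      fin_cases j <;> simp [phiF, -mem_weightedHomogeneousSubmodule, this]
  · rw [eqs_iff]
    simp [RingHom.mem_ker, phiF]
  · rw [hasDegrees_iff]
    refine ⟨0, 3 / 2, 1, 0, fun a b _ _ => ?_⟩
    have h1 : Submodule.span ℂ (Set.range fun i => phiF (X (Sum.inl i))) = Xs 1 3 := by
      apply span_range_eq
      · intro i; fin_cases i <;> simp [phiF]
      · intro k; exact ⟨0, by rw [Subsingleton.elim k 0]; simp [phiF]⟩
    have h2 : Submodule.span ℂ (Set.range fun i => phiF (X (Sum.inr i))) = Ys 1 3 := by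
      apply span_range_eq
      · intro i; fin_cases i <;> simp [phiF]
      · intro k
        fin_cases k
        · exact ⟨1, by simp [phiF]⟩
        · exact ⟨2, by simp [phiF]⟩
        · exact ⟨3, by simp [phiF]⟩
    beta_reduce
    rw [HF_ker, map_Gr, h1, h2, ← Gr_eq_XY, finrank_Gr_bw]
    push_cast
    rw [mc1, mc3]
    simp
    ring

/-! The section. -/

noncomputable def phiA : Coord 6 →ₐ[ℂ] MvPolynomial (Fin 3 ⊕ Fin 1) ℂ :=
  aeval (Sum.elim (fun i => X (Sum.inl i))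
    ![0, 0, 0, X (Sum.inl 0) * X (Sum.inr 0), X (Sum.inl 1) * X (Sum.inr 0),
      X (Sum.inl 2) * X (Sum.inr 0)])

lemma class_A : (![1, 1, 1] : Fin 3 → ℝ) ∈ surfaceClasses Mx := by
  refine ⟨fun h => by simpa using congrFun h 2, RingHom.ker phiA,
    ⟨RingHom.ker_isPrime _, ?_, ?_⟩, ?_⟩
  · refine isHom_ker (w := bw 3 6) (bw 3 1) shear shear_inj phiA ?_
    rintro (i | j)
    · have := fun k => X_inl_mem (p := 3) (q := 1) k
      change _ ∈ Gr (bw 3 1) (1, 0)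
      simp [phiA, -mem_weightedHomogeneousSubmodule, this]
    · have := fun k => xt_mem (p := 3) k
      change _ ∈ Gr (bw 3 1) (1, 1)
      fin_cases j <;> simp [phiA, -mem_weightedHomogeneousSubmodule, this]
  · rw [eqs_iff]
    simp only [RingHom.mem_ker, phiA, map_add, map_sub, map_mul, map_pow, aeval_X, Sum.elim_inl,
      Sum.elim_inr]
    simp only [Matrix.cons_val]
    refine ⟨by ring, by ring, by ring, by ring⟩
  · rw [hasDegrees_iff]
    refine ⟨3 / 2, 3 / 2, 1, 0, fun a b _ _ => ?_⟩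
    have h1 : Submodule.span ℂ (Set.range fun i => phiA (X (Sum.inl i))) = Xs 3 1 := by
      simp [phiA, Xs]
    have h2 : Submodule.span ℂ (Set.range fun i => phiA (X (Sum.inr i))) = Xs 3 1 * Ys 3 1 := by
      rw [XY_eq]
      apply span_range_eq
      · intro i; fin_cases i <;> simp [phiA]
      · intro k
        fin_cases k
        · exact ⟨3, by simp [phiA]⟩
        · exact ⟨4, by simp [phiA]⟩
        · exact ⟨5, by simp [phiA]⟩
    beta_reduce
    rw [HF_ker, map_Gr, h1, h2, mul_pow, ← mul_assoc, ← pow_add, ← Gr_eq_XY, finrank_Gr_bw]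
    push_cast
    rw [mc1, mc3]
    simp
    ring

/-! The ruled surface over a line. -/

noncomputable def phiE : Coord 6 →ₐ[ℂ] MvPolynomial (Fin 2 ⊕ Fin 1) ℂ :=
  aeval (Sum.elim ![0, X (Sum.inl 0), X (Sum.inl 1)]
    ![0, 0, 0, 0, X (Sum.inl 0) * X (Sum.inr 0), X (Sum.inl 1) * X (Sum.inr 0)])

noncomputable def phiC : Coord 6 →ₐ[ℂ] MvPolynomial (Fin 2 ⊕ Fin 2) ℂ :=
  aeval (Sum.elim ![0, X (Sum.inl 0), X (Sum.inl 1)]
    ![X (Sum.inr 1), 0, 0, 0, X (Sum.inl 0) * X (Sum.inr 0), X (Sum.inl 1) * X (Sum.inr 0)])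

def wC : Fin 2 ⊕ Fin 2 → ℕ × ℕ := Sum.elim (fun _ => (1, 0)) ![(0, 1), (1, 1)]

lemma HF_E (a b : ℕ) : (HF (bw 3 6) (RingHom.ker phiE) (a, b) : ℝ) = a + b + 1 := by
  have h1 : Submodule.span ℂ (Set.range fun i => phiE (X (Sum.inl i))) = Xs 2 1 := by
    apply span_range_eq
    · intro i; fin_cases i <;> simp [phiE]
    · intro k
      fin_cases k
      · exact ⟨1, by simp [phiE]⟩
      · exact ⟨2, by simp [phiE]⟩
  have h2 : Submodule.span ℂ (Set.range fun i => phiE (X (Sum.inr i))) = Xs 2 1 * Ys 2 1 := by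
    rw [XY_eq]
    apply span_range_eq
    · intro i; fin_cases i <;> simp [phiE]
    · intro k
      fin_cases k
      · exact ⟨4, by simp [phiE]⟩
      · exact ⟨5, by simp [phiE]⟩
  rw [HF_ker, map_Gr, h1, h2, mul_pow, ← mul_assoc, ← pow_add, ← Gr_eq_XY, finrank_Gr_bw]
  push_cast
  rw [mc1, mc2]
  simp

lemma isHom_C : IsHom (bw 3 6) (RingHom.ker phiC) := by
  refine isHom_ker (w := bw 3 6) wC shear shear_inj phiC ?_
  have hx : ∀ k : Fin 2, (X (Sum.inl k) : MvPolynomial (Fin 2 ⊕ Fin 2) ℂ) ∈ Gr wC (1, 0) :=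
    fun k => isWeightedHomogeneous_X ℂ wC (Sum.inl k)
  have ht : (X (Sum.inr 0) : MvPolynomial (Fin 2 ⊕ Fin 2) ℂ) ∈ Gr wC (0, 1) :=
    isWeightedHomogeneous_X ℂ wC (Sum.inr 0)
  have hl : (X (Sum.inr 1) : MvPolynomial (Fin 2 ⊕ Fin 2) ℂ) ∈ Gr wC (1, 1) :=
    isWeightedHomogeneous_X ℂ wC (Sum.inr 1)
  have hxt : ∀ k : Fin 2, (X (Sum.inl k) * X (Sum.inr 0) : MvPolynomial (Fin 2 ⊕ Fin 2) ℂ) ∈
      Gr wC (1, 1) := fun k => IsWeightedHomogeneous.mul (hx k) ht
  rintro (i | j)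
  · change _ ∈ Gr wC (1, 0)
    fin_cases i <;> simp [phiC, -mem_weightedHomogeneousSubmodule, hx]
  · change _ ∈ Gr wC (1, 1)
    fin_cases j <;> simp [phiC, -mem_weightedHomogeneousSubmodule, hxt, hl]

lemma ker_C_sup : RingHom.ker phiC ⊔ Ideal.span {sy 0} = RingHom.ker phiE := by
  classical
  let ψ : MvPolynomial (Fin 2 ⊕ Fin 2) ℂ →ₐ[ℂ] MvPolynomial (Fin 2 ⊕ Fin 1) ℂ :=
    aeval (Sum.elim (fun i => X (Sum.inl i)) ![X (Sum.inr 0), 0])
  let ρ : MvPolynomial (Fin 2 ⊕ Fin 1) ℂ →ₐ[ℂ] MvPolynomial (Fin 2 ⊕ Fin 2) ℂ :=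
    aeval (Sum.elim (fun i => X (Sum.inl i)) fun _ => X (Sum.inr 0))
  let κ : Coord 6 →ₐ[ℂ] Coord 6 := aeval (Sum.elim sx ![0, sy 1, sy 2, sy 3, sy 4, sy 5])
  have h1 : ψ.comp phiC = phiE := by
    apply MvPolynomial.algHom_ext
    rintro (i | j)
    · fin_cases i <;> simp [ψ, phiC, phiE]
    · fin_cases j <;> simp [ψ, phiC, phiE]
  have h2 : phiC.comp κ = ρ.comp phiE := by
    apply MvPolynomial.algHom_ext
    rintro (i | j)
    · fin_cases i <;> simp [ρ, κ, phiC, phiE]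
    · fin_cases j <;> simp [ρ, κ, phiC, phiE]
  have h3 : ∀ p, κ p - p ∈ Ideal.span {sy 0} := by
    apply sub_mem_of_X
    rintro (i | j)
    · simp [κ]
    · fin_cases j <;> simp [κ]
  apply le_antisymm
  · rw [sup_le_iff, Ideal.span_singleton_le_iff_mem]
    refine ⟨fun p hp => ?_, by simp [RingHom.mem_ker, phiE]⟩
    rw [RingHom.mem_ker] at hp ⊢
    rw [← h1, AlgHom.comp_apply, hp, map_zero]
  · intro p hp
    rw [RingHom.mem_ker] at hp
    have h4 : κ p ∈ RingHom.ker phiC := by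
      rw [RingHom.mem_ker, ← AlgHom.comp_apply, h2, AlgHom.comp_apply, hp, map_zero]
    have : p = κ p - (κ p - p) := by ring
    rw [this]
    exact sub_mem (Ideal.mem_sup_left h4) (Ideal.mem_sup_right (h3 p))

lemma HF_C (a b : ℕ) : (HF (bw 3 6) (RingHom.ker phiC) (a, b) : ℝ) =
    (a + 1) * (b + 1) + b * (b + 1) / 2 := by
  induction b with
  | zero =>
    rw [← HF_sup_not_le isHom_C (X_inr_mem 0) (by simp) (bw_ne_zero 3 6), ker_C_sup, HF_E]
    simp
  | succ b ih =>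
    have h := HF_sup_add (bw_ne_zero 3 6) isHom_C (X_inr_mem 0) (fun c hc =>
      ((RingHom.ker_isPrime phiC).mem_or_mem hc).resolve_left
        (by simp [RingHom.mem_ker, phiC])) (a, b)
    rw [ker_C_sup, Prod.mk_add_mk, zero_add, add_comm 1 b] at h
    have h2 := congrArg (Nat.cast : ℕ → ℝ) h
    push_cast at h2
    rw [HF_E, ih] at h2
    rw [← h2]
    push_cast
    ring

lemma class_C : (![0, 1, 1] : Fin 3 → ℝ) ∈ surfaceClasses Mx := by
  refine ⟨fun h => by simpa using congrFun h 2, RingHom.ker phiC,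
    ⟨RingHom.ker_isPrime _, isHom_C, ?_⟩, ?_⟩
  · rw [eqs_iff]
    simp only [RingHom.mem_ker, phiC, map_add, map_sub, map_mul, map_pow, aeval_X, Sum.elim_inl,
      Sum.elim_inr]
    simp only [Matrix.cons_val]
    refine ⟨by ring, by ring, by ring, by ring⟩
  · rw [hasDegrees_iff]
    refine ⟨1, 3 / 2, 1, 0, fun a b _ _ => ?_⟩
    beta_reduce
    rw [HF_C]
    simp
    ring

/-! The pull-back of a Schubert divisor. -/

lemma l1_notMem : ll 1 ∉ If ⊔ Ideal.span {xx 0} := by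
  classical
  intro h
  let e : Fin 3 ⊕ Fin 3 → ℂ := Sum.elim (fun _ => 0) fun _ => 1
  have : If ⊔ Ideal.span {xx 0} ≤ RingHom.ker (eval e) := by
    rw [sup_le_iff, Ideal.span_singleton_le_iff_mem, Ideal.span_singleton_le_iff_mem]
    simp [RingHom.mem_ker, e, ff, gg]
  simpa [RingHom.mem_ker, e] using this h

lemma class_B : (![1, 2, 0] : Fin 3 → ℝ) ∈ surfaceClasses Mx := by
  have hP : (If ⊔ Ideal.span {ll 1}).IsPrime :=
    prime_of (π := ll 1) (k := 0) X_prime (dg_ll (by decide))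
      (not_dvd_of_eval (Sum.elim (fun _ => 1) fun _ => 0) (by simp) (by simp)) (by simp) l1_notMem
  refine ⟨fun h => by simpa using congrFun h 0, (If ⊔ Ideal.span {ll 1}).comap phi0,
    ⟨Ideal.IsPrime.comap phi0, ?_, ?_⟩, ?_⟩
  · exact IsHom.comap (w := bw 3 6) (bw 3 3) (AddMonoidHom.id _) Function.injective_id phi0
      phi0_gr (isHom_If.sup_span (X_inr_mem 1))
  · rw [eqs_iff]
    simp only [Ideal.mem_comap]
    refine ⟨Ideal.mem_sup_left ?_, by simp [phi0], by simp [phi0], by simp [phi0]⟩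
    have := ff_mem_If
    simpa [phi0, ff, gg, add_assoc] using this
  · rw [hasDegrees_iff]
    refine ⟨3 / 2, 1, 1, 2, fun a b ha hb => ?_⟩
    beta_reduce
    rw [HF_comap (w := bw 3 6) (bw 3 3) phi0 (phi0_map a b),
      HF_sec (X_inr_mem 1) (fun h => l1_notMem (Ideal.mem_sup_left h)) (by omega) (by omega)]
    simp [Phi]
    ring

end Pool.Agent.MP_f1b239_ag
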