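import Pool.Agent.MP_f1b239_ag.Net

set_option autoImplicit false

namespace Pool.Agent.MP_f1b239_ag

open MvPolynomial Module

lemma scaling {σ B : Type} [CommRing B] [Algebra ℂ B] (ν : σ → ℕ)
    (φ φ' : MvPolynomial σ ℂ →ₐ[ℂ] B) (c : B) (h : ∀ k, φ' (X k) = c ^ ν k * φ (X k))
    {u : MvPolynomial σ ℂ} {e : ℕ} (hu : IsWeightedHomogeneous ν u e) : φ' u = c ^ e * φ u := by
  induction hu using IsWeightedHomogeneous.induction_on with
  | zero => simp
  | add p q hp hq ihp ihq => rw [map_add, map_add, ihp, ihq, mul_add]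
  | monomial d r hr =>
    rw [monomial_eq, map_mul, map_mul, Finsupp.prod, map_prod, map_prod, ← hr,
      Finsupp.weight_apply, Finsupp.sum, ← Finset.prod_pow_eq_pow_sum, mul_left_comm,
      ← Finset.prod_mul_distrib]
    congr 1
    · exact (φ'.commutes r).trans (φ.commutes r).symm
    · refine Finset.prod_congr rfl fun k _ => ?_
      rw [map_pow, map_pow, h, mul_pow, ← pow_mul, smul_eq_mul, mul_comm (d k)]

def nu2 : Fin 3 ⊕ Fin 3 → ℕ := Sum.elim ![0, 1, 1] fun _ => 0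

lemma weight_nu2 (d : Fin 3 ⊕ Fin 3 →₀ ℕ) :
    Finsupp.weight nu2 d = d (Sum.inl 1) + d (Sum.inl 2) := by
  rw [Finsupp.weight_apply, Finsupp.sum_fintype _ _ (by simp), Fintype.sum_sum_type]
  simp [nu2, Fin.sum_univ_three]

noncomputable def Theta : T →ₐ[ℂ] Polynomial T :=
  aeval fun k => Polynomial.X ^ nu2 k * Polynomial.C (X k)

noncomputable abbrev cm2 (k : ℕ) (u : T) : T := weightedHomogeneousComponent nu2 k u

lemma Theta_hom {u : T} {e : ℕ} (hu : IsWeightedHomogeneous nu2 u e) :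
    Theta u = Polynomial.X ^ e * Polynomial.C u :=
  scaling nu2 Polynomial.CAlgHom Theta Polynomial.X (fun k => by simp [Theta]) hu

lemma coeff_Theta (u : T) (k : ℕ) : (Theta u).coeff k = cm2 k u := by
  induction u using MvPolynomial.induction_on' with
  | monomial d c =>
    have h := isWeightedHomogeneous_monomial nu2 d c rfl
    rw [Theta_hom h, cm2, weightedHomogeneousComponent_of_mem h, mul_comm,
      Polynomial.coeff_C_mul_X_pow]
  | add p q hp hq => rw [map_add, Polynomial.coeff_add, hp, hq, cm2, cm2, cm2, map_add]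

noncomputable def VV (i : ℕ) : Ideal T := (Ideal.span {Polynomial.X ^ i}).comap Theta

lemma mem_VV {i : ℕ} {u : T} : u ∈ VV i ↔ Polynomial.X ^ i ∣ Theta u := by
  rw [VV, Ideal.mem_comap, Ideal.mem_span_singleton]

lemma mem_VV' {i : ℕ} {u : T} : u ∈ VV i ↔ ∀ k < i, cm2 k u = 0 := by
  rw [mem_VV, Polynomial.X_pow_dvd_iff]
  simp only [coeff_Theta]

lemma mem_VV_support {i : ℕ} {u : T} :
    u ∈ VV i ↔ ∀ d ∈ u.support, i ≤ d (Sum.inl 1) + d (Sum.inl 2) := by
  rw [mem_VV']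
  constructor
  · intro h d hd
    by_contra hlt
    have := h _ (not_le.1 hlt)
    have h2 := congrArg (coeff d) this
    rw [coeff_weightedHomogeneousComponent, if_pos (weight_nu2 d), coeff_zero] at h2
    exact mem_support_iff.1 hd h2
  · intro h k hk
    apply weightedHomogeneousComponent_eq_zero'
    intro d hd
    have := h d hd
    rw [weight_nu2]
    omega

lemma hom_VV (i : ℕ) : Hom (VV i) := by
  classical
  intro p hp e
  rw [mem_VV_support] at hp ⊢
  intro d hd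
  rw [support_weightedHomogeneousComponent, Finset.mem_filter] at hd
  exact hp d hd.1

lemma VV_mul {i k : ℕ} {u z : T} (hu : u ∈ VV i) (hz : z ∈ VV k) : u * z ∈ VV (i + k) := by
  rw [mem_VV] at hu hz ⊢
  rw [map_mul, pow_add]
  exact mul_dvd_mul hu hz

lemma VV_anti {i k : ℕ} (h : i ≤ k) : VV k ≤ VV i := fun _ hu =>
  mem_VV.2 ((pow_dvd_pow _ h).trans (mem_VV.1 hu))

lemma mem_VV_zero (u : T) : u ∈ VV 0 := mem_VV.2 (by simp)

lemma cm2_mul {i k : ℕ} {u z : T} (hu : u ∈ VV i) (hz : z ∈ VV k) :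
    cm2 (i + k) (u * z) = cm2 i u * cm2 k z := by
  obtain ⟨p, hp⟩ := mem_VV.1 hu
  obtain ⟨q, hq⟩ := mem_VV.1 hz
  rw [← coeff_Theta, ← coeff_Theta, ← coeff_Theta, map_mul, hp, hq, mul_mul_mul_comm, ← pow_add]
  have h1 := Polynomial.coeff_X_pow_mul p i 0
  have h2 := Polynomial.coeff_X_pow_mul q k 0
  have h3 := Polynomial.coeff_X_pow_mul (p * q) (i + k) 0
  rw [zero_add] at h1 h2 h3
  rw [h1, h2, h3, Polynomial.mul_coeff_zero]

lemma hom_mem_VV {u : T} {e : ℕ} (hu : IsWeightedHomogeneous nu2 u e) : u ∈ VV e :=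
  mem_VV.2 ⟨_, Theta_hom hu⟩

lemma sub_cm2_mem {i : ℕ} {u : T} (hu : u ∈ VV i) : u - cm2 i u ∈ VV (i + 1) := by
  rw [mem_VV'] at hu ⊢
  intro k hk
  rw [cm2, map_sub, weightedHomogeneousComponent_of_mem (weightedHomogeneousComponent_mem _ _ _)]
  split_ifs with h
  · subst h; simp
  · rw [sub_zero]; exact hu k (by omega)

lemma col_VV {g : T} (hg : g ∈ VV 1) (h1 : cm2 1 g ≠ 0) (i : ℕ) : col (VV (i + 1)) g = VV i := by
  apply le_antisymm
  · intro c hc
    rw [mem_col, mem_VV, map_mul] at hc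
    obtain ⟨p, hp⟩ := mem_VV.1 hg
    have h2 := Polynomial.coeff_X_pow_mul p 1 0
    rw [← hp, zero_add, coeff_Theta] at h2
    rw [hp, pow_succ', pow_one, mul_assoc, mul_dvd_mul_iff_left Polynomial.X_ne_zero] at hc
    rw [mem_VV]
    refine Polynomial.prime_X.pow_dvd_of_dvd_mul_left i ?_ hc
    rw [Polynomial.X_dvd_iff, ← h2]
    exact h1
  · intro c hc
    rw [mem_col, add_comm]
    exact VV_mul hg hc

lemma x1_nu : IsWeightedHomogeneous nu2 (xx 1) 1 := isWeightedHomogeneous_X ℂ nu2 (Sum.inl 1)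
lemma x2_nu : IsWeightedHomogeneous nu2 (xx 2) 1 := isWeightedHomogeneous_X ℂ nu2 (Sum.inl 2)
lemma x0_nu : IsWeightedHomogeneous nu2 (xx 0) 0 := isWeightedHomogeneous_X ℂ nu2 (Sum.inl 0)
lemma ll_nu (j : Fin 3) : IsWeightedHomogeneous nu2 (ll j) 0 :=
  isWeightedHomogeneous_X ℂ nu2 (Sum.inr j)

noncomputable def ell : T := xx 1 * ll 1 + xx 2 * ll 2

lemma ell_nu : IsWeightedHomogeneous nu2 (xx 0 ^ 2 * ell) 1 :=
  (x0_nu.pow 2).mul ((x1_nu.mul (ll_nu 1)).add (x2_nu.mul (ll_nu 2)))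

lemma f3_sub_mem : f3 - xx 0 ^ 2 * ell ∈ VV 2 := by
  have : f3 - xx 0 ^ 2 * ell = (xx 1 * xx 1) * (xx 1 * ll 0 + xx 0 * ll 2) +
      (xx 2 * xx 2) * (xx 2 * ll 1) := by rw [f3, g3, ell]; ring
  rw [this]
  exact add_mem (Ideal.mul_mem_right _ _ (hom_mem_VV (x1_nu.mul x1_nu)))
    (Ideal.mul_mem_right _ _ (hom_mem_VV (x2_nu.mul x2_nu)))

lemma f3_mem_VV : f3 ∈ VV 1 := by
  simpa using add_mem (VV_anti (by omega) f3_sub_mem) (hom_mem_VV ell_nu)

lemma cm2_f3 : cm2 1 f3 = xx 0 ^ 2 * ell := by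
  have h := mem_VV'.1 f3_sub_mem 1 (by omega)
  rw [cm2, map_sub, weightedHomogeneousComponent_eq_self ell_nu, sub_eq_zero] at h
  exact h

lemma ell_prime : Prime ell := by
  rw [← UniqueFactorizationMonoid.irreducible_iff_prime]
  apply irreducible_mul_X_add
  · exact X_ne_zero _
  · rw [mem_vars_iff_degreeOf_ne_zero, not_not]
    exact dg_xx _ _
  · rw [mem_vars_iff_degreeOf_ne_zero, not_not]
    exact dg_mul (dg_xx _ _) (dg_ll (by decide))
  · rw [X_prime.irreducible.isRelPrime_iff_not_dvd]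
    apply not_dvd_of_eval (fun k => if k = Sum.inl 1 then 0 else 1) <;> simp

lemma col_VV_f3 (i : ℕ) : col (VV (i + 1)) f3 = VV i :=
  col_VV f3_mem_VV (by
    rw [cm2_f3]; exact mul_ne_zero (pow_ne_zero _ (X_ne_zero _)) ell_prime.ne_zero) i

lemma col_VV_x1 (i : ℕ) : col (VV (i + 1)) (xx 1) = VV i :=
  col_VV (hom_mem_VV x1_nu) (by
    rw [cm2, weightedHomogeneousComponent_eq_self x1_nu]; exact X_ne_zero _) i

lemma monomial_mem_span {d : Fin 3 ⊕ Fin 3 →₀ ℕ} {k : Fin 3 ⊕ Fin 3} {n : ℕ} (h : n ≤ d k)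
    (c : ℂ) : (monomial d c : T) ∈ Ideal.span {(X k : T) ^ n} := by
  rw [Ideal.mem_span_singleton, X_pow_eq_monomial]
  refine ⟨monomial (d - Finsupp.single k n) c, ?_⟩
  rw [monomial_mul, one_mul, add_tsub_cancel_of_le (Finsupp.single_le_iff.2 h)]

lemma mem_of_monomials {I : Ideal T} {u : T} (h : ∀ d ∈ u.support, monomial d (coeff d u) ∈ I) :
    u ∈ I := by
  rw [u.as_sum]
  exact I.sum_mem h

lemma VV_sup_X1 (n : ℕ) : VV n ⊔ X1 = X1 ⊔ Ideal.span {xx 2 ^ n} := by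
  apply le_antisymm
  · refine sup_le (fun u hu => mem_of_monomials fun d hd => ?_) le_sup_left
    have := mem_VV_support.1 hu d hd
    by_cases h : 1 ≤ d (Sum.inl 1)
    · have h2 := monomial_mem_span h (coeff d u)
      rw [pow_one] at h2
      exact Ideal.mem_sup_left h2
    · exact Ideal.mem_sup_right (monomial_mem_span (by omega) _)
  · refine sup_le le_sup_right ?_
    rw [Ideal.span_singleton_le_iff_mem]
    apply Ideal.mem_sup_left
    simpa using hom_mem_VV (x2_nu.pow n)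

lemma VV_one : VV 1 = pp := by
  have := VV_sup_X1 1
  rw [pow_one, sup_eq_left.2 ((Ideal.span_singleton_le_iff_mem _).2 (hom_mem_VV x1_nu))] at this
  exact this

lemma HT_VV (n : ℕ) : ∀ a b : ℕ, n + 1 ≤ a →
    (HT (VV n) a b : ℝ) = n * (n + 1) / 2 * ((b + 1) * (b + 2) / 2) := by
  induction n with
  | zero =>
    intro a b _
    rw [HT, HF_eq_zero (bw_ne_zero 3 3) fun p _ => mem_VV_zero p]
    simp
  | succ n ih =>
    intro a b ha
    obtain ⟨a, rfl⟩ := Nat.exists_eq_add_of_le (show 1 ≤ a by omega)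
    have h := HT_col (hom_VV (n + 1)) (xx_mem 1) a b
    rw [col_VV_x1, VV_sup_X1, zero_add] at h
    have h1 := congrArg (Nat.cast : ℕ → ℝ) h
    push_cast at h1
    have hm : xx 2 ^ (n + 1) ∈ GT (n + 1) 0 := by simpa using GT_pow (xx_mem 2) (n + 1)
    have h2 := HF_step X1_prime hom_X1 hm (notMem_X1 (by simp)) (a := 1 + a) (b := b)
      (by omega) (by omega)
    have h3 := HT_X1 (a := 1 + a) (by omega) b
    have h4 := HT_X1 (a := 1 + a - (n + 1)) (by omega) b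
    rw [Nat.cast_sub (by omega)] at h4
    have h5 := ih a b (by omega)
    simp only [HT, Nat.sub_zero] at h1 h2 h3 h4 h5 ⊢
    rw [← h1, h2, h3, h4, h5]
    push_cast
    ring

noncomputable abbrev AA (n : ℕ) : Ideal T := VV n ⊔ I3

lemma hom_AA (n : ℕ) : Hom (AA n) := (hom_VV n).sup hom_I3

noncomputable def hh (n t : ℝ) : ℝ := n * t ^ 2 / 2 + (n ^ 2 / 2 + n) * t + n * (n + 1) / 2

lemma HT_AA (n : ℕ) {a b : ℕ} (ha : n + 4 ≤ a) (hb : 1 ≤ b) : (HT (AA n) a b : ℝ) = hh n b := by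
  rcases n with _ | n
  · rw [HT, HF_eq_zero (bw_ne_zero 3 3) fun p _ => Ideal.mem_sup_left (mem_VV_zero p)]
    simp [hh]
  obtain ⟨a, rfl⟩ := Nat.exists_eq_add_of_le (show 3 ≤ a by omega)
  obtain ⟨b, rfl⟩ := Nat.exists_eq_add_of_le hb
  have h := HT_col (hom_VV (n + 1)) f3_mem a b
  rw [col_VV_f3] at h
  have h1 := congrArg (Nat.cast : ℕ → ℝ) h
  push_cast at h1
  rw [HT_VV n a b (by omega), HT_VV (n + 1) (3 + a) (1 + b) (by omega)] at h1
  rw [eq_sub_of_add_eq h1, hh]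
  push_cast
  ring

noncomputable def AB (n : ℕ) : Ideal T := sat (AA n) (xx 0)

lemma hom_AB (n : ℕ) : Hom (AB n) := hom_sat (hom_AA n) (xx_mem 0)

lemma I3_le_AB (n : ℕ) : I3 ≤ AB n := le_sup_right.trans (le_sat _ _)

lemma VV_le_AB (n : ℕ) : VV n ≤ AB n := le_sup_left.trans (le_sat _ _)

lemma AB_anti {i k : ℕ} (h : i ≤ k) : AB k ≤ AB i := sat_mono (sup_le_sup_right (VV_anti h) _) _

lemma mem_AB_zero (u : T) : u ∈ AB 0 := VV_le_AB 0 (mem_VV_zero u)

lemma HT_AB (n : ℕ) {a b : ℕ} (ha : n + 4 ≤ a) (hb : 1 ≤ b) : (HT (AB n) a b : ℝ) = hh n b := by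
  obtain ⟨N, hN⟩ := sat_eq_col (AA n) (xx 0)
  have hm : xx 0 ^ N ∈ GT N 0 := by simpa using GT_pow (xx_mem 0) N
  have h := HT_col (hom_AA n) hm a b
  have h0 : HT (AA n ⊔ Ideal.span {xx 0 ^ N}) (N + a) (0 + b) = 0 := by
    refine HF_eq_zero (bw_ne_zero 3 3) fun p hp => mem_of_monomials fun d hd => ?_
    have h1 : Finsupp.weight (bw 3 3) d = (N + a, 0 + b) := hp (mem_support_iff.1 hd)
    rw [weight_bw, Prod.mk.injEq, Fin.sum_univ_three] at h1
    by_cases h2 : N ≤ d (Sum.inl 0)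
    · exact Ideal.mem_sup_right (monomial_mem_span h2 _)
    · refine Ideal.mem_sup_left (Ideal.mem_sup_left (mem_VV_support.2 fun e he => ?_))
      have := Finset.mem_singleton.1 (support_monomial_subset he)
      subst this
      omega
  rw [h0, zero_add, zero_add, ← hN] at h
  rw [AB, h, HT_AA n (by omega) hb]

lemma deg_AB (n : ℕ) : Deg (HT (AB n)) ![0, 0, n] :=
  ⟨0, n ^ 2 / 2 + n, n * (n + 1) / 2, n + 4, fun a b ha hb => by
    rw [HT_AB n ha (by omega), hh]; simp⟩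

lemma HT_AB_le (n : ℕ) (a : ℕ) {b : ℕ} (hb : 1 ≤ b) : (HT (AB n) a b : ℝ) ≤ hh n b := by
  have h1 : ∀ k, HT (AB n) a b ≤ HT (AB n) (k + a) b := by
    intro k
    have hm : xx 0 ^ k ∈ GT k 0 := by simpa using GT_pow (xx_mem 0) k
    have h := HT_col (hom_AB n) hm a b
    have h2 : col (AB n) (xx 0 ^ k) = AB n := by
      refine le_antisymm ?_ (le_col _ _)
      rintro u ⟨N, hN⟩
      exact ⟨N + k, by rwa [pow_add, mul_assoc]⟩
    rw [h2, zero_add] at h
    omega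
  rw [← HT_AB n (a := n + 4 + a) (by omega) hb]
  exact_mod_cast h1 (n + 4)

lemma AB_one : AB 1 = pp := by
  have h1 : AA 1 = pp := by
    rw [AA, sup_eq_left.2 ((Ideal.span_singleton_le_iff_mem _).2 f3_mem_VV), VV_one]
  rw [AB, h1]
  refine le_antisymm ?_ (le_sat _ _)
  rintro u ⟨N, hN⟩
  refine (pp_prime.mem_or_mem hN).resolve_left fun h => ?_
  have h2 := pp_prime.mem_of_pow_mem _ h
  rw [← VV_one, mem_VV'] at h2
  have h3 := h2 0 (by omega)
  rw [cm2, weightedHomogeneousComponent_eq_self x0_nu] at h3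
  exact X_ne_zero _ h3

end Pool.Agent.MP_f1b239_ag
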