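import Pool.Agent.MP_f1b239_ag.Bounds
import Pool.Agent.MP_f1b239_ag.Defs

set_option autoImplicit false

namespace Pool.Agent.MP_f1b239_ag

open MvPolynomial Module

noncomputable def Mx : Matrix (Fin 4) (Fin 6) (MvPolynomial (Fin 3) ℂ) :=
  !![X 0 ^ 2, X 1 ^ 2, X 2 ^ 2, 0, 0, 0;
     0, 0, 0, X 1, -X 0, 0;
     0, 0, 0, X 2, 0, -X 0;
     0, 0, 0, 0, X 2, -X 1]

noncomputable abbrev sx (i : Fin 3) : Coord 6 := X (Sum.inl i)
noncomputable abbrev sy (j : Fin 6) : Coord 6 := X (Sum.inr j)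

lemma eqs_iff (P : Ideal (Coord 6)) :
    (∀ i, ∑ j, rename Sum.inl (Mx i j) * X (Sum.inr j) ∈ P) ↔
      (sx 0 ^ 2 * sy 0 + sx 1 ^ 2 * sy 1 + sx 2 ^ 2 * sy 2 ∈ P ∧
        sx 1 * sy 3 - sx 0 * sy 4 ∈ P ∧ sx 2 * sy 3 - sx 0 * sy 5 ∈ P ∧
        sx 2 * sy 4 - sx 1 * sy 5 ∈ P) := by
  simp [Fin.forall_fin_succ, Fin.sum_univ_six, Mx, sub_eq_add_neg]

lemma hasDegrees_iff (P : Ideal (Coord 6)) (v : Fin 3 → ℝ) :
    HasDegrees P v ↔ Deg (fun a b => HF (bw 3 6) P (a, b)) v := Iff.rfl

noncomputable def phi0 : Coord 6 →ₐ[ℂ] T := aeval (Sum.elim xx ![ll 0, ll 1, ll 2, 0, 0, 0])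

noncomputable def sec0 : T →ₐ[ℂ] Coord 6 := aeval (Sum.elim sx ![sy 0, sy 1, sy 2])

lemma phi0_gr : ∀ i, phi0 (X i) ∈ Gr (bw 3 3) ((AddMonoidHom.id _) (bw 3 6 i)) := by
  rintro (i | j)
  · simpa [phi0, bw] using X_inl_mem (q := 3) i
  · have := fun k => X_inr_mem (p := 3) (q := 3) k
    change _ ∈ Gr (bw 3 3) (0, 1)
    fin_cases j <;> simp [phi0, -mem_weightedHomogeneousSubmodule, this]

lemma sec0_gr : ∀ i, sec0 (X i) ∈ Gr (bw 3 6) ((AddMonoidHom.id _) (bw 3 3 i)) := by
  rintro (i | j)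
  · simpa [sec0, bw] using X_inl_mem (q := 6) i
  · have := fun k => X_inr_mem (p := 3) (q := 6) k
    change _ ∈ Gr (bw 3 6) (0, 1)
    fin_cases j <;> simp [sec0, -mem_weightedHomogeneousSubmodule, this]

lemma phi0_map (a b : ℕ) :
    (Gr (bw 3 6) (a, b)).map phi0.toLinearMap = Gr (bw 3 3) (a, b) := by
  rw [map_Gr, Gr_eq_XY]
  have h1 : Submodule.span ℂ (Set.range fun i => phi0 (X (Sum.inl i))) = Xs 3 3 := by
    simp [phi0, Xs]
  have h2 : Submodule.span ℂ (Set.range fun j => phi0 (X (Sum.inr j))) = Ys 3 3 := by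
    apply le_antisymm
    · rw [Submodule.span_le]
      rintro _ ⟨j, rfl⟩
      have : ∀ k, ll k ∈ Ys 3 3 := fun k => Submodule.subset_span (Set.mem_range_self k)
      fin_cases j <;> simp [phi0, this]
    · rw [Ys, Submodule.span_le]
      rintro _ ⟨j, rfl⟩
      apply Submodule.subset_span
      fin_cases j
      · exact ⟨0, by simp [phi0]⟩
      · exact ⟨1, by simp [phi0]⟩
      · exact ⟨2, by simp [phi0]⟩
  rw [h1, h2]

lemma map_mulLeft {B : Type} [CommRing B] [Algebra ℂ B] (c : B) (U : Submodule ℂ B) :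
    U.map (LinearMap.mulLeft ℂ c) = Submodule.span ℂ {c} * U := by
  ext x
  simp [Submodule.mem_span_singleton_mul]

lemma finrank_span_mul {B : Type} [CommRing B] [IsDomain B] [Algebra ℂ B] {c : B} (hc : c ≠ 0)
    (U : Submodule ℂ B) : finrank ℂ (Submodule.span ℂ {c} * U : Submodule ℂ B) = finrank ℂ U := by
  rw [← map_mulLeft]
  exact (Submodule.equivMapOfInjective (LinearMap.mulLeft ℂ c)
    (mul_right_injective₀ hc) U).finrank_eq.symm

def uidx : Fin 3 → Fin 6 := ![3, 4, 5]

lemma good_S {P : Ideal (Coord 6)} (hP : IsSubvariety Mx P) {v : Fin 3 → ℝ}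
    (hv : HasDegrees P v) : Good v := by
  obtain ⟨hp, hh, he⟩ := hP
  rw [eqs_iff] at he
  obtain ⟨e0, e1, e2, e3⟩ := he
  rw [hasDegrees_iff] at hv
  by_cases hu : ∀ j, sy (uidx j) ∈ P
  · have hκ : ∀ p, (sec0.comp phi0) p - p ∈ P := by
      apply sub_mem_of_X
      have h3 : sy 3 ∈ P := hu 0
      have h4 : sy 4 ∈ P := hu 1
      have h5 : sy 5 ∈ P := hu 2
      rintro (i | j)
      · simp [sec0, phi0]
      · fin_cases j <;> simp [sec0, phi0, h3, h4, h5]
    have hPQ : P = (P.comap sec0).comap phi0 := by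
      ext p
      rw [Ideal.mem_comap, Ideal.mem_comap]
      have := hκ p
      rw [AlgHom.comp_apply] at this
      constructor
      · intro h; simpa using add_mem this h
      · intro h; simpa using sub_mem h this
    refine good_T (Q := P.comap sec0) (Ideal.IsPrime.comap sec0)
      (IsHom.comap (bw 3 6) (AddMonoidHom.id _) Function.injective_id sec0 sec0_gr hh) ?_ ?_
    · rw [Ideal.mem_comap]
      simpa [sec0, ff, gg, add_assoc] using e0
    · have : (fun a b => HF (bw 3 3) (P.comap sec0) (a, b)) =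
          fun a b => HF (bw 3 6) P (a, b) := by
        funext a b
        rw [← HF_comap (w := bw 3 6) (bw 3 3) phi0 (phi0_map a b), ← hPQ]
      rw [this]; exact hv
  · push Not at hu
    obtain ⟨j, hj⟩ := hu
    refine hv.good_of_shift fun a b => ?_
    have hfin := finite_Gr (bw_ne_zero 3 6) (a, b + 1)
    have hfin2 : Module.Finite ℂ
        ((Gr (bw 3 6) (a, b + 1)).map (Ideal.Quotient.mkₐ ℂ P).toLinearMap) := inferInstance
    unfold HF
    rw [map_Gr] at hfin2
    rw [map_Gr, map_Gr]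
    set π := Ideal.Quotient.mkₐ ℂ P with hπ
    set U := Submodule.span ℂ (Set.range fun i => π (X (Sum.inl i))) with hU
    set V := Submodule.span ℂ (Set.range fun i => π (X (Sum.inr i))) with hV
    by_cases hx : ∀ i, sx i ∈ P
    · have : U = ⊥ := by
        rw [hU, Submodule.span_eq_bot]
        rintro _ ⟨i, rfl⟩
        exact Ideal.Quotient.eq_zero_iff_mem.2 (hx i)
      rw [this, pow_succ, Submodule.mul_bot, Submodule.bot_mul, finrank_bot]
      exact Nat.zero_le _
    push Not at hx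
    obtain ⟨i, hi⟩ := hx
    have rel : ∀ i k, π (sy (uidx i)) * π (sx k) = π (sx i) * π (sy (uidx k)) := by
      intro i k
      rw [← map_mul, ← map_mul]
      apply Ideal.Quotient.eq.2
      have n1 := neg_mem e1
      have n2 := neg_mem e2
      have n3 := neg_mem e3
      fin_cases i <;> fin_cases k <;> simp only [uidx, Fin.zero_eta, Fin.mk_one,
        Fin.reduceFinMk, Matrix.cons_val_zero, Matrix.cons_val_one, Matrix.cons_val]
      · convert P.zero_mem using 1; ring
      · convert e1 using 1; ring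
      · convert e2 using 1; ring
      · convert n1 using 1; ring
      · convert P.zero_mem using 1; ring
      · convert e3 using 1; ring
      · convert n2 using 1; ring
      · convert n3 using 1; ring
      · convert P.zero_mem using 1; ring
    have hxi : π (sx i) ≠ 0 := fun h => hi (Ideal.Quotient.eq_zero_iff_mem.1 h)
    have huj : π (sy (uidx j)) ≠ 0 := fun h => hj (Ideal.Quotient.eq_zero_iff_mem.1 h)
    have hui : π (sy (uidx i)) ≠ 0 := by
      intro h
      have h2 := rel i j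
      rw [h, zero_mul] at h2
      exact mul_ne_zero hxi huj h2.symm
    have hle : Submodule.span ℂ {π (sy (uidx i))} * U ≤ Submodule.span ℂ {π (sx i)} * V := by
      rw [hU, Submodule.span_mul_span, Submodule.span_le]
      rintro _ ⟨_, rfl, _, ⟨k, rfl⟩, rfl⟩
      change π (sy (uidx i)) * π (sx k) ∈ _
      rw [rel]
      exact Submodule.mul_mem_mul (Submodule.mem_span_singleton_self _)
        (Submodule.subset_span (Set.mem_range_self (uidx k)))
    rw [← finrank_span_mul hui (U ^ (a + 1) * V ^ b), ← finrank_span_mul hxi (U ^ a * V ^ (b + 1))]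
    have hfin3 : Module.Finite ℂ (Submodule.span ℂ {π (sx i)} * (U ^ a * V ^ (b + 1)) :
        Submodule ℂ _) := by
      rw [← map_mulLeft]; infer_instance
    apply Submodule.finrank_mono
    calc Submodule.span ℂ {π (sy (uidx i))} * (U ^ (a + 1) * V ^ b)
        = (Submodule.span ℂ {π (sy (uidx i))} * U) * (U ^ a * V ^ b) := by ring
      _ ≤ (Submodule.span ℂ {π (sx i)} * V) * (U ^ a * V ^ b) := mul_le_mul_left hle _
      _ = Submodule.span ℂ {π (sx i)} * (U ^ a * V ^ (b + 1)) := by ring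

lemma good_of_mem_span {s : Set (Fin 3 → ℝ)} (hs : ∀ v ∈ s, Good v) {z : Fin 3 → ℝ}
    (hz : z ∈ Submodule.span NNReal s) : Good z := by
  induction hz using Submodule.span_induction with
  | mem x hx => exact hs x hx
  | zero => simp [Good]
  | add x y _ _ hx hy =>
    obtain ⟨h1, h2, h3, h4⟩ := hx
    obtain ⟨k1, k2, k3, k4⟩ := hy
    simp only [Good, Pi.add_apply]
    exact ⟨by linarith, by linarith, by linarith, by linarith⟩
  | smul c x _ hx =>
    obtain ⟨h1, h2, h3, h4⟩ := hx
    have hc : (0 : ℝ) ≤ c := c.2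
    simp only [Good, Pi.smul_apply, NNReal.smul_def, smul_eq_mul]
    exact ⟨by positivity, by positivity, by nlinarith, by nlinarith⟩

lemma good_pseudoEff {z : Fin 3 → ℝ} (hz : z ∈ pseudoEff Mx) : Good z := by
  have hc : IsClosed {z : Fin 3 → ℝ | Good z} := by
    simp only [Good, Set.ofPred_and]
    refine (isClosed_le (by fun_prop) (by fun_prop)).inter
      ((isClosed_le (by fun_prop) (by fun_prop)).inter
      ((isClosed_le (by fun_prop) (by fun_prop)).inter (isClosed_le (by fun_prop) (by fun_prop))))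
  refine closure_minimal (fun y hy => ?_) hc hz
  refine good_of_mem_span (s := surfaceClasses Mx) (fun v hv => ?_) hy
  obtain ⟨_, P, hP, hv⟩ := hv
  exact good_S hP hv

end Pool.Agent.MP_f1b239_ag
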