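import Pool.Agent.MP_f1b239_ag.Key
import Pool.Agent.MP_f1b239_ag.Upper
import Pool.Agent.MP_f1b239_ag.Defs2

set_option autoImplicit false

namespace Pool.Agent.MP_f1b239_ag

open MvPolynomial Module

noncomputable def Mz : Matrix (Fin 4) (Fin 6) (MvPolynomial (Fin 3) ℂ) :=
  !![X 1 ^ 3, X 0 ^ 2 * X 1 + X 2 ^ 3, X 0 ^ 2 * X 2 + X 0 * X 1 ^ 2, - X 0 ^ 3, 0, 0;
     0, 0, 0, X 1, -X 0, 0;
     0, 0, 0, X 2, 0, -X 0;
     0, 0, 0, 0, X 2, -X 1]

lemma eqs_iff' (P : Ideal (Coord 6)) :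
    (∀ i, ∑ j, rename Sum.inl (Mz i j) * X (Sum.inr j) ∈ P) ↔
      (sec0 f3 - sx 0 ^ 3 * sy 3 ∈ P ∧
        sx 1 * sy 3 - sx 0 * sy 4 ∈ P ∧ sx 2 * sy 3 - sx 0 * sy 5 ∈ P ∧
        sx 2 * sy 4 - sx 1 * sy 5 ∈ P) := by
  simp [Fin.forall_fin_succ, Fin.sum_univ_six, Mz, sub_eq_add_neg, sec0, f3, g3, add_assoc]

lemma good_off {P : Ideal (Coord 6)} (hp : P.IsPrime) (e1 : sx 1 * sy 3 - sx 0 * sy 4 ∈ P)
    (e2 : sx 2 * sy 3 - sx 0 * sy 5 ∈ P) (e3 : sx 2 * sy 4 - sx 1 * sy 5 ∈ P) {v : Fin 3 → ℝ}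
    (hv : Deg (fun a b => HF (bw 3 6) P (a, b)) v) {j : Fin 3} (hj : sy (uidx j) ∉ P) :
    Good v := by
  refine hv.good_of_shift fun a b => ?_
  have hfin := finite_Gr (bw_ne_zero 3 6) (a, b + 1)
  have hfin2 : Module.Finite ℂ
      ((Gr (bw 3 6) (a, b + 1)).map (Ideal.Quotient.mkₐ ℂ P).toLinearMap) := inferInstance
  unfold HF
  rw [map_Gr] at hfin2
  rw [map_Gr, map_Gr]
  set π := Ideal.Quotient.mkₐ ℂ P with hπ
  set U := Submodule.span ℂ (Set.range fun i => π (X (Sum.inl i))) with hU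
  set V := Submodule.span ℂ (Set.range fun i => π (X (Sum.inr i))) with hV
  by_cases hx : ∀ i, sx i ∈ P
  · have : U = ⊥ := by
      rw [hU, Submodule.span_eq_bot]
      rintro _ ⟨i, rfl⟩
      exact Ideal.Quotient.eq_zero_iff_mem.2 (hx i)
    rw [this, pow_succ, Submodule.mul_bot, Submodule.bot_mul, finrank_bot]
    exact Nat.zero_le _
  push Not at hx
  obtain ⟨i, hi⟩ := hx
  have rel : ∀ i k, π (sy (uidx i)) * π (sx k) = π (sx i) * π (sy (uidx k)) := by
    intro i k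
    rw [← map_mul, ← map_mul]
    apply Ideal.Quotient.eq.2
    have n1 := neg_mem e1
    have n2 := neg_mem e2
    have n3 := neg_mem e3
    fin_cases i <;> fin_cases k <;> simp only [uidx, Fin.zero_eta, Fin.mk_one,
      Fin.reduceFinMk, Matrix.cons_val_zero, Matrix.cons_val_one, Matrix.cons_val]
    · convert P.zero_mem using 1; ring
    · convert e1 using 1; ring
    · convert e2 using 1; ring
    · convert n1 using 1; ring
    · convert P.zero_mem using 1; ring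
    · convert e3 using 1; ring
    · convert n2 using 1; ring
    · convert n3 using 1; ring
    · convert P.zero_mem using 1; ring
  have hxi : π (sx i) ≠ 0 := fun h => hi (Ideal.Quotient.eq_zero_iff_mem.1 h)
  have huj : π (sy (uidx j)) ≠ 0 := fun h => hj (Ideal.Quotient.eq_zero_iff_mem.1 h)
  have hui : π (sy (uidx i)) ≠ 0 := by
    intro h
    have h2 := rel i j
    rw [h, zero_mul] at h2
    exact mul_ne_zero hxi huj h2.symm
  have hle : Submodule.span ℂ {π (sy (uidx i))} * U ≤ Submodule.span ℂ {π (sx i)} * V := by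
    rw [hU, Submodule.span_mul_span, Submodule.span_le]
    rintro _ ⟨_, rfl, _, ⟨k, rfl⟩, rfl⟩
    change π (sy (uidx i)) * π (sx k) ∈ _
    rw [rel]
    exact Submodule.mul_mem_mul (Submodule.mem_span_singleton_self _)
      (Submodule.subset_span (Set.mem_range_self (uidx k)))
  rw [← finrank_span_mul hui (U ^ (a + 1) * V ^ b), ← finrank_span_mul hxi (U ^ a * V ^ (b + 1))]
  have hfin3 : Module.Finite ℂ (Submodule.span ℂ {π (sx i)} * (U ^ a * V ^ (b + 1)) :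
      Submodule ℂ _) := by
    rw [← map_mulLeft]; infer_instance
  apply Submodule.finrank_mono
  calc Submodule.span ℂ {π (sy (uidx i))} * (U ^ (a + 1) * V ^ b)
      = (Submodule.span ℂ {π (sy (uidx i))} * U) * (U ^ a * V ^ b) := by ring
    _ ≤ (Submodule.span ℂ {π (sx i)} * V) * (U ^ a * V ^ b) := mul_le_mul_left hle _
    _ = Submodule.span ℂ {π (sx i)} * (U ^ a * V ^ (b + 1)) := by ring

lemma class_cases {v : Fin 3 → ℝ} (h : v ∈ surfaceClasses Mz) :
    v ∈ cls (fun Q => f3 ∈ Q) ∨ Good v := by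
  obtain ⟨-, P, ⟨hp, hh', he⟩, hv⟩ := h
  rw [eqs_iff'] at he
  obtain ⟨e0, e1, e2, e3⟩ := he
  rw [hasDegrees_iff] at hv
  by_cases hu : ∀ j, sy (uidx j) ∈ P
  · left
    have h3 : sy 3 ∈ P := hu 0
    have h4 : sy 4 ∈ P := hu 1
    have h5 : sy 5 ∈ P := hu 2
    have hκ : ∀ p, (sec0.comp phi0) p - p ∈ P := by
      apply sub_mem_of_X
      rintro (i | j)
      · simp [sec0, phi0]
      · fin_cases j <;> simp [sec0, phi0, h3, h4, h5]
    have hPQ : P = (P.comap sec0).comap phi0 := by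
      ext p
      rw [Ideal.mem_comap, Ideal.mem_comap]
      have := hκ p
      rw [AlgHom.comp_apply] at this
      constructor
      · intro h; simpa using add_mem this h
      · intro h; simpa using sub_mem h this
    refine ⟨P.comap sec0, Ideal.IsPrime.comap sec0,
      IsHom.comap (bw 3 6) (AddMonoidHom.id _) Function.injective_id sec0 sec0_gr hh', ?_, ?_⟩
    · change sec0 f3 ∈ P
      have := add_mem e0 (P.mul_mem_left (sx 0 ^ 3) h3)
      rwa [sub_add_cancel] at this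
    · have : HT (P.comap sec0) = fun a b => HF (bw 3 6) P (a, b) := by
        funext a b
        rw [HT, ← HF_comap (w := bw 3 6) (bw 3 3) phi0 (phi0_map a b), ← hPQ]
      rw [this]; exact hv
  · push Not at hu
    obtain ⟨j, hj⟩ := hu
    exact Or.inr (good_off hp e1 e2 e3 hv hj)

lemma cls_sub {v : Fin 3 → ℝ} (h : v ∈ cls fun Q => f3 ∈ Q) :
    v ∈ Submodule.span NNReal (surfaceClasses Mz) := by
  by_cases h0 : v = 0
  · rw [h0]; exact zero_mem _
  obtain ⟨Q, hQ, hh', hf, hv⟩ := h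
  refine Submodule.subset_span ⟨h0, Q.comap phi0, ⟨Ideal.IsPrime.comap phi0, ?_, ?_⟩, ?_⟩
  · exact IsHom.comap (w := bw 3 6) (bw 3 3) (AddMonoidHom.id _) Function.injective_id phi0
      phi0_gr hh'
  · rw [eqs_iff']
    simp only [Ideal.mem_comap]
    refine ⟨?_, by simp [phi0], by simp [phi0], by simp [phi0]⟩
    have : f3 ∈ Q := hf
    simpa [phi0, sec0, f3, g3] using this
  · rw [hasDegrees_iff]
    refine hv.congr (M := 0) fun a b _ _ => ?_
    exact HF_comap (w := bw 3 6) (bw 3 3) phi0 (phi0_map a b) Q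

lemma lin_nonneg {S : Set (Fin 3 → ℝ)} {α β γ : ℝ}
    (h : ∀ v ∈ S, 0 ≤ α * v 0 + β * v 1 + γ * v 2) {z : Fin 3 → ℝ}
    (hz : z ∈ closure (Submodule.span NNReal S : Set (Fin 3 → ℝ))) :
    0 ≤ α * z 0 + β * z 1 + γ * z 2 := by
  have hc : IsClosed {z : Fin 3 → ℝ | 0 ≤ α * z 0 + β * z 1 + γ * z 2} :=
    isClosed_le (by fun_prop) (by fun_prop)
  refine closure_minimal (fun y hy => ?_) hc hz
  induction hy using Submodule.span_induction with
  | mem x hx => exact h x hx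
  | zero => simp
  | add x y _ _ hx hy =>
    simp only [Set.mem_ofPred_eq, Pi.add_apply] at hx hy ⊢
    linarith
  | smul c x _ hx =>
    have hc : (0 : ℝ) ≤ c := c.2
    simp only [Set.mem_ofPred_eq, Pi.smul_apply, NNReal.smul_def, smul_eq_mul] at hx ⊢
    nlinarith [mul_nonneg hc hx]

lemma eff_nonneg2 {z : Fin 3 → ℝ} (hz : z ∈ pseudoEff Mz) : 0 ≤ z 2 := by
  have := lin_nonneg (α := 0) (β := 0) (γ := 1) (fun v hv => by
    obtain ⟨-, P, -, hv⟩ := hv
    simpa using ((hasDegrees_iff P v).1 hv).nonneg2) hz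
  simpa using this

lemma eff_face {z : Fin 3 → ℝ} (hz : z ∈ pseudoEff Mz) (h2 : z 2 = 0) : z 1 - 3 * z 0 ≤ 0 := by
  have key : ∀ n : ℕ, 3 ≤ n → 0 ≤ - 8 * (z 1 - 3 * z 0) * n + (z 0 + 3 * (z 1 - 3 * z 0)) := by
    intro n hn
    obtain ⟨C, hC, hk⟩ := key_ineq hn
    have hn' : (3 : ℝ) ≤ n := by exact_mod_cast hn
    have := lin_nonneg (α := 1 + 3 * (8 * n - 3)) (β := - (8 * n - 3)) (γ := C) (fun v hv => by
      rcases class_cases hv with h | ⟨h0, h1, h3, h4⟩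
      · have := hk v h
        linarith
      · nlinarith) hz
    rw [h2] at this
    linarith
  have := lead_nonneg' key
  linarith

theorem not_finGen : ¬ IsFinGen (pseudoEff Mz) := by
  rintro ⟨s, hs⟩
  have hmem : ∀ v ∈ s, v ∈ pseudoEff Mz := fun v hv =>
    hs ▸ (Submodule.subset_span hv : v ∈ Submodule.span NNReal (s : Set (Fin 3 → ℝ)))
  obtain ⟨c, hc⟩ := (s.image fun v => (v 1 - 3 * v 0) / v 2).bddAbove
  have h1 : ∀ v ∈ (s : Set (Fin 3 → ℝ)), 0 ≤ 3 * v 0 + (-1) * v 1 + c * v 2 := by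
    intro v hv
    rcases (eff_nonneg2 (hmem v hv)).eq_or_lt with h | h
    · have := eff_face (hmem v hv) h.symm
      rw [← h]
      linarith
    · have : (v 1 - 3 * v 0) / v 2 ≤ c := hc (Finset.mem_image_of_mem _ hv)
      rw [div_le_iff₀ h] at this
      linarith
  obtain ⟨n, hn⟩ := exists_nat_gt c
  obtain ⟨b, hb⟩ := exists_elt (a' := n + 3) (by omega)
  have h2 : ![b, ((n + 3 : ℕ) : ℝ) + 3 * b, 1] ∈ pseudoEff Mz :=
    subset_closure (Submodule.span_le.2 (fun v hv => cls_sub hv) hb)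
  rw [hs] at h2
  have h3 := lin_nonneg h1 (subset_closure h2)
  simp only [Matrix.cons_val_zero, Matrix.cons_val_one, Matrix.cons_val] at h3
  push_cast at h3
  linarith

lemma Mz_hom (i : Fin 4) (j : Fin 6) : (Mz i j).IsHomogeneous (![3, 1, 1, 1] i) := by
  have h1 : ∀ k : Fin 3, (X k : MvPolynomial (Fin 3) ℂ).IsHomogeneous 1 :=
    fun k => isHomogeneous_X ℂ k
  have h2 : ∀ k : Fin 3, (X k ^ 2 : MvPolynomial (Fin 3) ℂ).IsHomogeneous 2 :=
    fun k => isHomogeneous_X_pow k 2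
  have h4 : ∀ k : Fin 3, (X k ^ 3 : MvPolynomial (Fin 3) ℂ).IsHomogeneous 3 :=
    fun k => isHomogeneous_X_pow k 3
  have h3 : ∀ k : Fin 3, (-X k : MvPolynomial (Fin 3) ℂ).IsHomogeneous 1 := fun k => (h1 k).neg
  have h0 : ∀ n, (0 : MvPolynomial (Fin 3) ℂ).IsHomogeneous n := fun n => isHomogeneous_zero _ _ n
  have h5 : (X 0 ^ 2 * X 1 + X 2 ^ 3 : MvPolynomial (Fin 3) ℂ).IsHomogeneous 3 :=
    ((h2 0).mul (h1 1)).add (h4 2)
  have h6 : (X 0 ^ 2 * X 2 + X 0 * X 1 ^ 2 : MvPolynomial (Fin 3) ℂ).IsHomogeneous 3 :=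
    ((h2 0).mul (h1 2)).add ((h1 0).mul (h2 1))
  have h7 : (- X 0 ^ 3 : MvPolynomial (Fin 3) ℂ).IsHomogeneous 3 := (h4 0).neg
  fin_cases i <;> fin_cases j <;> simp [Mz, h0, h1, h3, h4, h5, h6, h7]

lemma Mz_apply (x : Fin 3 → ℂ) (y : Fin 6 → ℂ) : Matrix.toLin' (Mz.map (eval x)) y =
    ![x 1 ^ 3 * y 0 + (x 0 ^ 2 * x 1 + x 2 ^ 3) * y 1 + (x 0 ^ 2 * x 2 + x 0 * x 1 ^ 2) * y 2
      - x 0 ^ 3 * y 3, x 1 * y 3 - x 0 * y 4, x 2 * y 3 - x 0 * y 5, x 2 * y 4 - x 1 * y 5] := by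
  funext i
  fin_cases i <;> simp [Mz, Matrix.mulVec, dotProduct, Fin.sum_univ_six, sub_eq_add_neg]

lemma Mz_rank (x : Fin 3 → ℂ) (hx : x ≠ 0) :
    finrank ℂ (LinearMap.ker (Matrix.toLin' (Mz.map (eval x)))) = 3 := by
  let μ : (Fin 4 → ℂ) →ₗ[ℂ] ℂ :=
    x 2 • LinearMap.proj 1 - x 1 • LinearMap.proj 2 + x 0 • LinearMap.proj 3
  have hμ : ∀ z, μ z = x 2 * z 1 - x 1 * z 2 + x 0 * z 3 := fun z => by simp [μ]
  have hx' : x 1 ≠ 0 ∨ (x 1 = 0 ∧ x 2 ≠ 0) ∨ (x 1 = 0 ∧ x 2 = 0 ∧ x 0 ≠ 0) := by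
    by_contra h
    apply hx
    funext i
    fin_cases i <;> simp <;> tauto
  have h1 : LinearMap.range (Matrix.toLin' (Mz.map (eval x))) = LinearMap.ker μ := by
    apply le_antisymm
    · rintro _ ⟨y, rfl⟩
      rw [LinearMap.mem_ker, hμ, Mz_apply]
      simp
      ring
    · intro z hz
      rw [LinearMap.mem_ker, hμ] at hz
      rcases hx' with h | ⟨h', h⟩ | ⟨h', h'', h⟩
      · refine ⟨![(z 0 + x 0 ^ 3 * (z 1 / x 1)) / x 1 ^ 3, 0, 0, z 1 / x 1, 0, - z 3 / x 1], ?_⟩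
        rw [Mz_apply]
        funext i
        fin_cases i <;> simp <;> field_simp
        · ring
        · linear_combination hz
      · refine ⟨![0, (z 0 + x 0 ^ 3 * (z 2 / x 2)) / x 2 ^ 3, 0, z 2 / x 2, z 3 / x 2, 0], ?_⟩
        rw [Mz_apply]
        rw [h'] at hz
        funext i
        fin_cases i <;> simp [h'] <;> field_simp
        · ring
        · linear_combination -hz
      · refine ⟨![0, 0, 0, - z 0 / x 0 ^ 3, - z 1 / x 0, - z 2 / x 0], ?_⟩
        rw [Mz_apply]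
        rw [h', h''] at hz
        have hz3 : z 3 = 0 := by simpa [h] using hz
        funext i
        fin_cases i <;> simp [h', h'', hz3] <;> field_simp
  have h2 : LinearMap.range μ = ⊤ := by
    rw [eq_top_iff]
    intro c _
    rcases hx' with h | ⟨-, h⟩ | ⟨-, -, h⟩
    · exact ⟨![0, 0, - c / x 1, 0], by rw [hμ]; simp; field_simp⟩
    · exact ⟨![0, c / x 2, 0, 0], by rw [hμ]; simp; field_simp⟩
    · exact ⟨![0, 0, 0, c / x 0], by rw [hμ]; simp; field_simp⟩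
  have h3 := μ.finrank_range_add_finrank_ker
  have h4 := (Matrix.toLin' (Mz.map (eval x))).finrank_range_add_finrank_ker
  rw [h2, finrank_top] at h3
  rw [h1] at h4
  simp only [finrank_self, finrank_fintype_fun_eq_card, Fintype.card_fin] at h3 h4
  omega

end Pool.Agent.MP_f1b239_ag
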