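import Pool.Agent.MP_f1b239_ag.HP

set_option autoImplicit false

namespace Pool.Agent.MP_f1b239_ag

open MvPolynomial Module

noncomputable abbrev HT (I : Ideal T) : ℕ → ℕ → ℕ := fun a b => HF (bw 3 3) I (a, b)

abbrev Hom (I : Ideal T) : Prop := IsHom (bw 3 3) I

abbrev GT (a b : ℕ) : Submodule ℂ T := Gr (bw 3 3) (a, b)

def cls (𝒢 : Ideal T → Prop) : Set (Fin 3 → ℝ) :=
  {v | ∃ Q : Ideal T, Q.IsPrime ∧ Hom Q ∧ 𝒢 Q ∧ Deg (HT Q) v}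

lemma cls_mono {𝒢 𝒢' : Ideal T → Prop} (h : ∀ Q, Q.IsPrime → 𝒢 Q → 𝒢' Q) : cls 𝒢 ⊆ cls 𝒢' :=
  fun _ ⟨Q, h1, h2, h3, h4⟩ => ⟨Q, h1, h2, h Q h1 h3, h4⟩

lemma HT_mono {I J : Ideal T} (h : I ≤ J) (a b : ℕ) : HT J a b ≤ HT I a b :=
  HF_mono (bw_ne_zero 3 3) h (a, b)

lemma HT_col {I : Ideal T} (hI : Hom I) {g : T} {p q : ℕ} (hg : g ∈ GT p q) (a b : ℕ) :
    HT (I ⊔ Ideal.span {g}) (p + a) (q + b) + HT (col I g) a b = HT I (p + a) (q + b) :=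
  HF_col (bw_ne_zero 3 3) hI hg (a, b)

lemma lt_sup_span {I : Ideal T} {g : T} (hg : g ∉ I) : I < I ⊔ Ideal.span {g} :=
  lt_of_le_of_ne le_sup_left fun h =>
    hg (h ▸ Ideal.mem_sup_right (Ideal.mem_span_singleton_self g))

lemma col_eq_of_prime {I : Ideal T} (hI : I.IsPrime) {g : T} (hg : g ∉ I) : col I g = I :=
  le_antisymm (fun _ h => (hI.mem_or_mem (mem_col.1 h)).resolve_left hg) (le_col I g)

lemma GT_le_of_x {I : Ideal T} (h : ∀ i, xx i ∈ I) {a b : ℕ} (ha : 1 ≤ a) :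
    ∀ p ∈ GT a b, p ∈ I := by
  obtain ⟨a, rfl⟩ := Nat.exists_eq_add_of_le ha
  intro p hp
  rw [GT, Gr_eq_XY, pow_add, pow_one, mul_assoc] at hp
  refine Submodule.mul_induction_on hp (fun m hm n _ => I.mul_mem_right _ ?_) fun _ _ => add_mem
  have : Xs 3 3 ≤ I.restrictScalars ℂ := by
    rw [Xs, Submodule.span_le]; rintro _ ⟨i, rfl⟩; exact h i
  exact this hm

lemma GT_le_of_y {I : Ideal T} (h : ∀ i, ll i ∈ I) {a b : ℕ} (hb : 1 ≤ b) :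
    ∀ p ∈ GT a b, p ∈ I := by
  obtain ⟨b, rfl⟩ := Nat.exists_eq_add_of_le hb
  intro p hp
  rw [GT, Gr_eq_XY, pow_add, pow_one, mul_left_comm] at hp
  refine Submodule.mul_induction_on hp (fun m hm n _ => I.mul_mem_right _ ?_) fun _ _ => add_mem
  have : Ys 3 3 ≤ I.restrictScalars ℂ := by
    rw [Ys, Submodule.span_le]; rintro _ ⟨i, rfl⟩; exact h i
  exact this hm

theorem exists_deg {I₀ : Ideal T} {v₀ : Fin 3 → ℝ} (h₀ : Deg (HT I₀) v₀) (I : Ideal T) :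
    I₀ ≤ I → Hom I → ∃ v, Deg (HT I) v ∧ v ∈ Submodule.span NNReal (cls fun Q => I ≤ Q) := by
  induction I using (wellFounded_gt (α := Ideal T)).induction with
  | _ I ih =>
  intro hle hh
  by_cases htop : I = ⊤
  · refine ⟨0, Deg.zero (M := 0) fun a b _ _ => HF_eq_zero (bw_ne_zero 3 3) ?_, zero_mem _⟩
    intro p _; rw [htop]; trivial
  by_cases hp : I.IsPrime
  · suffices h : ∃ v, Deg (HT I) v by
      obtain ⟨v, hv⟩ := h
      exact ⟨v, hv, Submodule.subset_span ⟨I, hp, hh, le_rfl, hv⟩⟩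
    by_cases hx : ∀ i, xx i ∈ I
    · exact ⟨0, Deg.zero (M := 1) fun a b ha _ => HF_eq_zero (bw_ne_zero 3 3) (GT_le_of_x hx ha)⟩
    by_cases hy : ∀ i, ll i ∈ I
    · exact ⟨0, Deg.zero (M := 1) fun a b _ hb => HF_eq_zero (bw_ne_zero 3 3) (GT_le_of_y hy hb)⟩
    push Not at hx hy
    obtain ⟨i, hi⟩ := hx
    obtain ⟨j, hj⟩ := hy
    obtain ⟨v₁, h₁, -⟩ := ih _ (lt_sup_span hi) (hle.trans le_sup_left) (hh.sup_span (X_inl_mem i))
    obtain ⟨v₂, h₂, -⟩ := ih _ (lt_sup_span hj) (hle.trans le_sup_left) (hh.sup_span (X_inr_mem j))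
    refine Deg.integrate h₁ h₂ h₀ (fun a b => ?_) (fun a b => ?_) (HT_mono hle)
    · have := HT_col hh (X_inl_mem i) a b
      rwa [col_eq_of_prime hp hi, zero_add] at this
    · have := HT_col hh (X_inr_mem j) a b
      rwa [col_eq_of_prime hp hj, zero_add] at this
  · obtain ⟨g, h, ⟨p, q⟩, ε, hg, -, hgI, hhI, hgh⟩ := exists_hom_zero_div hh htop hp
    have hlt : I < col I g := lt_of_le_of_ne (le_col I g) fun e => hhI (e ▸ mem_col.2 hgh)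
    obtain ⟨v₁, h₁, k₁⟩ := ih _ (lt_sup_span hgI) (hle.trans le_sup_left) (hh.sup_span hg)
    obtain ⟨v₂, h₂, k₂⟩ := ih _ hlt (hle.trans hlt.le) (hh.col hg)
    refine ⟨v₁ + v₂, Deg.add_shift h₁ h₂ (HT_col hh hg), add_mem ?_ ?_⟩
    · exact Submodule.span_mono (cls_mono fun Q _ h => le_sup_left.trans h) k₁
    · exact Submodule.span_mono (cls_mono fun Q _ h => hlt.le.trans h) k₂

theorem subquot {A B₀ : Ideal T} {vA v₀ : Fin 3 → ℝ} (hA : Hom A) (dA : Deg (HT A) vA)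
    (h₀ : Deg (HT B₀) v₀) {𝒢 : Ideal T → Prop}
    (h𝒢 : ∀ g ∈ A, ∀ Q : Ideal T, Q.IsPrime → col B₀ g ≤ Q → 𝒢 Q) (B : Ideal T) :
    B₀ ≤ B → B ≤ A → Hom B → ∀ vB, Deg (HT B) vB → vB - vA ∈ Submodule.span NNReal (cls 𝒢) := by
  induction B using (wellFounded_gt (α := Ideal T)).induction with
  | _ B ih =>
  intro h1 h2 hh vB dB
  by_cases hAB : A ≤ B
  · obtain rfl : B = A := le_antisymm h2 hAB
    rw [dB.unique dA, sub_self]
    exact zero_mem _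
  obtain ⟨⟨p, q⟩, g, hg, hgA, hgB⟩ := exists_hom_notMem hA hAB
  obtain ⟨v₁, h₁, -⟩ := exists_deg h₀ (B ⊔ Ideal.span {g}) (h1.trans le_sup_left) (hh.sup_span hg)
  obtain ⟨v₂, h₂, k₂⟩ := exists_deg h₀ (col B g) (h1.trans (le_col B g)) (hh.col hg)
  have k₁ := ih _ (lt_sup_span hgB) (h1.trans le_sup_left)
    (sup_le h2 ((Ideal.span_singleton_le_iff_mem _).2 hgA)) (hh.sup_span hg) v₁ h₁
  rw [dB.unique (Deg.add_shift h₁ h₂ (HT_col hh hg)), add_sub_right_comm]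
  refine add_mem k₁ (Submodule.span_mono (cls_mono fun Q hQ h => ?_) k₂)
  exact h𝒢 g hgA Q hQ ((col_mono h1 g).trans h)

lemma deg_zero_of_gt {Q₀ Q : Ideal T} {v₀ v : Fin 3 → ℝ} (hp : Q₀.IsPrime) (hh₀ : Hom Q₀)
    (d₀ : Deg (HT Q₀) v₀) (hh : Hom Q) (hle : Q₀ ≤ Q) (hne : ¬ Q ≤ Q₀) (d : Deg (HT Q) v) :
    v = 0 := by
  obtain ⟨⟨p, q⟩, u, hu, huQ, huI⟩ := exists_hom_notMem hh hne
  have hle3 : Q₀ ⊔ Ideal.span {u} ≤ Q := sup_le hle ((Ideal.span_singleton_le_iff_mem _).2 huQ)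
  obtain ⟨c₁, c₂, c₀, N, d₀⟩ := d₀
  refine d.eq_zero_of_small (d₁ := v₀ 0 * p + v₀ 1 * q) (d₂ := v₀ 1 * p + v₀ 2 * q)
    (d₀ := c₁ * p + c₂ * q - (v₀ 0 * p ^ 2 / 2 + v₀ 1 * p * q + v₀ 2 * q ^ 2 / 2))
    (M := N + p + q) fun a b ha hb => ?_
  have h1 : (HT Q a b : ℝ) ≤ HT (Q₀ ⊔ Ideal.span {u}) a b := by exact_mod_cast HT_mono hle3 a b
  have h2 := HF_step hp hh₀ hu huI (a := a) (b := b) (by omega) (by omega)
  have h3 := d₀ a b (by omega) (by omega)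
  have h4 := d₀ (a - p) (b - q) (by omega) (by omega)
  rw [Nat.cast_sub (by omega), Nat.cast_sub (by omega)] at h4
  simp only [HT] at h1 h3 h4
  rw [h2, h3, h4] at h1
  refine h1.trans (le_of_eq ?_)
  ring

/-- Either a homogeneous ideal above a prime surface is that prime, or its class vanishes. -/
lemma deg_eq_or_zero {Q₀ Q : Ideal T} {v₀ v : Fin 3 → ℝ} (hp : Q₀.IsPrime) (hh₀ : Hom Q₀)
    (d₀ : Deg (HT Q₀) v₀) (hh : Hom Q) (hle : Q₀ ≤ Q) (d : Deg (HT Q) v) : v = v₀ ∨ v = 0 := by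
  by_cases hne : Q ≤ Q₀
  · obtain rfl : Q = Q₀ := le_antisymm hne hle
    exact Or.inl (d.unique d₀)
  · exact Or.inr (deg_zero_of_gt hp hh₀ d₀ hh hle hne d)

end Pool.Agent.MP_f1b239_ag
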