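import Mathlib

set_option autoImplicit false

namespace Pool.Agent.MP_f1b239_ag

open MvPolynomial Module

attribute [local instance] MvPolynomial.weightedGradedAlgebra

section General

variable {σ : Type} (w : σ → ℕ × ℕ)

abbrev Gr (m : ℕ × ℕ) : Submodule ℂ (MvPolynomial σ ℂ) := weightedHomogeneousSubmodule ℂ w m

noncomputable abbrev cmp (m : ℕ × ℕ) (p : MvPolynomial σ ℂ) : MvPolynomial σ ℂ :=
  weightedHomogeneousComponent w m p

noncomputable def HF (I : Ideal (MvPolynomial σ ℂ)) (m : ℕ × ℕ) : ℕ :=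
  finrank ℂ ((Gr w m).map (Ideal.Quotient.mkₐ ℂ I).toLinearMap)

def IsHom (I : Ideal (MvPolynomial σ ℂ)) : Prop := ∀ p ∈ I, ∀ e, cmp w e p ∈ I

variable {w}

lemma cmp_mem (m : ℕ × ℕ) (p : MvPolynomial σ ℂ) : cmp w m p ∈ Gr w m :=
  weightedHomogeneousComponent_mem w p m

lemma cmp_self {m : ℕ × ℕ} {p : MvPolynomial σ ℂ} (hp : p ∈ Gr w m) : cmp w m p = p :=
  weightedHomogeneousComponent_eq_self hp

lemma cmp_add (m : ℕ × ℕ) (p q : MvPolynomial σ ℂ) : cmp w m (p + q) = cmp w m p + cmp w m q :=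
  map_add _ _ _

lemma cmp_sub (m : ℕ × ℕ) (p q : MvPolynomial σ ℂ) : cmp w m (p - q) = cmp w m p - cmp w m q :=
  map_sub _ _ _

lemma decompose_eq (m : ℕ × ℕ) (p : MvPolynomial σ ℂ) :
    (DirectSum.decompose (Gr w) p m : MvPolynomial σ ℂ) = cmp w m p :=
  weightedDecomposition.decompose'_apply ℂ w p m

lemma cmp_mul_add {g : MvPolynomial σ ℂ} {δ : ℕ × ℕ} (hg : g ∈ Gr w δ) (m : ℕ × ℕ)
    (c : MvPolynomial σ ℂ) : cmp w (δ + m) (g * c) = g * cmp w m c := by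
  rw [← decompose_eq, ← decompose_eq]
  exact DirectSum.coe_decompose_mul_add_of_left_mem (Gr w) hg

lemma cmp_mul_not_le {g : MvPolynomial σ ℂ} {δ : ℕ × ℕ} (hg : g ∈ Gr w δ) {m : ℕ × ℕ}
    (h : ¬ δ ≤ m) (c : MvPolynomial σ ℂ) : cmp w m (g * c) = 0 := by
  rw [← decompose_eq]
  exact DirectSum.coe_decompose_mul_of_left_mem_of_not_le (Gr w) hg h

lemma cmp_mul_mem_span {g : MvPolynomial σ ℂ} {δ : ℕ × ℕ} (hg : g ∈ Gr w δ) (m : ℕ × ℕ)
    (c : MvPolynomial σ ℂ) : cmp w m (g * c) ∈ Ideal.span {g} := by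
  by_cases h : δ ≤ m
  · obtain ⟨k, rfl⟩ := exists_add_of_le h
    rw [cmp_mul_add hg]
    exact Ideal.mul_mem_right _ _ (Ideal.mem_span_singleton_self g)
  · rw [cmp_mul_not_le hg h]; exact zero_mem _

lemma isHom_bot : IsHom w (⊥ : Ideal (MvPolynomial σ ℂ)) := by
  intro p hp e
  rw [Ideal.mem_bot] at hp
  subst hp
  simp

lemma IsHom.sup_span {I : Ideal (MvPolynomial σ ℂ)} (hI : IsHom w I) {g : MvPolynomial σ ℂ}
    {δ : ℕ × ℕ} (hg : g ∈ Gr w δ) : IsHom w (I ⊔ Ideal.span {g}) := by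
  intro p hp e
  obtain ⟨i, hi, z, hz, rfl⟩ := Submodule.mem_sup.1 hp
  obtain ⟨c, rfl⟩ := Ideal.mem_span_singleton'.1 hz
  rw [cmp_add, mul_comm c g]
  exact add_mem (Ideal.mem_sup_left (hI i hi e)) (Ideal.mem_sup_right (cmp_mul_mem_span hg e c))

lemma sum_cmp (p : MvPolynomial σ ℂ) :
    ∃ s : Finset (ℕ × ℕ), ∑ m ∈ s, cmp w m p = p := by
  refine ⟨(weightedHomogeneousComponent_finsupp (w := w) p).toFinset, ?_⟩
  have := sum_weightedHomogeneousComponent w p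
  rw [finsum_eq_sum _ (weightedHomogeneousComponent_finsupp p)] at this
  exact this

lemma exists_cmp_notMem {I : Ideal (MvPolynomial σ ℂ)} {p : MvPolynomial σ ℂ} (hp : p ∉ I) :
    ∃ m, cmp w m p ∉ I := by
  by_contra h
  push Not at h
  obtain ⟨s, hs⟩ := sum_cmp (w := w) p
  exact hp (hs ▸ Ideal.sum_mem _ fun m _ => h m)

lemma exists_hom_notMem {I J : Ideal (MvPolynomial σ ℂ)} (hJ : IsHom w J) (h : ¬ J ≤ I) :
    ∃ m, ∃ p ∈ Gr w m, p ∈ J ∧ p ∉ I := by
  obtain ⟨p, hpJ, hpI⟩ := SetLike.not_le_iff_exists.1 h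
  obtain ⟨m, hm⟩ := exists_cmp_notMem (w := w) hpI
  exact ⟨m, _, cmp_mem m p, hJ p hpJ m, hm⟩

lemma finite_weight [Finite σ] (hw : ∀ i, w i ≠ 0) (m : ℕ × ℕ) :
    {d : σ →₀ ℕ | Finsupp.weight w d = m}.Finite := by
  have h := Finsupp.finite_of_nat_weight_eq (fun i => (w i).1 + (w i).2) (by
    intro i hi
    apply hw i
    ext <;> simp <;> omega) (m.1 + m.2)
  refine h.subset ?_
  intro d hd
  simp only [Set.mem_ofPred_eq] at hd ⊢
  subst hd
  simp only [Finsupp.weight_apply, Finsupp.sum, Prod.fst_sum, Prod.snd_sum, smul_eq_mul,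
    Prod.smul_fst, Prod.smul_snd, ← Finset.sum_add_distrib, mul_add]

lemma finite_Gr [Finite σ] (hw : ∀ i, w i ≠ 0) (m : ℕ × ℕ) : Module.Finite ℂ (Gr w m) := by
  have := (finite_weight hw m).to_subtype
  unfold Gr
  rw [weightedHomogeneousSubmodule_eq_finsupp_supported]
  exact Module.Finite.of_basis (basisRestrictSupport ℂ {d | Finsupp.weight w d = m})

lemma finrank_Gr (m : ℕ × ℕ) :
    finrank ℂ (Gr w m) = Nat.card {d : σ →₀ ℕ | Finsupp.weight w d = m} := by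
  unfold Gr
  rw [weightedHomogeneousSubmodule_eq_finsupp_supported]
  exact Module.finrank_eq_nat_card_basis
    (basisRestrictSupport ℂ {d | Finsupp.weight w d = m})

/-- The Hilbert function of a kernel is the dimension of the image. -/
lemma HF_ker {B : Type} [CommRing B] [Algebra ℂ B] (φ : MvPolynomial σ ℂ →ₐ[ℂ] B) (m : ℕ × ℕ) :
    HF w (RingHom.ker φ) m = finrank ℂ ((Gr w m).map φ.toLinearMap) := by
  unfold HF
  have hinj : Function.Injective (Ideal.kerLiftAlg φ).toLinearMap :=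
    Ideal.kerLiftAlg_injective φ
  rw [(Submodule.equivMapOfInjective _ hinj _).finrank_eq, ← Submodule.map_comp]
  rfl

lemma HF_bot (m : ℕ × ℕ) : HF w ⊥ m = finrank ℂ (Gr w m) := by
  have : (⊥ : Ideal (MvPolynomial σ ℂ)) = RingHom.ker (AlgHom.id ℂ (MvPolynomial σ ℂ)) := by
    ext x; simp
  rw [this, HF_ker, AlgHom.toLinearMap_id, Submodule.map_id]

/-- finrank of an image in terms of kernel. -/
lemma finrank_map_add {V W : Type} [AddCommGroup V] [Module ℂ V] [AddCommGroup W] [Module ℂ W]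
    (f : V →ₗ[ℂ] W) (U : Submodule ℂ V) [Module.Finite ℂ U] :
    finrank ℂ (U.map f) + finrank ℂ (U ⊓ LinearMap.ker f : Submodule ℂ V) = finrank ℂ U := by
  have h := LinearMap.finrank_range_add_finrank_ker (f.domRestrict U)
  rw [LinearMap.range_domRestrict, LinearMap.ker_domRestrict] at h
  rw [← h]
  congr 1
  rw [← (Submodule.comapSubtypeEquivOfLe (inf_le_left : U ⊓ LinearMap.ker f ≤ U)).finrank_eq]
  have : Submodule.comap U.subtype (U ⊓ LinearMap.ker f) =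
      Submodule.comap U.subtype (LinearMap.ker f) := by
    ext x
    simp
  rw [this]

lemma HF_mono [Finite σ] (hw : ∀ i, w i ≠ 0) {I J : Ideal (MvPolynomial σ ℂ)} (h : I ≤ J)
    (m : ℕ × ℕ) : HF w J m ≤ HF w I m := by
  have := finite_Gr hw m
  unfold HF
  have : (Ideal.Quotient.mkₐ ℂ J).toLinearMap =
      (Ideal.Quotient.factorₐ ℂ h).toLinearMap ∘ₗ (Ideal.Quotient.mkₐ ℂ I).toLinearMap := by
    ext x; rfl
  rw [this, Submodule.map_comp]
  exact Submodule.finrank_map_le _ _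

/-- Exact sequence for a homogeneous non zero divisor. -/
lemma HF_sup_add [Finite σ] (hw : ∀ i, w i ≠ 0) {I : Ideal (MvPolynomial σ ℂ)} (hI : IsHom w I)
    {g : MvPolynomial σ ℂ} {δ : ℕ × ℕ} (hg : g ∈ Gr w δ) (hnz : ∀ c, g * c ∈ I → c ∈ I)
    (m : ℕ × ℕ) : HF w (I ⊔ Ideal.span {g}) (δ + m) + HF w I m = HF w I (δ + m) := by
  have := finite_Gr hw m
  have := finite_Gr hw (δ + m)
  unfold HF
  set q := (Ideal.Quotient.mkₐ ℂ I).toLinearMap with hq
  have hle : I ≤ I ⊔ Ideal.span {g} := le_sup_left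
  set r := (Ideal.Quotient.factorₐ ℂ hle).toLinearMap with hr
  have h1 : (Ideal.Quotient.mkₐ ℂ (I ⊔ Ideal.span {g})).toLinearMap = r ∘ₗ q := by
    ext x; rfl
  rw [h1, Submodule.map_comp, ← finrank_map_add r ((Gr w (δ + m)).map q)]
  congr 1
  have hinj : Function.Injective (LinearMap.mulLeft ℂ (Ideal.Quotient.mk I g)) := by
    rw [← LinearMap.ker_eq_bot, eq_bot_iff]
    intro x hx
    obtain ⟨c, rfl⟩ := Ideal.Quotient.mk_surjective x
    simp only [LinearMap.mem_ker, LinearMap.mulLeft_apply, ← map_mul,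
      Ideal.Quotient.eq_zero_iff_mem] at hx
    simpa [Ideal.Quotient.eq_zero_iff_mem] using hnz c hx
  rw [(Submodule.equivMapOfInjective _ hinj _).finrank_eq]
  refine congrArg (fun U : Submodule ℂ (MvPolynomial σ ℂ ⧸ I) => finrank ℂ U) ?_
  apply le_antisymm
  · rintro _ ⟨_, ⟨c, hc, rfl⟩, rfl⟩
    refine ⟨⟨g * c, ?_, by simp [hq]⟩, ?_⟩
    · exact IsWeightedHomogeneous.mul hg hc
    · simp only [hq, hr, AlgHom.toLinearMap_apply, Ideal.Quotient.mkₐ_eq_mk,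
        LinearMap.mulLeft_apply, ← map_mul, SetLike.mem_coe, LinearMap.mem_ker]
      change Ideal.Quotient.mk (I ⊔ Ideal.span {g}) (g * c) = 0
      rw [Ideal.Quotient.eq_zero_iff_mem]
      exact Ideal.mem_sup_right (Ideal.mul_mem_right _ _ (Ideal.mem_span_singleton_self g))
  · rintro _ ⟨⟨v, hv, rfl⟩, hk⟩
    have hv' : v ∈ I ⊔ Ideal.span {g} := by
      rw [← Ideal.Quotient.eq_zero_iff_mem]; exact hk
    obtain ⟨i, hi, z, hz, hiz⟩ := Submodule.mem_sup.1 hv'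
    obtain ⟨c, rfl⟩ := Ideal.mem_span_singleton'.1 hz
    refine ⟨q (cmp w m c), ⟨_, cmp_mem m c, rfl⟩, ?_⟩
    have h2 : v = cmp w (δ + m) i + g * cmp w m c := by
      rw [← cmp_mul_add hg, ← cmp_add, mul_comm g c, hiz, cmp_self hv]
    simp only [hq, AlgHom.toLinearMap_apply, Ideal.Quotient.mkₐ_eq_mk,
      LinearMap.mulLeft_apply, ← map_mul]
    rw [h2, map_add, (Ideal.Quotient.eq_zero_iff_mem).2 (hI i hi _), zero_add]

lemma HF_sup_not_le {I : Ideal (MvPolynomial σ ℂ)} (hI : IsHom w I)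
    {g : MvPolynomial σ ℂ} {δ : ℕ × ℕ} (hg : g ∈ Gr w δ) {m : ℕ × ℕ} (hm : ¬ δ ≤ m)
    [Finite σ] (hw : ∀ i, w i ≠ 0) :
    HF w (I ⊔ Ideal.span {g}) m = HF w I m := by
  have := finite_Gr hw m
  have h1 := finrank_map_add (Ideal.Quotient.mkₐ ℂ I).toLinearMap (Gr w m)
  have h2 := finrank_map_add (Ideal.Quotient.mkₐ ℂ (I ⊔ Ideal.span {g})).toLinearMap (Gr w m)
  have h3 : Gr w m ⊓ LinearMap.ker (Ideal.Quotient.mkₐ ℂ (I ⊔ Ideal.span {g})).toLinearMap =
      Gr w m ⊓ LinearMap.ker (Ideal.Quotient.mkₐ ℂ I).toLinearMap := by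
    ext v
    simp only [Submodule.mem_inf, LinearMap.mem_ker, AlgHom.toLinearMap_apply,
      Ideal.Quotient.mkₐ_eq_mk, Ideal.Quotient.eq_zero_iff_mem]
    refine and_congr_right fun hv => ⟨fun h => ?_, fun h => Ideal.mem_sup_left h⟩
    obtain ⟨i, hi, z, hz, hiz⟩ := Submodule.mem_sup.1 h
    obtain ⟨c, rfl⟩ := Ideal.mem_span_singleton'.1 hz
    have h2 : v = cmp w m i := by
      rw [← cmp_self hv, ← hiz, cmp_add, mul_comm c g, cmp_mul_not_le hg hm, add_zero]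
    rw [h2]; exact hI i hi m
  rw [h3] at h2
  unfold HF
  omega

/-- A graded algebra map sends homogeneous elements to homogeneous elements. -/
lemma map_mem_Gr {τ : Type} (w' : τ → ℕ × ℕ) (ι : ℕ × ℕ →+ ℕ × ℕ)
    (φ : MvPolynomial σ ℂ →ₐ[ℂ] MvPolynomial τ ℂ) (hφ : ∀ i, φ (X i) ∈ Gr w' (ι (w i)))
    {m : ℕ × ℕ} {p : MvPolynomial σ ℂ} (hp : p ∈ Gr w m) : φ p ∈ Gr w' (ι m) := by
  have hp' : IsWeightedHomogeneous w p m := hp
  clear hp
  induction hp' using IsWeightedHomogeneous.induction_on with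
  | zero => simp
  | add p q hp hq ihp ihq => rw [map_add]; exact add_mem ihp ihq
  | monomial d r hr =>
    rw [monomial_eq, map_mul, Finsupp.prod, map_prod]
    have h1 : IsWeightedHomogeneous w' (∏ i ∈ d.support, φ (X i ^ d i))
        (∑ i ∈ d.support, d i • ι (w i)) := by
      apply IsWeightedHomogeneous.prod
      intro i _
      rw [map_pow]
      exact IsWeightedHomogeneous.pow (hφ i) _
    have h2 : (∑ i ∈ d.support, d i • ι (w i)) = ι m := by
      rw [← hr, Finsupp.weight_apply, Finsupp.sum, map_sum]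
      simp only [map_nsmul]
    rw [h2] at h1
    have : φ (C r) = C r := φ.commutes r
    rw [this]
    exact h1.C_mul r

lemma isHom_comap {τ : Type} (w' : τ → ℕ × ℕ) (ι : ℕ × ℕ →+ ℕ × ℕ) (hι : Function.Injective ι)
    (φ : MvPolynomial σ ℂ →ₐ[ℂ] MvPolynomial τ ℂ) (hφ : ∀ i, φ (X i) ∈ Gr w' (ι (w i)))
    (m : ℕ × ℕ) (p : MvPolynomial σ ℂ) : φ (cmp w m p) = cmp w' (ι m) (φ p) := by
  classical
  obtain ⟨s, hs⟩ := sum_cmp (w := w) p
  conv_rhs => rw [← hs]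
  rw [map_sum]
  unfold cmp
  rw [map_sum]
  have h1 : ∀ k ∈ s, weightedHomogeneousComponent w' (ι m)
      (φ (weightedHomogeneousComponent w k p)) =
      if m = k then φ (weightedHomogeneousComponent w m p) else 0 := by
    intro k _
    rw [weightedHomogeneousComponent_of_mem (map_mem_Gr w' ι φ hφ (cmp_mem k p))]
    by_cases h : m = k
    · subst h; simp
    · rw [if_neg h, if_neg (fun h' => h (hι h'))]
  rw [Finset.sum_congr rfl h1, Finset.sum_ite_eq]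
  split_ifs with h
  · rfl
  · have : weightedHomogeneousComponent w m p = 0 := by
      conv_lhs => rw [← hs]
      rw [map_sum]
      refine Finset.sum_eq_zero fun k hk => ?_
      rw [weightedHomogeneousComponent_of_mem (cmp_mem k p), if_neg]
      rintro rfl
      exact h hk
    rw [this, map_zero]

lemma IsHom.comap {τ : Type} (w' : τ → ℕ × ℕ) (ι : ℕ × ℕ →+ ℕ × ℕ) (hι : Function.Injective ι)
    (φ : MvPolynomial σ ℂ →ₐ[ℂ] MvPolynomial τ ℂ) (hφ : ∀ i, φ (X i) ∈ Gr w' (ι (w i)))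
    {J : Ideal (MvPolynomial τ ℂ)} (hJ : IsHom w' J) : IsHom w (J.comap φ) := by
  intro p hp e
  rw [Ideal.mem_comap] at hp ⊢
  rw [isHom_comap w' ι hι φ hφ]
  exact hJ _ hp _

lemma HF_comap {τ : Type} (w' : τ → ℕ × ℕ)
    (φ : MvPolynomial σ ℂ →ₐ[ℂ] MvPolynomial τ ℂ) {m m' : ℕ × ℕ}
    (h : (Gr w m).map φ.toLinearMap = Gr w' m') (J : Ideal (MvPolynomial τ ℂ)) :
    HF w (J.comap φ) m = HF w' J m' := by
  have : J.comap φ = RingHom.ker ((Ideal.Quotient.mkₐ ℂ J).comp φ) := by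
    ext x
    simp [Ideal.Quotient.eq_zero_iff_mem, RingHom.mem_ker]
  rw [this, HF_ker]
  unfold HF
  rw [← h, ← Submodule.map_comp]
  rfl

lemma sub_mem_of_X {I : Ideal (MvPolynomial σ ℂ)} (κ : MvPolynomial σ ℂ →ₐ[ℂ] MvPolynomial σ ℂ)
    (h : ∀ i, κ (X i) - X i ∈ I) (p : MvPolynomial σ ℂ) : κ p - p ∈ I := by
  have : (Ideal.Quotient.mkₐ ℂ I).comp κ = Ideal.Quotient.mkₐ ℂ I := by
    apply MvPolynomial.algHom_ext
    intro i
    simpa [Ideal.Quotient.eq] using h i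
  have h2 := DFunLike.congr_fun this p
  simpa [Ideal.Quotient.eq] using h2

end General

end Pool.Agent.MP_f1b239_ag
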