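import Pool.Agent.MP_f1b239_ag.Bigr

set_option autoImplicit false

namespace Pool.Agent.MP_f1b239_ag

open MvPolynomial Module

abbrev T : Type := MvPolynomial (Fin 3 ⊕ Fin 3) ℂ

noncomputable abbrev xx (i : Fin 3) : T := X (Sum.inl i)
noncomputable abbrev ll (i : Fin 3) : T := X (Sum.inr i)

noncomputable def gg : T := xx 1 ^ 2 * ll 1 + xx 2 ^ 2 * ll 2
noncomputable def ff : T := xx 0 ^ 2 * ll 0 + gg

lemma term_mem (i j : Fin 3) : xx i ^ 2 * ll j ∈ Gr (bw 3 3) (2, 1) := by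
  have := IsWeightedHomogeneous.mul (IsWeightedHomogeneous.pow (X_inl_mem (q := 3) i) 2)
    (X_inr_mem (p := 3) j)
  simpa using this

lemma ff_mem : ff ∈ Gr (bw 3 3) (2, 1) :=
  add_mem (term_mem 0 0) (add_mem (term_mem 1 1) (term_mem 2 2))

section Free

variable {σ : Type} {v : σ}

lemma dg_add {p q : MvPolynomial σ ℂ} (hp : degreeOf v p = 0) (hq : degreeOf v q = 0) :
    degreeOf v (p + q) = 0 := by
  have := degreeOf_add_le v p q
  rw [hp, hq] at this
  simpa using this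

lemma dg_sub {p q : MvPolynomial σ ℂ} (hp : degreeOf v p = 0) (hq : degreeOf v q = 0) :
    degreeOf v (p - q) = 0 := by
  have := degreeOf_sub_le v p q
  rw [hp, hq] at this
  simpa using this

lemma dg_mul {p q : MvPolynomial σ ℂ} (hp : degreeOf v p = 0) (hq : degreeOf v q = 0) :
    degreeOf v (p * q) = 0 := by
  have := degreeOf_mul_le v p q
  rw [hp, hq] at this
  simpa using this

lemma dg_pow {p : MvPolynomial σ ℂ} (hp : degreeOf v p = 0) (n : ℕ) :
    degreeOf v (p ^ n) = 0 := by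
  have := degreeOf_pow_le v p n
  rw [hp] at this
  simpa using this

lemma dg_cmp {w : σ → ℕ × ℕ} {p : MvPolynomial σ ℂ} (hp : degreeOf v p = 0) (m : ℕ × ℕ) :
    degreeOf v (cmp w m p) = 0 := by
  classical
  rw [← Nat.le_zero, degreeOf_le_iff]
  intro d hd
  rw [support_weightedHomogeneousComponent, Finset.mem_filter] at hd
  exact hp ▸ monomial_le_degreeOf v hd.1

lemma td_cmp {w : σ → ℕ × ℕ} (p : MvPolynomial σ ℂ) (m : ℕ × ℕ) :
    totalDegree (cmp w m p) ≤ totalDegree p := by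
  classical
  apply totalDegree_le_of_support_subset
  rw [support_weightedHomogeneousComponent]
  exact Finset.filter_subset _ _

end Free

lemma dg_xx (i j : Fin 3) : degreeOf (Sum.inr j) (xx i) = 0 := degreeOf_X_of_ne (by simp)

lemma dg_ll {i j : Fin 3} (h : j ≠ i) : degreeOf (Sum.inr j) (ll i) = 0 :=
  degreeOf_X_of_ne (by simpa using h)

lemma dg_gg : degreeOf (Sum.inr 0) gg = 0 :=
  dg_add (dg_mul (dg_pow (dg_xx _ _) _) (dg_ll (by decide)))
    (dg_mul (dg_pow (dg_xx _ _) _) (dg_ll (by decide)))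

lemma not_dvd_of_eval {i : Fin 3 ⊕ Fin 3} {p : T} (e : Fin 3 ⊕ Fin 3 → ℂ) (h0 : e i = 0)
    (h1 : eval e p ≠ 0) : ¬ (X i : T) ∣ p := by
  rintro ⟨c, rfl⟩
  simp [h0] at h1

lemma gg_prime : Prime gg := by
  rw [← UniqueFactorizationMonoid.irreducible_iff_prime]
  apply irreducible_mul_X_add
  · exact pow_ne_zero _ (X_ne_zero _)
  · rw [mem_vars_iff_degreeOf_ne_zero, not_not]
    exact dg_pow (dg_xx _ _) _
  · rw [mem_vars_iff_degreeOf_ne_zero, not_not]
    exact dg_mul (dg_pow (dg_xx _ _) _) (dg_ll (by decide))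
  · apply IsRelPrime.pow_left
    rw [X_prime.irreducible.isRelPrime_iff_not_dvd]
    apply not_dvd_of_eval (fun k => if k = Sum.inl 1 then 0 else 1) <;> simp

lemma ff_prime : Prime ff := by
  rw [← UniqueFactorizationMonoid.irreducible_iff_prime]
  apply irreducible_mul_X_add
  · exact pow_ne_zero _ (X_ne_zero _)
  · rw [mem_vars_iff_degreeOf_ne_zero, not_not]
    exact dg_pow (dg_xx _ _) _
  · rw [mem_vars_iff_degreeOf_ne_zero, not_not]
    exact dg_gg
  · apply IsRelPrime.pow_left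
    rw [X_prime.irreducible.isRelPrime_iff_not_dvd]
    apply not_dvd_of_eval (fun k => if k = Sum.inl 0 then 0 else 1)
    · simp
    · simp [gg]

noncomputable abbrev If : Ideal T := Ideal.span {ff}

lemma If_prime : If.IsPrime := (Ideal.span_singleton_prime ff_prime.ne_zero).2 ff_prime

lemma ff_mem_If : ff ∈ If := Ideal.mem_span_singleton_self _

lemma dg_ff : degreeOf (Sum.inr 0) ff ≠ 0 := by
  intro h
  have h1 : degreeOf (Sum.inr 0) (ff - gg) = 0 := dg_sub h dg_gg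
  have h2 : ff - gg = xx 0 ^ 2 * ll 0 := by simp [ff]
  rw [h2, degreeOf_mul_eq (pow_ne_zero _ (X_ne_zero _)) (X_ne_zero _), degreeOf_X_self] at h1
  omega

lemma eq_zero_of_free {p : T} (hp : degreeOf (Sum.inr 0) p = 0) (h : p ∈ If) : p = 0 := by
  obtain ⟨c, rfl⟩ := Ideal.mem_span_singleton'.1 h
  by_cases hc : c = 0
  · simp [hc]
  · rw [degreeOf_mul_eq hc ff_prime.ne_zero] at hp
    have := dg_ff
    omega

lemma x0_notMem : xx 0 ∉ If := fun h => X_ne_zero _ (eq_zero_of_free (dg_xx _ _) h)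

lemma If_x0_prime : (If ⊔ Ideal.span {xx 0}).IsPrime := by
  classical
  let κ : T →ₐ[ℂ] T := aeval fun k => if k = Sum.inl 0 then 0 else X k
  have hκ : ∀ p, κ p - p ∈ Ideal.span {xx 0} := by
    apply sub_mem_of_X
    intro i
    by_cases h : i = Sum.inl 0
    · subst h
      simp [κ]
    · simp [κ, h]
  have hg : κ gg = gg := by simp [κ, gg]
  have hf : κ ff = gg := by simp [κ, ff, gg]
  have hP : (Ideal.span {gg}).IsPrime := (Ideal.span_singleton_prime gg_prime.ne_zero).2 gg_prime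
  have : If ⊔ Ideal.span {xx 0} = (Ideal.span {gg}).comap κ := by
    apply le_antisymm
    · rw [sup_le_iff, Ideal.span_singleton_le_iff_mem, Ideal.span_singleton_le_iff_mem,
        Ideal.mem_comap, Ideal.mem_comap, hf]
      exact ⟨Ideal.mem_span_singleton_self _, by simp [κ]⟩
    · intro p hp
      rw [Ideal.mem_comap] at hp
      obtain ⟨c, hc⟩ := Ideal.mem_span_singleton'.1 hp
      have : p = c * ff - (c * (xx 0 * ll 0) * xx 0 + (κ p - p)) := by
        rw [← hc, ff]; ring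
      rw [this]
      refine sub_mem (Ideal.mem_sup_left (Ideal.mul_mem_left _ _ ff_mem_If))
        (Ideal.mem_sup_right (add_mem ?_ (hκ p)))
      exact Ideal.mul_mem_left _ _ (Ideal.mem_span_singleton_self _)
  rw [this]
  exact Ideal.IsPrime.comap κ

/-- Elimination of the variable `l 0` after multiplication by a power of `x 0`. -/
lemma elim (p : T) : ∃ (N : ℕ) (p' : T), degreeOf (Sum.inr 0) p' = 0 ∧ xx 0 ^ N * p - p' ∈ If := by
  induction p using MvPolynomial.induction_on with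
  | C a => exact ⟨0, C a, degreeOf_C _ _, by simp⟩
  | add p q hp hq =>
    obtain ⟨N, p', h1, h2⟩ := hp
    obtain ⟨M, q', h3, h4⟩ := hq
    refine ⟨N + M, xx 0 ^ M * p' + xx 0 ^ N * q',
      dg_add (dg_mul (dg_pow (dg_xx _ _) _) h1) (dg_mul (dg_pow (dg_xx _ _) _) h3), ?_⟩
    have : xx 0 ^ (N + M) * (p + q) - (xx 0 ^ M * p' + xx 0 ^ N * q') =
        xx 0 ^ M * (xx 0 ^ N * p - p') + xx 0 ^ N * (xx 0 ^ M * q - q') := by ring
    rw [this]
    exact add_mem (Ideal.mul_mem_left _ _ h2) (Ideal.mul_mem_left _ _ h4)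
  | mul_X p i hp =>
    obtain ⟨N, p', h1, h2⟩ := hp
    by_cases hi : i = Sum.inr 0
    · subst hi
      refine ⟨N + 2, p' * (0 - gg), dg_mul h1 (dg_sub (degreeOf_zero _) dg_gg), ?_⟩
      have : xx 0 ^ (N + 2) * (p * ll 0) - p' * (0 - gg) =
          (xx 0 ^ 2 * ll 0) * (xx 0 ^ N * p - p') + p' * ff := by rw [ff]; ring
      rw [this]
      exact add_mem (Ideal.mul_mem_left _ _ h2) (Ideal.mul_mem_left _ _ ff_mem_If)
    · refine ⟨N, p' * X i, dg_mul h1 (degreeOf_X_of_ne (Ne.symm hi)), ?_⟩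
      have : xx 0 ^ N * (p * X i) - p' * X i = X i * (xx 0 ^ N * p - p') := by ring
      rw [this]
      exact Ideal.mul_mem_left _ _ h2

lemma cancel_x0 {G : T} (hG : G ∉ If ⊔ Ideal.span {xx 0}) (N : ℕ) :
    ∀ a : T, xx 0 ^ N * a ∈ If ⊔ Ideal.span {G} → a ∈ If ⊔ Ideal.span {G} := by
  induction N with
  | zero => intro a h; simpa using h
  | succ N ih =>
    intro a h
    rw [pow_succ, mul_assoc] at h
    have h1 := ih _ h
    obtain ⟨i, hi, z, hz, hiz⟩ := Submodule.mem_sup.1 h1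
    obtain ⟨c, rfl⟩ := Ideal.mem_span_singleton'.1 hz
    have h2 : c * G ∈ If ⊔ Ideal.span {xx 0} := by
      have : c * G = xx 0 * a - i := by rw [← hiz]; ring
      rw [this]
      exact sub_mem (Ideal.mem_sup_right
        (Ideal.mul_mem_right _ _ (Ideal.mem_span_singleton_self _))) (Ideal.mem_sup_left hi)
    have h3 := (If_x0_prime.mem_or_mem h2).resolve_right hG
    obtain ⟨j, hj, z, hz, hjz⟩ := Submodule.mem_sup.1 h3
    obtain ⟨e, rfl⟩ := Ideal.mem_span_singleton'.1 hz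
    have h4 : xx 0 * (a - e * G) ∈ If := by
      have : xx 0 * (a - e * G) = i + j * G := by
        rw [mul_sub, ← hiz, ← hjz]; ring
      rw [this]
      exact add_mem hi (Ideal.mul_mem_right _ _ hj)
    have h5 := (If_prime.mem_or_mem h4).resolve_left x0_notMem
    have : a = (a - e * G) + e * G := by ring
    rw [this]
    exact add_mem (Ideal.mem_sup_left h5)
      (Ideal.mem_sup_right (Ideal.mul_mem_left _ _ (Ideal.mem_span_singleton_self _)))

lemma prime_of {π G : T} {k : ℕ} (hπ : Prime π) (hfree : degreeOf (Sum.inr 0) π = 0)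
    (hx : ¬ π ∣ xx 0) (hk : xx 0 ^ k * G - π ∈ If) (hG : G ∉ If ⊔ Ideal.span {xx 0}) :
    (If ⊔ Ideal.span {G}).IsPrime := by
  have key : ∀ a : T, (∃ (N : ℕ) (a' : T), π ∣ a' ∧ xx 0 ^ N * a - a' ∈ If) →
      a ∈ If ⊔ Ideal.span {G} := by
    rintro a ⟨N, _, ⟨a'', rfl⟩, h⟩
    apply cancel_x0 hG N
    have : xx 0 ^ N * a = ((xx 0 ^ N * a - π * a'') - a'' * (xx 0 ^ k * G - π)) +
        (a'' * xx 0 ^ k) * G := by ring
    rw [this]
    exact add_mem (Ideal.mem_sup_left (sub_mem h (Ideal.mul_mem_left _ _ hk)))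
      (Ideal.mem_sup_right (Ideal.mul_mem_left _ _ (Ideal.mem_span_singleton_self _)))
  have key2 : ∀ u u' : T, ∀ N : ℕ, degreeOf (Sum.inr 0) u' = 0 → xx 0 ^ N * u - u' ∈ If →
      u ∈ If ⊔ Ideal.span {G} → π ∣ u' := by
    intro u u' N h1 h2 h3
    obtain ⟨i, hi, z, hz, hiz⟩ := Submodule.mem_sup.1 h3
    obtain ⟨c, rfl⟩ := Ideal.mem_span_singleton'.1 hz
    obtain ⟨M, c', h4, h5⟩ := elim c
    have h6 : xx 0 ^ (k + M) * u' - xx 0 ^ N * c' * π ∈ If := by
      have : xx 0 ^ (k + M) * u' - xx 0 ^ N * c' * π =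
          xx 0 ^ (k + M + N) * i - xx 0 ^ (k + M) * (xx 0 ^ N * u - u') +
            xx 0 ^ (N + k) * G * (xx 0 ^ M * c - c') + xx 0 ^ N * c' * (xx 0 ^ k * G - π) := by
        rw [← hiz]; ring
      rw [this]
      exact add_mem (add_mem (sub_mem (Ideal.mul_mem_left _ _ hi) (Ideal.mul_mem_left _ _ h2))
        (Ideal.mul_mem_left _ _ h5)) (Ideal.mul_mem_left _ _ hk)
    have h7 := eq_zero_of_free (dg_sub (dg_mul (dg_pow (dg_xx _ _) _) h1)
      (dg_mul (dg_mul (dg_pow (dg_xx _ _) _) h4) hfree)) h6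
    have h8 : π ∣ xx 0 ^ (k + M) * u' := ⟨xx 0 ^ N * c', by rw [sub_eq_zero.1 h7]; ring⟩
    exact (hπ.dvd_or_dvd h8).resolve_left fun h => hx (hπ.dvd_of_dvd_pow h)
  constructor
  · rw [Ideal.ne_top_iff_one]
    intro h
    exact hπ.not_dvd_one (key2 1 1 0 (degreeOf_one _) (by simp) h)
  · intro a b hab
    obtain ⟨N, a', h1, h2⟩ := elim a
    obtain ⟨M, b', h3, h4⟩ := elim b
    have h5 : xx 0 ^ (N + M) * (a * b) - a' * b' ∈ If := by
      have : xx 0 ^ (N + M) * (a * b) - a' * b' =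
          xx 0 ^ M * b * (xx 0 ^ N * a - a') + a' * (xx 0 ^ M * b - b') := by ring
      rw [this]
      exact add_mem (Ideal.mul_mem_left _ _ h2) (Ideal.mul_mem_left _ _ h4)
    rcases hπ.dvd_or_dvd (key2 _ _ _ (dg_mul h1 h3) h5 hab) with h | h
    · exact Or.inl (key a ⟨N, a', h, h2⟩)
    · exact Or.inr (key b ⟨M, b', h, h4⟩)

lemma isHom_If : IsHom (bw 3 3) If := by
  have := (isHom_bot (w := bw 3 3)).sup_span ff_mem
  rwa [bot_sup_eq] at this

/-- A homogeneous prime strictly above the hypersurface contains a prime hypersurface section. -/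
lemma exists_section {Q : Ideal T} (hQ : Q.IsPrime) (hh : IsHom (bw 3 3) Q) (hf : ff ∈ Q)
    (hne : ¬ Q ≤ If) :
    ∃ (G : T) (p q : ℕ), G ∈ Gr (bw 3 3) (p, q) ∧ G ∈ Q ∧ G ∉ If ∧
      (If ⊔ Ideal.span {G}).IsPrime := by
  classical
  by_cases hx : xx 0 ∈ Q
  · exact ⟨xx 0, 1, 0, X_inl_mem 0, hx, x0_notMem, If_x0_prime⟩
  have hle : If ≤ Q := (Ideal.span_singleton_le_iff_mem _).2 hf
  have hex : ∃ n, ∃ g : T, g.totalDegree = n ∧ g ≠ 0 ∧ g ∈ Q ∧ degreeOf (Sum.inr 0) g = 0 ∧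
      ∃ m, g ∈ Gr (bw 3 3) m := by
    obtain ⟨g, hgQ, hgI⟩ := SetLike.not_le_iff_exists.1 hne
    obtain ⟨N, g', h1, h2⟩ := elim g
    have h3 : g' ∈ Q := by
      have : g' = xx 0 ^ N * g - (xx 0 ^ N * g - g') := by ring
      rw [this]
      exact sub_mem (Ideal.mul_mem_left _ _ hgQ) (hle h2)
    have h4 : g' ∉ (⊥ : Ideal T) := by
      rw [Ideal.mem_bot]
      rintro rfl
      rw [sub_zero] at h2
      rcases If_prime.mem_or_mem h2 with h | h
      · exact x0_notMem (If_prime.mem_of_pow_mem _ h)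
      · exact hgI h
    obtain ⟨m, hm⟩ := exists_cmp_notMem (w := bw 3 3) h4
    exact ⟨_, cmp (bw 3 3) m g', rfl, by simpa using hm, hh _ h3 m, dg_cmp h1 m, m, cmp_mem _ _⟩
  obtain ⟨g, hgd, hg0, hgQ, hgf, m, hgm⟩ := Nat.find_spec hex
  have hmin : ∀ g' : T, g' ≠ 0 → g' ∈ Q → degreeOf (Sum.inr 0) g' = 0 →
      (∃ m, g' ∈ Gr (bw 3 3) m) → g.totalDegree ≤ g'.totalDegree := by
    intro g' h1 h2 h3 h4
    rw [hgd]
    exact Nat.find_min' hex ⟨g', rfl, h1, h2, h3, h4⟩
  have hgp : Prime g := by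
    obtain ⟨s, hs, hsa⟩ := UniqueFactorizationMonoid.exists_prime_factors g hg0
    have h1 : s.prod ∈ Q := Q.mem_of_dvd hsa.symm.dvd hgQ
    obtain ⟨π, hπs, hπQ⟩ := (hQ.multiset_prod_mem_iff_exists_mem s).1 h1
    have hπ := hs π hπs
    obtain ⟨c, hc⟩ : π ∣ g := (Multiset.dvd_prod hπs).trans hsa.dvd
    have hc0 : c ≠ 0 := by rintro rfl; simp [hg0] at hc
    have hπf : degreeOf (Sum.inr 0) π = 0 := by
      rw [hc, degreeOf_mul_eq hπ.ne_zero hc0] at hgf
      omega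
    have h4 : π ∉ (⊥ : Ideal T) := by simpa using hπ.ne_zero
    obtain ⟨m', hm'⟩ := exists_cmp_notMem (w := bw 3 3) h4
    have h5 := hmin (cmp (bw 3 3) m' π) (by simpa using hm') (hh _ hπQ m') (dg_cmp hπf m')
      ⟨m', cmp_mem _ _⟩
    have h6 := td_cmp (w := bw 3 3) π m'
    have h7 : g.totalDegree = π.totalDegree + c.totalDegree := by
      rw [hc, totalDegree_mul_of_isDomain hπ.ne_zero hc0]
    have h8 : c.totalDegree = 0 := by omega
    rw [totalDegree_eq_zero_iff_eq_C] at h8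
    have h9 : IsUnit c := by
      rw [h8]
      refine (IsUnit.mk0 _ ?_).map C
      intro h
      rw [h, map_zero] at h8
      exact hc0 h8
    rw [hc]
    exact (associated_mul_unit_right π c h9).prime hπ
  have hgx : ¬ g ∣ xx 0 := fun h => hx (Q.mem_of_dvd h hgQ)
  obtain ⟨p₀, q⟩ := m
  have hex2 : ∃ p, ∃ (k : ℕ) (G : T), G ∈ Gr (bw 3 3) (p, q) ∧ xx 0 ^ k * G - g ∈ If :=
    ⟨p₀, 0, g, hgm, by simp⟩
  obtain ⟨k, G, hGm, hGk⟩ := Nat.find_spec hex2
  set p := Nat.find hex2 with hp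
  have hGI : G ∉ If := by
    intro h
    have : g ∈ If := by
      have : g = xx 0 ^ k * G - (xx 0 ^ k * G - g) := by ring
      rw [this]
      exact sub_mem (Ideal.mul_mem_left _ _ h) hGk
    exact hg0 (eq_zero_of_free hgf this)
  have hG : G ∉ If ⊔ Ideal.span {xx 0} := by
    intro h
    obtain ⟨i, hi, z, hz, hiz⟩ := Submodule.mem_sup.1 h
    obtain ⟨c, rfl⟩ := Ideal.mem_span_singleton'.1 hz
    have h1 : G = cmp (bw 3 3) (p, q) i + cmp (bw 3 3) (p, q) (xx 0 * c) := by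
      rw [← cmp_add, mul_comm, hiz, cmp_self hGm]
    rcases hp0 : p with _ | p'
    · rw [hp0, cmp_mul_not_le (X_inl_mem 0) (by simp), add_zero] at h1
      exact hGI (h1 ▸ isHom_If i hi _)
    · have h2 : ((p' + 1, q) : ℕ × ℕ) = (1, 0) + (p', q) := by
        ext <;> simp [add_comm]
      rw [hp0] at h1
      conv_rhs at h1 => rw [h2, cmp_mul_add (X_inl_mem 0)]
      have h3 : p ≤ p' := by
        apply Nat.find_min' hex2
        refine ⟨k + 1, cmp (bw 3 3) (p', q) c, cmp_mem _ _, ?_⟩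
        have : xx 0 ^ (k + 1) * cmp (bw 3 3) (p', q) c - g =
            (xx 0 ^ k * G - g) - xx 0 ^ k * cmp (bw 3 3) ((1, 0) + (p', q)) i := by
          conv_rhs => rw [h1]
          ring
        rw [this]
        exact sub_mem hGk (Ideal.mul_mem_left _ _ (isHom_If i hi _))
      omega
  have hGQ : G ∈ Q := by
    have : xx 0 ^ k * G ∈ Q := by
      have : xx 0 ^ k * G = (xx 0 ^ k * G - g) + g := by ring
      rw [this]
      exact add_mem (hle hGk) hgQ
    exact (hQ.mem_or_mem this).resolve_left fun h => hx (hQ.mem_of_pow_mem _ h)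
  exact ⟨G, p, q, hGm, hGQ, hGI, prime_of hgp hgf hgx hGk hG⟩

end Pool.Agent.MP_f1b239_ag
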