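import Pool.Agent.MP_f1b239_ag.Tors

set_option autoImplicit false

namespace Pool.Agent.MP_f1b239_ag

open MvPolynomial Module

lemma exists_special {a : ℕ} (ha : 3 ≤ a) :
    ∃ (b : ℕ) (G : T), G ∈ GT a b ∧ G ∉ I3 ∧ G ∈ AB (3 * a - 1) := by
  by_contra hcon
  push Not at hcon
  have key : ∀ b : ℕ, 1 ≤ b → Phi3 a b ≤ hh ((3 * a - 1 : ℕ) : ℝ) b := by
    intro b hb
    rw [← HT_I3 ha hb]
    refine le_trans ?_ (HT_AB_le _ a hb)
    have h1 := HF_add_part (bw_ne_zero 3 3) I3 (a, b)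
    have h2 := HF_add_part (bw_ne_zero 3 3) (AB (3 * a - 1)) (a, b)
    have := finite_part (bw_ne_zero 3 3) I3 (a, b)
    have h3 : finrank ℂ (part (bw 3 3) (AB (3 * a - 1)) (a, b)) ≤
        finrank ℂ (part (bw 3 3) I3 (a, b)) := by
      apply Submodule.finrank_mono
      intro u hu
      refine ⟨hu.1, ?_⟩
      by_contra h
      exact hcon b u hu.1 h hu.2
    have h4 : HT I3 a b ≤ HT (AB (3 * a - 1)) a b := by simp only [HT]; omega
    exact_mod_cast h4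
  rw [Nat.cast_sub (by omega)] at key
  have := lead_nonneg (A := -1 / 2)
    (B := (3 * (a : ℝ) - 1) ^ 2 / 2 + (3 * a - 1) - (a ^ 2 / 2 + 3 * a + 1))
    (C := (3 * (a : ℝ) - 1) * (3 * a) / 2 - (a ^ 2 / 2 + 3 * a / 2 + 1)) (N := 1) fun n hn => by
      have := key n hn
      unfold Phi3 hh at this
      push_cast at this
      nlinarith
  norm_num at this

lemma AB_mul {i k : ℕ} {u z : T} (hu : u ∈ AB i) (hz : z ∈ AB k) : u * z ∈ AB (i + k) := by
  obtain ⟨c, hc⟩ := LC.exists hu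
  obtain ⟨e, he⟩ := LC.exists hz
  exact (hc.mul he).mem

lemma mem_of_hom {I J : Ideal T} (hI : Hom I) (h : ∀ s t, ∀ u ∈ GT s t, u ∈ I → u ∈ J) :
    I ≤ J := by
  by_contra hne
  obtain ⟨⟨s, t⟩, u, hu, h1, h2⟩ := exists_hom_notMem hI hne
  exact h2 (h s t u hu h1)

section Sec

variable {G : T} {a b j : ℕ} {g : YY}

lemma cancel_x1 (hG : G ∈ GT a b) (hW : G ∉ WW) (hg : LC j G g) (hg0 : g ≠ 0) {s t : ℕ} {u : T}
    (hu : u ∈ GT s t) (hj : u ∈ AB j) (h : xx 1 * u ∈ I3 ⊔ Ideal.span {G}) :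
    u ∈ I3 ⊔ Ideal.span {G} := by
  rcases hom_div hom_I3 hG (GT_mul (xx_mem 1) hu) h with h1 | ⟨s', t', c, -, -, hc, h1⟩
  · exact Ideal.mem_sup_left ((I3_prime.mem_or_mem h1).resolve_left (xx_notMem 1))
  have hW' : I3 ≤ WW := (Ideal.span_singleton_le_iff_mem _).2 f3_mem_WW
  have h2 : G * c ∈ WW := by
    simpa using sub_mem (Ideal.mem_sup_left (Ideal.mul_mem_right u _ x1_mem) : _ ∈ WW) (hW' h1)
  have h3 := (WW_prime.mem_or_mem h2).resolve_left hW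
  have h4 : xx 1 * u ∈ AB (1 + j) := AB_mul (by simpa using (LC_x1 1).mem) hj
  have h5 : G * c ∈ AB (j + 1) := by
    rw [add_comm]
    simpa using sub_mem h4 (I3_le_AB _ h1)
  have h6 := AB_cancel hg hg0 hc 1 h5
  rw [AB_one] at h6
  obtain ⟨i, hi, z, hz, rfl⟩ := Submodule.mem_sup.1 (mem_of_mem_pp_WW h6 h3)
  obtain ⟨e, rfl⟩ := Ideal.mem_span_singleton'.1 hz
  have h7 : xx 1 * (u - e * G) ∈ I3 := by
    have : xx 1 * (u - e * G) = (xx 1 * u - G * (i + e * xx 1)) + G * i := by ring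
    rw [this]
    exact add_mem h1 (Ideal.mul_mem_left _ _ hi)
  have h8 := (I3_prime.mem_or_mem h7).resolve_left (xx_notMem 1)
  simpa using add_mem (Ideal.mem_sup_left h8 : _ ∈ I3 ⊔ Ideal.span {G})
    (Ideal.mem_sup_right (Ideal.mul_mem_left _ e (Ideal.mem_span_singleton_self G)))

lemma sat_inf_AB (hG : G ∈ GT a b) (hW : G ∉ WW) (hg : LC j G g) (hg0 : g ≠ 0) :
    sat (I3 ⊔ Ideal.span {G}) (xx 1) ⊓ AB j = I3 ⊔ Ideal.span {G} := by
  apply le_antisymm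
  · refine mem_of_hom ((hom_sat (hom_I3.sup_span hG) (xx_mem 1)).inf (hom_AB j)) ?_
    rintro s t u hu ⟨⟨N, hN⟩, h2⟩
    induction N with
    | zero => simpa using hN
    | succ N ih =>
      apply ih
      rw [pow_succ', mul_assoc] at hN
      exact cancel_x1 hG hW hg hg0 (GT_mul (GT_pow (xx_mem 1) N) hu)
        (Ideal.mul_mem_left _ _ h2) hN
  · exact le_inf (le_sat _ _)
      (sup_le (I3_le_AB j) ((Ideal.span_singleton_le_iff_mem _).2 hg.mem))

lemma dvd_of_mem_J (hG : G ∈ GT a b) (hg : LC j G g) (hg0 : g ≠ 0) {s t i : ℕ} {u : T} {c : YY}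
    (hu : u ∈ GT s t) (hc : LC (j + i) u c) (h : u ∈ I3 ⊔ Ideal.span {G}) : g ∣ c := by
  rcases hom_div hom_I3 hG hu h with h1 | ⟨s', t', e, -, -, he, h1⟩
  · rw [hc.unique (LC.zero_of_mem (I3_le_AB _ h1))]
    exact dvd_zero _
  have h2 : G * e ∈ AB (j + i) := by simpa using sub_mem hc.mem (I3_le_AB _ h1)
  obtain ⟨c', hc'⟩ := LC.exists (AB_cancel hg hg0 he i h2)
  exact ⟨c', hc.unique ((hg.mul hc').congr h1)⟩

lemma dvd_of_mem_P (hG : G ∈ GT a b) (hW : G ∉ WW) (hg : LC j G g) (hg0 : g ≠ 0) {s t i : ℕ}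
    {u : T} {c : YY} (hu : u ∈ GT s t) (hc : LC i u c)
    (h : u ∈ sat (I3 ⊔ Ideal.span {G}) (xx 1)) : g ∣ c := by
  have k : ∀ {z : T} {e : YY} {p q : ℕ}, z ∈ GT p q → LC j z e → g ∣ e * c := by
    intro z e p q hz he
    refine dvd_of_mem_J hG hg hg0 (GT_mul hz hu) (he.mul hc) ?_
    rw [← sat_inf_AB hG hW hg hg0]
    exact ⟨Ideal.mul_mem_left _ _ h, Ideal.mul_mem_right _ _ he.mem⟩
  obtain ⟨e₁, h1⟩ := k (GT_pow (xx_mem 1) j) (LC_x1 j)
  obtain ⟨e₂, h2⟩ := k (GT_pow (xx_mem 2) j) (LC_x2 j)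
  have h3 : (- yy 1) ^ j * e₁ = yy 2 ^ j * e₂ := by
    apply mul_left_cancel₀ hg0
    linear_combination yy 2 ^ j * h2 - (- yy 1) ^ j * h1
  have h4 : yy 2 ^ j ∣ e₁ := by
    refine (X_prime (i := Sum.inr 2)).pow_dvd_of_dvd_mul_left j (fun h5 => ?_) ⟨e₂, h3⟩
    have h6 := map_dvd (eval (fun k => if k = Sum.inr 2 then (0 : ℂ) else 1))
      ((X_prime (i := Sum.inr 2)).dvd_of_dvd_pow h5)
    simp at h6
  obtain ⟨e, rfl⟩ := h4
  refine ⟨e, mul_left_cancel₀ (pow_ne_zero j (X_ne_zero (Sum.inr 2))) ?_⟩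
  rw [h1]; ring

end Sec

noncomputable def lc (i : ℕ) : (AB i).restrictScalars ℂ →ₗ[ℂ] YY where
  toFun u := Classical.choose (LC.exists u.2)
  map_add' u z := (Classical.choose_spec (LC.exists (u + z).2)).unique
    ((Classical.choose_spec (LC.exists u.2)).add (Classical.choose_spec (LC.exists z.2)))
  map_smul' r u := (Classical.choose_spec (LC.exists (r • u).2)).unique
    ((Classical.choose_spec (LC.exists u.2)).smul r)

lemma lc_spec (i : ℕ) (u : (AB i).restrictScalars ℂ) : LC i u.1 (lc i u) :=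
  Classical.choose_spec (LC.exists u.2)

lemma dim_step {P : Ideal T} {g : YY} {D : ℕ} (hgD : g ∈ Gr (bw 0 3) (0, D))
    (hP : ∀ (s t i : ℕ) (u : T) (c : YY), u ∈ GT s t → LC i u c → u ∈ P → g ∣ c) (s τ i : ℕ) :
    finrank ℂ (part (bw 3 3) (P ⊓ AB i) (s, D + τ)) ≤
      finrank ℂ (part (bw 3 3) (P ⊓ AB (i + 1)) (s, D + τ)) + Nat.multichoose 3 (τ + i) := by
  set U := part (bw 3 3) (P ⊓ AB i) (s, D + τ) with hU
  have hle : U ≤ (AB i).restrictScalars ℂ := fun u hu => hu.2.2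
  have := finite_part (bw_ne_zero 3 3) (P ⊓ AB i) (s, D + τ)
  have := finite_part (bw_ne_zero 3 3) (P ⊓ AB (i + 1)) (s, D + τ)
  have := finite_Gr (bw_ne_zero 0 3) (0, τ + i)
  let L : U →ₗ[ℂ] YY := lc i ∘ₗ Submodule.inclusion hle
  have hL : ∀ u : U, LC i u.1 (L u) := fun u => lc_spec i (Submodule.inclusion hle u)
  have h1 := L.finrank_range_add_finrank_ker
  have h2 : finrank ℂ (LinearMap.ker L) ≤
      finrank ℂ (part (bw 3 3) (P ⊓ AB (i + 1)) (s, D + τ)) := by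
    rw [← Submodule.finrank_map_subtype_eq]
    apply Submodule.finrank_mono
    rintro _ ⟨u, hu, rfl⟩
    have h3 := hL u
    rw [LinearMap.mem_ker.1 hu] at h3
    exact ⟨u.2.1, u.2.2.1, h3.mem_succ u.2.1⟩
  have h3 : finrank ℂ (LinearMap.range L) ≤ Nat.multichoose 3 (τ + i) := by
    have h4 := finrank_Gr_bw 0 3 0 (τ + i)
    rw [Nat.multichoose_zero_right, one_mul] at h4
    rw [← h4]
    refine le_trans (Submodule.finrank_mono ?_)
      (Submodule.finrank_map_le (LinearMap.mulLeft ℂ g) (Gr (bw 0 3) (0, τ + i)))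
    rintro _ ⟨u, rfl⟩
    obtain ⟨e, he⟩ := hP _ _ _ _ _ u.2.1 (hL u) u.2.2.1
    have h5 := (hL u).deg u.2.1
    refine ⟨cmp (bw 0 3) (0, τ + i) e, cmp_mem _ _, ?_⟩
    rw [LinearMap.mulLeft_apply, ← cmp_mul_add hgD, ← he, Prod.mk_add_mk, ← add_assoc,
      cmp_self h5]
  omega

noncomputable def ss (n τ : ℝ) : ℝ :=
  n * τ ^ 2 / 2 + (n ^ 2 / 2 + n) * τ + n * (n + 1) * (n + 2) / 6

lemma HT_inf_le {P : Ideal T} {g : YY} {D : ℕ} (hgD : g ∈ Gr (bw 0 3) (0, D))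
    (hP : ∀ (s t i : ℕ) (u : T) (c : YY), u ∈ GT s t → LC i u c → u ∈ P → g ∣ c) (s τ n : ℕ) :
    (HT (P ⊓ AB n) s (D + τ) : ℝ) ≤ HT P s (D + τ) + ss n τ := by
  induction n with
  | zero =>
    rw [inf_eq_left.2 (fun u _ => mem_AB_zero u)]
    simp [ss]
  | succ n ih =>
    have h1 := dim_step hgD hP s τ n
    have h2 := HF_add_part (bw_ne_zero 3 3) (P ⊓ AB n) (s, D + τ)
    have h3 := HF_add_part (bw_ne_zero 3 3) (P ⊓ AB (n + 1)) (s, D + τ)
    have h4 : HT (P ⊓ AB (n + 1)) s (D + τ) ≤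
        HT (P ⊓ AB n) s (D + τ) + Nat.multichoose 3 (τ + n) := by
      simp only [HT]; omega
    have h5 : (HT (P ⊓ AB (n + 1)) s (D + τ) : ℝ) ≤
        HT (P ⊓ AB n) s (D + τ) + Nat.multichoose 3 (τ + n) := by exact_mod_cast h4
    rw [mc3] at h5
    unfold ss at ih ⊢
    push_cast at h5 ⊢
    nlinarith

lemma inter_ineq {P : Ideal T} (hp : P.IsPrime) (hh' : Hom P) {v : Fin 3 → ℝ} (hv : Deg (HT P) v)
    {g : YY} {D : ℕ} (hgD : g ∈ Gr (bw 0 3) (0, D))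
    (hP : ∀ (s t i : ℕ) (u : T) (c : YY), u ∈ GT s t → LC i u c → u ∈ P → g ∣ c)
    {G' : T} {a' b' n : ℕ} (hG' : G' ∈ GT a' b') (hn : G' ∈ AB n) (hne : G' ∉ P) :
    (n : ℝ) * D ≤ v 1 * a' + v 2 * b' := by
  obtain ⟨c₁, c₂, c₀, N, hv⟩ := hv
  set s := N + a' + n + 4 with hs
  have := lead_nonneg' (B := v 1 * a' + v 2 * b' - n * D)
    (C := v 0 * (s * a' - (a' : ℝ) ^ 2 / 2) + v 1 * (s * b' + a' * D - a' * b') +
      v 2 * (D * b' - (b' : ℝ) ^ 2 / 2) + c₁ * a' + c₂ * b' - (hh n D - ss n 0))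
    (N := N + b' + 1) fun τ hτ => by
      have h1 := HT_inf_le hgD hP s τ n
      have h2 := HF_inf_sup (bw_ne_zero 3 3) hh' (hom_AB n) (s, D + τ)
      have h3 := HT_AB n (a := s) (b := D + τ) (by omega) (by omega)
      have h4 : HT (P ⊔ AB n) s (D + τ) ≤ HT (P ⊔ Ideal.span {G'}) s (D + τ) :=
        HT_mono (sup_le_sup_left ((Ideal.span_singleton_le_iff_mem _).2 hn) _) _ _
      have h5 := HF_step hp hh' hG' hne (a := s) (b := D + τ) (by omega) (by omega)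
      have h6 := hv s (D + τ) (by omega) (by omega)
      have h7 := hv (s - a') (D + τ - b') (by omega) (by omega)
      rw [Nat.cast_sub (by omega), Nat.cast_sub (by omega)] at h7
      have h2' := congrArg (Nat.cast : ℕ → ℝ) h2
      have h4' : (HT (P ⊔ AB n) s (D + τ) : ℝ) ≤ HT (P ⊔ Ideal.span {G'}) s (D + τ) := by
        exact_mod_cast h4
      simp only [HT] at h1 h3 h4' h6 h7
      unfold hh ss at *
      push_cast at h1 h2' h3 h5 h6 h7
      nlinarith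
  linarith

lemma span_W {z : Fin 3 → ℝ} {𝒢 : Ideal T → Prop}
    (h : ∀ v ∈ cls 𝒢, v = ![0, 1, 2] ∨ v = 0) (hz : z ∈ Submodule.span NNReal (cls 𝒢)) :
    z 0 = 0 ∧ 0 ≤ z 1 ∧ z 2 = 2 * z 1 := by
  induction hz using Submodule.span_induction with
  | mem x hx => rcases h x hx with rfl | rfl <;> simp
  | zero => simp
  | add x y _ _ hx hy =>
    simp only [Pi.add_apply]
    exact ⟨by linarith [hx.1, hy.1], by linarith [hx.2.1, hy.2.1], by linarith [hx.2.2, hy.2.2]⟩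
  | smul c x _ hx =>
    have hc : (0 : ℝ) ≤ c := c.2
    simp only [Pi.smul_apply, NNReal.smul_def, smul_eq_mul]
    exact ⟨by rw [hx.1, mul_zero], mul_nonneg hc hx.2.1, by rw [hx.2.2]; ring⟩

theorem key_ineq {a' : ℕ} (ha : 3 ≤ a') : ∃ C : ℝ, 8 * a' ≤ C ∧ ∀ v ∈ cls fun Q => f3 ∈ Q,
    (8 * a' - 3) * (v 1 - 3 * v 0) ≤ v 0 + C * v 2 := by
  obtain ⟨b', G', hG', hI', hn'⟩ := exists_special ha
  have ha' : (3 : ℝ) ≤ a' := by exact_mod_cast ha
  have hb' : (0 : ℝ) ≤ b' := Nat.cast_nonneg _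
  refine ⟨8 * a' * (7 * b' + 5 * a'), by nlinarith, ?_⟩
  rintro v ⟨Q, hQ, hh', hf, hv⟩
  set C : ℝ := 8 * a' * (7 * b' + 5 * a') with hC
  have hC1 : 8 * a' ≤ C := by nlinarith
  have hle : I3 ≤ Q := (Ideal.span_singleton_le_iff_mem _).2 hf
  by_cases hne : Q ≤ I3
  · obtain rfl : Q = I3 := le_antisymm hne hle
    exact absurd hv (not_deg_I3 v)
  by_cases hx : xx 1 ∈ Q
  · rcases pp_or_WW hQ hf hx with h | h
    · rcases deg_eq_or_zero pp_prime hom_pp deg_pp hh' h hv with rfl | rfl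
      · simp; linarith
      · simp
    · rcases deg_eq_or_zero WW_prime hom_WW deg_WW hh' h hv with rfl | rfl
      · simp; linarith
      · simp
  obtain ⟨G, a, b, hG, hGX, hP, hPQ⟩ := exists_section3 hQ hh' hf hne hx
  have hGI : G ∉ I3 := fun h => hGX (Ideal.mem_sup_left h)
  have dJ := deg_sec3 hG hGI
  have hJ : Hom (I3 ⊔ Ideal.span {G}) := hom_I3.sup_span hG
  have hhP := hom_sat hJ (xx_mem 1)
  obtain ⟨w, dP, -⟩ := exists_deg dJ _ (le_sat _ (xx 1)) hhP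
  rcases deg_eq_or_zero hP hhP dP hh' hPQ hv with rfl | rfl
  swap
  · simp
  have hv0 := dP.nonneg0
  have hv2 := dP.nonneg2
  by_cases hpp : G ∈ pp
  swap
  · have h1 := subquot (𝒢 := fun Q => xx 1 ∈ Q ∧ f3 ∈ Q ∧ G ∈ Q) hhP dP dJ (by
      rintro u ⟨N, hN⟩ Q' hQ' hle'
      refine ⟨hQ'.mem_of_pow_mem N (hle' (mem_col.2 (by rwa [mul_comm]))), hle' (le_col _ _ ?_),
        hle' (le_col _ _ ?_)⟩
      · exact Ideal.mem_sup_left f3_mem_I3
      · exact Ideal.mem_sup_right (Ideal.mem_span_singleton_self G)) _ le_rfl (le_sat _ _) hJ _ dJ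
    obtain ⟨k0, k1, k2⟩ := span_W (by
      rintro z ⟨Q', hQ', hh'', ⟨q1, q2, q3⟩, dz⟩
      rcases pp_or_WW hQ' q2 q1 with h | h
      · exact Or.inr (deg_zero_of_gt pp_prime hom_pp deg_pp hh'' h (fun h' => hpp (h' q3)) dz)
      · exact deg_eq_or_zero WW_prime hom_WW deg_WW hh'' h dz) h1
    simp only [Pi.sub_apply, Matrix.cons_val_zero, Matrix.cons_val_one, Matrix.cons_val]
      at k0 k1 k2
    have : (0 : ℝ) ≤ a := Nat.cast_nonneg _
    have h2 : v 1 - 3 * v 0 ≤ v 2 := by linarith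
    nlinarith
  have hW : G ∉ WW := fun h => hGX (mem_of_mem_pp_WW hpp h)
  have hex : ∃ j, G ∉ AB (j + 1) :=
    ⟨3 * a, fun h => by have := (tors a _ b G hG hGI h).1; omega⟩
  classical
  set j := Nat.find hex with hj
  have hj1 : G ∉ AB (j + 1) := Nat.find_spec hex
  have hj2 : G ∈ AB j := by
    rcases hj0 : j with _ | i
    · exact mem_AB_zero G
    · by_contra h
      have := Nat.find_min' hex h
      omega
  obtain ⟨g, hg⟩ := LC.exists hj2
  have hg0 : g ≠ 0 := fun h => hj1 (LC.mem_succ hG (h ▸ hg))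
  obtain ⟨t1, t2⟩ := tors a j b G hG hGI hj2
  set P := sat (I3 ⊔ Ideal.span {G}) (xx 1) with hPdef
  have hx1 : xx 1 ∉ P := fun h => hx (hPQ h)
  obtain ⟨z, dz, -⟩ := exists_deg dP (P ⊔ AB j) le_sup_left (hhP.sup (hom_AB j))
  have hz : z = 0 := deg_zero_of_gt hP hhP dP (hhP.sup (hom_AB j)) le_sup_left
    (fun h => hx1 (hP.mem_of_pow_mem j (h (Ideal.mem_sup_right (LC_x1 j).mem)))) dz
  subst hz
  have e1 : Deg (fun s t => HT (I3 ⊔ Ideal.span {G}) s t + HT (P ⊔ AB j) s t) _ :=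
    Deg.add_shift (p := 0) (q := 0) dJ dz (fun s t => by simp)
  have e2 : Deg (fun s t => HT (I3 ⊔ Ideal.span {G}) s t + HT (P ⊔ AB j) s t) _ :=
    Deg.add_shift (p := 0) (q := 0) dP (deg_AB j) (fun s t => by
      have := HF_inf_sup (bw_ne_zero 3 3) hhP (hom_AB j) (s, t)
      rw [hPdef, sat_inf_AB hG hW hg hg0] at this
      simpa using this.symm)
  have e3 := e1.unique e2
  have f0 := congrFun e3 0
  have f1 := congrFun e3 1
  have f2 := congrFun e3 2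
  simp only [Pi.add_apply, Pi.zero_apply, Matrix.cons_val_zero, Matrix.cons_val_one,
    Matrix.cons_val, add_zero] at f0 f1 f2
  rcases Nat.eq_zero_or_pos a with h0 | h0
  · subst h0
    have : v 1 - 3 * v 0 = 0 := by simp at f1; linarith
    rw [this, mul_zero]
    positivity
  have hγ : 1 ≤ v 2 := by
    have : (j : ℝ) + 1 ≤ 3 * a := by exact_mod_cast t2 h0
    linarith
  have hw : v 1 - 3 * v 0 = a := by linarith
  by_cases hGP : G' ∈ P
  · have h1 := dP.le_of_le (deg_sec3 hG' hI') (HT_mono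
      (sup_le (le_sup_left.trans (le_sat _ _)) ((Ideal.span_singleton_le_iff_mem _).2 hGP)))
    simp only [Matrix.cons_val_zero, Matrix.cons_val_one, Matrix.cons_val] at h1
    have h2 : (a : ℝ) ≤ 7 * b' + 5 * a' := by
      have : (0 : ℝ) ≤ a := Nat.cast_nonneg _
      linarith
    have h3 : (0 : ℝ) ≤ a := Nat.cast_nonneg _
    have h4 : (8 * a' - 3) * (a : ℝ) ≤ C := by nlinarith
    rw [hw]
    nlinarith
  · have h1 := inter_ineq hP hhP dP (hg.deg hG)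
      (fun s t i u c hu hc h => dvd_of_mem_P hG hW hg hg0 hu hc h) hG' hn' hGP
    rw [Nat.cast_sub (by omega)] at h1
    push_cast at h1
    have h2 : (b' : ℝ) + 3 * a' ≤ C := by nlinarith
    rw [hw]
    have g0 : v 0 = b := f0.symm
    have g1 : v 1 = a + 3 * b := f1.symm
    have g2 : (j : ℝ) = 3 * a - v 2 := by linarith
    rw [g1, g2] at h1
    rw [g0]
    nlinarith

theorem exists_elt {a' : ℕ} (ha : 3 ≤ a') : ∃ b' : ℝ,
    ![b', a' + 3 * b', 1] ∈ Submodule.span NNReal (cls fun Q => f3 ∈ Q) := by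
  obtain ⟨b', G', hG', hI', hn'⟩ := exists_special ha
  have dJ := deg_sec3 hG' hI'
  have h1 := subquot (𝒢 := fun Q => f3 ∈ Q) (hom_AB _) (deg_AB (3 * a' - 1)) dJ
    (fun u _ Q _ hle => hle (le_col _ _ (Ideal.mem_sup_left f3_mem_I3))) _ le_rfl
    (sup_le (I3_le_AB _) ((Ideal.span_singleton_le_iff_mem _).2 hn')) (hom_I3.sup_span hG') _ dJ
  refine ⟨b', ?_⟩
  convert h1 using 1
  rw [Nat.cast_sub (by omega)]
  funext i
  fin_cases i <;> simp

end Pool.Agent.MP_f1b239_ag
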