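import Pool.Agent.MP_f1b239_ag.Filt

set_option autoImplicit false

namespace Pool.Agent.MP_f1b239_ag

open MvPolynomial Module

abbrev YY : Type := MvPolynomial (Fin 0 ⊕ Fin 3) ℂ

noncomputable abbrev yy (j : Fin 3) : YY := X (Sum.inr j)

noncomputable def sub : T →ₐ[ℂ] YY := aeval (Sum.elim ![1, yy 2, - yy 1] yy)

noncomputable def inc : YY →ₐ[ℂ] T := aeval (Sum.elim Fin.elim0 ll)

lemma sub_x0 : sub (xx 0) = 1 := by simp [sub]
lemma sub_ell : sub ell = 0 := by simp [sub, ell]; ring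

def LC (i : ℕ) (u : T) (c : YY) : Prop :=
  ∃ (N : ℕ) (u' : T), xx 0 ^ N * u - u' ∈ I3 ∧ u' ∈ VV i ∧ c = sub (cm2 i u')

lemma cm2_x0_mul (N i : ℕ) {u : T} (hu : u ∈ VV i) : cm2 i (xx 0 ^ N * u) = xx 0 ^ N * cm2 i u := by
  have h : IsWeightedHomogeneous nu2 (xx 0 ^ N) 0 := by simpa using x0_nu.pow N
  have := cm2_mul (hom_mem_VV h) hu
  have h2 : cm2 0 (xx 0 ^ N) = xx 0 ^ N := weightedHomogeneousComponent_eq_self h
  rwa [zero_add, h2] at this

lemma LC.exists {i : ℕ} {u : T} (hu : u ∈ AB i) : ∃ c, LC i u c := by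
  obtain ⟨N, hN⟩ := hu
  obtain ⟨v, hv, e, he, hve⟩ := Submodule.mem_sup.1 hN
  exact ⟨_, N, v, by rw [← hve]; simpa using he, hv, rfl⟩

lemma LC.mem {i : ℕ} {u : T} {c : YY} (h : LC i u c) : u ∈ AB i := by
  obtain ⟨N, u', h1, h2, -⟩ := h
  refine ⟨N, ?_⟩
  simpa using add_mem (Ideal.mem_sup_right h1 : _ ∈ AA i) (Ideal.mem_sup_left h2)

lemma sub_cm2_I3 {i : ℕ} {u : T} (h1 : u ∈ I3) (h2 : u ∈ VV i) : sub (cm2 i u) = 0 := by
  obtain ⟨e, rfl⟩ := Ideal.mem_span_singleton'.1 h1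
  rcases i with _ | i
  · rw [mem_VV'.1 (Ideal.mul_mem_left _ e f3_mem_VV) 0 (by omega), map_zero]
  · rw [mul_comm, ← mem_col, col_VV_f3] at h2
    rw [mul_comm, add_comm, cm2_mul f3_mem_VV h2, cm2_f3, map_mul, map_mul, sub_ell]
    simp

lemma LC.unique {i : ℕ} {u : T} {c c' : YY} (h : LC i u c) (h' : LC i u c') : c = c' := by
  obtain ⟨N, v, h1, h2, rfl⟩ := h
  obtain ⟨M, w, k1, k2, rfl⟩ := h'
  have h3 : xx 0 ^ M * v - xx 0 ^ N * w ∈ I3 := by
    have : xx 0 ^ M * v - xx 0 ^ N * w =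
        xx 0 ^ N * (xx 0 ^ M * u - w) - xx 0 ^ M * (xx 0 ^ N * u - v) := by ring
    rw [this]
    exact sub_mem (Ideal.mul_mem_left _ _ k1) (Ideal.mul_mem_left _ _ h1)
  have h4 := sub_cm2_I3 h3 (sub_mem (Ideal.mul_mem_left _ _ h2) (Ideal.mul_mem_left _ _ k2))
  rw [cm2, map_sub, map_sub, sub_eq_zero] at h4
  have h5 := cm2_x0_mul M i h2
  have h6 := cm2_x0_mul N i k2
  rw [cm2] at h5 h6
  rw [h5, h6] at h4
  simpa [sub_x0] using h4

lemma LC.of_VV {i : ℕ} {u : T} (h : u ∈ VV i) : LC i u (sub (cm2 i u)) :=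
  ⟨0, u, by simp, h, rfl⟩

lemma LC.of_hom {i : ℕ} {u : T} (h : IsWeightedHomogeneous nu2 u i) : LC i u (sub u) := by
  have := LC.of_VV (hom_mem_VV h)
  rwa [cm2, weightedHomogeneousComponent_eq_self h] at this

lemma LC.mul {i k : ℕ} {u z : T} {c e : YY} (h : LC i u c) (h' : LC k z e) :
    LC (i + k) (u * z) (c * e) := by
  obtain ⟨N, v, h1, h2, rfl⟩ := h
  obtain ⟨M, w, k1, k2, rfl⟩ := h'
  refine ⟨N + M, v * w, ?_, VV_mul h2 k2, by rw [cm2_mul h2 k2, map_mul]⟩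
  have : xx 0 ^ (N + M) * (u * z) - v * w =
      xx 0 ^ M * z * (xx 0 ^ N * u - v) + v * (xx 0 ^ M * z - w) := by ring
  rw [this]
  exact add_mem (Ideal.mul_mem_left _ _ h1) (Ideal.mul_mem_left _ _ k1)

lemma LC.add {i : ℕ} {u z : T} {c e : YY} (h : LC i u c) (h' : LC i z e) :
    LC i (u + z) (c + e) := by
  obtain ⟨N, v, h1, h2, rfl⟩ := h
  obtain ⟨M, w, k1, k2, rfl⟩ := h'
  refine ⟨N + M, xx 0 ^ M * v + xx 0 ^ N * w, ?_,
    add_mem (Ideal.mul_mem_left _ _ h2) (Ideal.mul_mem_left _ _ k2), ?_⟩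
  · have : xx 0 ^ (N + M) * (u + z) - (xx 0 ^ M * v + xx 0 ^ N * w) =
        xx 0 ^ M * (xx 0 ^ N * u - v) + xx 0 ^ N * (xx 0 ^ M * z - w) := by ring
    rw [this]
    exact add_mem (Ideal.mul_mem_left _ _ h1) (Ideal.mul_mem_left _ _ k1)
  · have h5 := cm2_x0_mul M i h2
    have h6 := cm2_x0_mul N i k2
    rw [cm2] at h5 h6
    simp only [cm2]
    rw [map_add, h5, h6]
    simp [sub_x0]

lemma LC.smul {i : ℕ} {u : T} {c : YY} (r : ℂ) (h : LC i u c) : LC i (r • u) (r • c) := by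
  have h0 : LC 0 (C r : T) (C r) := by
    have := LC.of_hom (isWeightedHomogeneous_C nu2 r)
    rwa [show sub (C r) = C r from sub.commutes r] at this
  have := h0.mul h
  rwa [zero_add, ← smul_eq_C_mul, ← smul_eq_C_mul] at this

lemma LC.congr {i : ℕ} {u z : T} {c : YY} (h : LC i u c) (hz : z - u ∈ I3) : LC i z c := by
  obtain ⟨N, v, h1, h2, rfl⟩ := h
  refine ⟨N, v, ?_, h2, rfl⟩
  have : xx 0 ^ N * z - v = xx 0 ^ N * (z - u) + (xx 0 ^ N * u - v) := by ring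
  rw [this]
  exact add_mem (Ideal.mul_mem_left _ _ hz) h1

lemma LC.zero_of_mem {i : ℕ} {u : T} (h : u ∈ AB (i + 1)) : LC i u 0 := by
  obtain ⟨c, N, v, h1, h2, -⟩ := LC.exists h
  exact ⟨N, v, h1, VV_anti (by omega) h2, by rw [mem_VV'.1 h2 i (by omega), map_zero]⟩

lemma LC.hom_rep {i s t : ℕ} {u : T} {c : YY} (hu : u ∈ GT s t) (h : LC i u c) :
    ∃ (N : ℕ) (u' : T), u' ∈ GT (N + s) t ∧ xx 0 ^ N * u - u' ∈ I3 ∧ u' ∈ VV i ∧
      c = sub (cm2 i u') := by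
  obtain ⟨N, v, h1, h2, h3⟩ := id h
  have hm : xx 0 ^ N * u ∈ GT (N + s) t := by simpa using GT_mul (GT_pow (xx_mem 0) N) hu
  have k1 := hom_I3 _ h1 (N + s, t)
  rw [cmp_sub, cmp_self hm] at k1
  have k2 := hom_VV i _ h2 (N + s, t)
  exact ⟨N, _, cmp_mem _ _, k1, k2, h.unique ⟨N, _, k1, k2, rfl⟩⟩

lemma support_cm2 {i s t : ℕ} {u : T} (hu : u ∈ GT s t) {d : Fin 3 ⊕ Fin 3 →₀ ℕ}
    (hd : coeff d (cm2 i u) ≠ 0) : d (Sum.inl 1) + d (Sum.inl 2) = i ∧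
      d (Sum.inl 0) + i = s ∧ d (Sum.inr 0) + d (Sum.inr 1) + d (Sum.inr 2) = t := by
  rw [coeff_weightedHomogeneousComponent] at hd
  split_ifs at hd with h
  · have h1 : Finsupp.weight (bw 3 3) d = (s, t) := hu hd
    rw [weight_bw, Prod.mk.injEq, Fin.sum_univ_three, Fin.sum_univ_three] at h1
    rw [weight_nu2] at h
    omega
  · exact absurd rfl hd

def w3 : Fin 3 ⊕ Fin 3 → ℕ × ℕ := Sum.elim ![(0, 0), (0, 1), (0, 1)] fun _ => (0, 1)

lemma LC.deg {i s t : ℕ} {u : T} {c : YY} (hu : u ∈ GT s t) (h : LC i u c) :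
    c ∈ Gr (bw 0 3) (0, t + i) := by
  obtain ⟨N, v, hv, -, -, rfl⟩ := h.hom_rep hu
  have hy : ∀ j, yy j ∈ Gr (bw 0 3) (0, 1) := fun j => X_inr_mem j
  refine map_mem_Gr (w := w3) (bw 0 3) (AddMonoidHom.id _) sub ?_ ?_
  · rintro (k | k)
    · fin_cases k
      · have : IsWeightedHomogeneous (bw 0 3) (1 : YY) (0, 0) :=
          isWeightedHomogeneous_one ℂ (bw 0 3)
        simpa [sub, w3] using this
      · simpa [sub, w3] using hy 2
      · simpa [sub, w3, -mem_weightedHomogeneousSubmodule] using hy 1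
    · simpa [sub, w3] using hy k
  · intro d hd
    obtain ⟨h1, -, h3⟩ := support_cm2 hv hd
    rw [Finsupp.weight_apply, Finsupp.sum_fintype _ _ (by simp), Fintype.sum_sum_type]
    ext
    · simp [w3, Fin.sum_univ_three]
    · simp [w3, Fin.sum_univ_three]
      omega

def nu0 : Fin 3 ⊕ Fin 3 → ℕ := Sum.elim ![1, 0, 0] fun _ => 0

lemma congr_of_X {σ B : Type} [CommRing B] [Algebra ℂ B] {I : Ideal B}
    (φ ψ : MvPolynomial σ ℂ →ₐ[ℂ] B) (h : ∀ i, φ (X i) - ψ (X i) ∈ I) (p : MvPolynomial σ ℂ) :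
    φ p - ψ p ∈ I := by
  have : (Ideal.Quotient.mkₐ ℂ I).comp φ = (Ideal.Quotient.mkₐ ℂ I).comp ψ := by
    apply MvPolynomial.algHom_ext
    intro i
    simpa [Ideal.Quotient.eq] using h i
  have h2 := DFunLike.congr_fun this p
  simpa [Ideal.Quotient.eq] using h2

lemma ell_dvd {i e : ℕ} {u : T} (h2 : IsWeightedHomogeneous nu2 u i)
    (h0 : IsWeightedHomogeneous nu0 u e) (h : sub u = 0) : ell ∣ u := by
  let s' : T →ₐ[ℂ] T := aeval (Sum.elim ![xx 0, ll 2, - ll 1] ll)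
  let φ₁ : T →ₐ[ℂ] T := aeval (Sum.elim ![xx 0, ll 2 * xx 1, ll 2 * xx 2] ll)
  let φ₂ : T →ₐ[ℂ] T := aeval (Sum.elim ![xx 0, xx 1 * ll 2, xx 1 * - ll 1] ll)
  have e1 : s' u = xx 0 ^ e * (inc.comp sub) u := by
    refine scaling nu0 (inc.comp sub) s' (xx 0) ?_ h0
    rintro (k | k)
    · fin_cases k <;> simp [s', inc, sub, nu0]
    · simp [s', inc, sub, nu0]
  have e2 : φ₁ u = ll 2 ^ i * (AlgHom.id ℂ T) u := by
    refine scaling nu2 (AlgHom.id ℂ T) φ₁ (ll 2) ?_ h2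
    rintro (k | k)
    · fin_cases k <;> simp [φ₁, nu2]
    · simp [φ₁, nu2]
  have e3 : φ₂ u = xx 1 ^ i * s' u := by
    refine scaling nu2 s' φ₂ (xx 1) ?_ h2
    rintro (k | k)
    · fin_cases k <;> simp [φ₂, s', nu2]
    · simp [φ₂, s', nu2]
  have e4 : φ₁ u - φ₂ u ∈ Ideal.span {ell} := by
    apply congr_of_X
    rintro (k | k)
    · fin_cases k
      · simp [φ₁, φ₂]
      · simp [φ₁, φ₂, mul_comm]
      · rw [Ideal.mem_span_singleton]
        exact ⟨1, by simp [φ₁, φ₂, ell]; ring⟩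
    · simp [φ₁, φ₂]
  rw [AlgHom.comp_apply, h, map_zero, mul_zero] at e1
  rw [e3, e1, mul_zero, sub_zero, e2, Ideal.mem_span_singleton] at e4
  refine (ell_prime.dvd_or_dvd e4).resolve_left fun h => ?_
  have h3 := map_dvd (eval (fun k => if k = Sum.inr 2 then (1 : ℂ) else 0))
    (ell_prime.dvd_of_dvd_pow h)
  simp [ell] at h3

lemma LC.mem_succ {i s t : ℕ} {u : T} (hu : u ∈ GT s t) (h : LC i u 0) : u ∈ AB (i + 1) := by
  obtain ⟨N, v, hv, h1, h2, h3⟩ := h.hom_rep hu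
  have k0 : IsWeightedHomogeneous nu0 (cm2 i v) (N + s - i) := by
    intro d hd
    obtain ⟨-, k2, -⟩ := support_cm2 hv hd
    rw [Finsupp.weight_apply, Finsupp.sum_fintype _ _ (by simp), Fintype.sum_sum_type]
    simp [nu0, Fin.sum_univ_three]
    omega
  have k2 : IsWeightedHomogeneous nu2 (cm2 i v) i :=
    weightedHomogeneousComponent_isWeightedHomogeneous i v
  obtain ⟨c, hc⟩ := ell_dvd k2 k0 h3.symm
  have k3 := sub_cm2_mem h2
  have k4 : xx 0 ^ 2 * cm2 i v ∈ AA (i + 1) := by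
    rcases i with _ | i
    · have h5 : cm2 0 v ∈ VV 1 := by
        rw [hc]
        exact Ideal.mul_mem_right _ _
          (hom_mem_VV ((x1_nu.mul (ll_nu 1)).add (x2_nu.mul (ll_nu 2))))
      exact Ideal.mem_sup_left (Ideal.mul_mem_left _ _ h5)
    · have h5 : c ∈ VV i := by
        have h6 : (xx 0 ^ 2 * ell) * c ∈ VV (i + 1) := by
          rw [mul_assoc, ← hc]
          exact Ideal.mul_mem_left _ _ (hom_mem_VV k2)
        rwa [← mem_col, col_VV (hom_mem_VV ell_nu) (by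
          rw [cm2, weightedHomogeneousComponent_eq_self ell_nu]
          exact mul_ne_zero (pow_ne_zero _ (X_ne_zero _)) ell_prime.ne_zero)] at h6
      have : xx 0 ^ 2 * cm2 (i + 1) v = f3 * c - (f3 - xx 0 ^ 2 * ell) * c := by
        rw [hc]; ring
      rw [this]
      refine sub_mem (Ideal.mem_sup_right (Ideal.mul_mem_right _ _ f3_mem_I3))
        (Ideal.mem_sup_left ?_)
      have := VV_mul f3_sub_mem h5
      rwa [show 2 + i = i + 1 + 1 by omega] at this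
  refine ⟨2 + N, ?_⟩
  have : xx 0 ^ (2 + N) * u = xx 0 ^ 2 * (xx 0 ^ N * u - v) + xx 0 ^ 2 * (v - cm2 i v) +
      xx 0 ^ 2 * cm2 i v := by ring
  rw [this]
  exact add_mem (add_mem (Ideal.mem_sup_right (Ideal.mul_mem_left _ _ h1))
    (Ideal.mem_sup_left (Ideal.mul_mem_left _ _ k3))) k4

/-- Cancellation of a factor of known order. -/
lemma AB_cancel {j s t : ℕ} {G u : T} {g : YY} (hG : LC j G g) (hg : g ≠ 0) (hu : u ∈ GT s t)
    (r : ℕ) : G * u ∈ AB (j + r) → u ∈ AB r := by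
  induction r with
  | zero => exact fun _ => mem_AB_zero u
  | succ r ih =>
    intro h
    obtain ⟨c, hc⟩ := LC.exists (ih (AB_anti (by omega) h))
    have h1 := (hG.mul hc).unique (LC.zero_of_mem h)
    rw [(mul_eq_zero.1 h1).resolve_left hg] at hc
    exact hc.mem_succ hu

lemma LC_x1 (n : ℕ) : LC n (xx 1 ^ n) (yy 2 ^ n) := by
  have := LC.of_hom (x1_nu.pow n)
  simpa [sub] using this

lemma LC_x2 (n : ℕ) : LC n (xx 2 ^ n) ((- yy 1) ^ n) := by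
  have := LC.of_hom (x2_nu.pow n)
  simpa [sub] using this

lemma LC_l1 : LC 0 (ll 1) (yy 1) := by
  have := LC.of_hom (ll_nu 1)
  simpa [sub] using this

end Pool.Agent.MP_f1b239_ag
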