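import Pool.Agent.MP_f1b239_ag.HP2

set_option autoImplicit false

namespace Pool.Agent.MP_f1b239_ag

open MvPolynomial Module

def sat (I : Ideal T) (z : T) : Ideal T where
  carrier := {u | ∃ N : ℕ, z ^ N * u ∈ I}
  zero_mem' := ⟨0, by simp⟩
  add_mem' := by
    rintro a b ⟨N, h1⟩ ⟨M, h2⟩
    refine ⟨N + M, ?_⟩
    have : z ^ (N + M) * (a + b) = z ^ M * (z ^ N * a) + z ^ N * (z ^ M * b) := by ring
    rw [this]
    exact add_mem (I.mul_mem_left _ h1) (I.mul_mem_left _ h2)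
  smul_mem' := by
    rintro c a ⟨N, h⟩
    refine ⟨N, ?_⟩
    rw [smul_eq_mul, mul_left_comm]
    exact I.mul_mem_left _ h

lemma mem_sat {I : Ideal T} {z u : T} : u ∈ sat I z ↔ ∃ N : ℕ, z ^ N * u ∈ I := Iff.rfl

lemma le_sat (I : Ideal T) (z : T) : I ≤ sat I z := fun u h => ⟨0, by simpa using h⟩

lemma sat_mono {I J : Ideal T} (h : I ≤ J) (z : T) : sat I z ≤ sat J z :=
  fun _ ⟨N, hN⟩ => ⟨N, h hN⟩

lemma hom_sat {I : Ideal T} (hI : Hom I) {z : T} {δ : ℕ × ℕ} (hz : z ∈ Gr (bw 3 3) δ) :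
    Hom (sat I z) := by
  rintro p ⟨N, hN⟩ e
  exact ⟨N, (hI.col (IsWeightedHomogeneous.pow hz N)) p hN e⟩

lemma sat_eq_col (I : Ideal T) (z : T) : ∃ N : ℕ, sat I z = col I (z ^ N) := by
  let c : ℕ →o Ideal T := ⟨fun n => col I (z ^ n), monotone_nat_of_le_succ fun n u hu => by
    rw [mem_col] at hu ⊢
    rw [pow_succ', mul_assoc]
    exact I.mul_mem_left _ hu⟩
  obtain ⟨N, hN⟩ := monotone_stabilizes_iff_noetherian.mpr (inferInstance : IsNoetherian T T) c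
  refine ⟨N, le_antisymm ?_ fun u hu => ⟨N, hu⟩⟩
  rintro u ⟨M, hM⟩
  have h1 : u ∈ c (max N M) := c.monotone (le_max_right N M) hM
  rw [← hN _ (le_max_left N M)] at h1
  exact h1

noncomputable def rho : T := xx 0 ^ 2 * ll 1 + xx 0 * xx 1 * ll 2 + xx 1 ^ 2 * ll 0
noncomputable def om : T := xx 0 ^ 2 * ll 2 + xx 2 ^ 2 * ll 1
noncomputable def g3 : T :=
  (xx 0 ^ 2 * xx 1 + xx 2 ^ 3) * ll 1 + (xx 0 ^ 2 * xx 2 + xx 0 * xx 1 ^ 2) * ll 2
noncomputable def f3 : T := xx 1 ^ 3 * ll 0 + g3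

lemma f3_eq : f3 = xx 1 * rho + xx 2 * om := by
  rw [f3, g3, rho, om]; ring

lemma xx_mem (i : Fin 3) : xx i ∈ GT 1 0 := X_inl_mem i
lemma ll_mem (i : Fin 3) : ll i ∈ GT 0 1 := X_inr_mem i

lemma GT_mul {a b c d : ℕ} {p q : T} (hp : p ∈ GT a b) (hq : q ∈ GT c d) :
    p * q ∈ GT (a + c) (b + d) := IsWeightedHomogeneous.mul hp hq

lemma GT_pow {a b : ℕ} {p : T} (hp : p ∈ GT a b) (n : ℕ) : p ^ n ∈ GT (n * a) (n * b) :=
  IsWeightedHomogeneous.pow hp n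

lemma om_mem : om ∈ GT 2 1 := add_mem (term_mem 0 2) (term_mem 2 1)

lemma rho_mem : rho ∈ GT 2 1 :=
  add_mem (add_mem (term_mem 0 1) (GT_mul (GT_mul (xx_mem 0) (xx_mem 1)) (ll_mem 2))) (term_mem 1 0)

lemma f3_mem : f3 ∈ GT 3 1 := by
  rw [f3_eq]
  exact add_mem (GT_mul (xx_mem 1) rho_mem) (GT_mul (xx_mem 2) om_mem)

lemma dg_g3 : degreeOf (Sum.inr 0) g3 = 0 :=
  dg_add (dg_mul (dg_add (dg_mul (dg_pow (dg_xx _ _) _) (dg_xx _ _)) (dg_pow (dg_xx _ _) _))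
    (dg_ll (by decide)))
    (dg_mul (dg_add (dg_mul (dg_pow (dg_xx _ _) _) (dg_xx _ _))
      (dg_mul (dg_xx _ _) (dg_pow (dg_xx _ _) _))) (dg_ll (by decide)))

lemma f3_prime : Prime f3 := by
  rw [← UniqueFactorizationMonoid.irreducible_iff_prime]
  apply irreducible_mul_X_add
  · exact pow_ne_zero _ (X_ne_zero _)
  · rw [mem_vars_iff_degreeOf_ne_zero, not_not]
    exact dg_pow (dg_xx _ _) _
  · rw [mem_vars_iff_degreeOf_ne_zero, not_not]
    exact dg_g3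
  · apply IsRelPrime.pow_left
    rw [X_prime.irreducible.isRelPrime_iff_not_dvd]
    apply not_dvd_of_eval (fun k => if k = Sum.inl 1 then 0 else 1)
    · simp
    · simp [g3]

lemma om_prime : Prime om := by
  rw [← UniqueFactorizationMonoid.irreducible_iff_prime]
  apply irreducible_mul_X_add
  · exact pow_ne_zero _ (X_ne_zero _)
  · rw [mem_vars_iff_degreeOf_ne_zero, not_not]
    exact dg_pow (dg_xx _ _) _
  · rw [mem_vars_iff_degreeOf_ne_zero, not_not]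
    exact dg_mul (dg_pow (dg_xx _ _) _) (dg_ll (by decide))
  · apply IsRelPrime.pow_left
    rw [X_prime.irreducible.isRelPrime_iff_not_dvd]
    apply not_dvd_of_eval (fun k => if k = Sum.inl 0 then 0 else 1) <;> simp

noncomputable abbrev I3 : Ideal T := Ideal.span {f3}

lemma I3_prime : I3.IsPrime := (Ideal.span_singleton_prime f3_prime.ne_zero).2 f3_prime

lemma f3_mem_I3 : f3 ∈ I3 := Ideal.mem_span_singleton_self _

lemma hom_span {g : T} {δ : ℕ × ℕ} (hg : g ∈ Gr (bw 3 3) δ) : Hom (Ideal.span {g}) := by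
  have := (isHom_bot (w := bw 3 3)).sup_span hg
  rwa [bot_sup_eq] at this

lemma hom_I3 : Hom I3 := hom_span f3_mem

lemma dg_f3 : degreeOf (Sum.inr 0) f3 ≠ 0 := by
  intro h
  have h1 : degreeOf (Sum.inr 0) (f3 - g3) = 0 := dg_sub h dg_g3
  have h2 : f3 - g3 = xx 1 ^ 3 * ll 0 := by simp [f3]
  rw [h2, degreeOf_mul_eq (pow_ne_zero _ (X_ne_zero _)) (X_ne_zero _), degreeOf_X_self] at h1
  omega

lemma eq_zero_of_free3 {p : T} (hp : degreeOf (Sum.inr 0) p = 0) (h : p ∈ I3) : p = 0 := by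
  obtain ⟨c, rfl⟩ := Ideal.mem_span_singleton'.1 h
  by_cases hc : c = 0
  · simp [hc]
  · rw [degreeOf_mul_eq hc f3_prime.ne_zero] at hp
    have := dg_f3
    omega

lemma xx_notMem (i : Fin 3) : xx i ∉ I3 := fun h => X_ne_zero _ (eq_zero_of_free3 (dg_xx _ _) h)

lemma elim3 (p : T) :
    ∃ (N : ℕ) (p' : T), degreeOf (Sum.inr 0) p' = 0 ∧ xx 1 ^ N * p - p' ∈ I3 := by
  induction p using MvPolynomial.induction_on with
  | C a => exact ⟨0, C a, degreeOf_C _ _, by simp⟩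
  | add p q hp hq =>
    obtain ⟨N, p', h1, h2⟩ := hp
    obtain ⟨M, q', h3, h4⟩ := hq
    refine ⟨N + M, xx 1 ^ M * p' + xx 1 ^ N * q',
      dg_add (dg_mul (dg_pow (dg_xx _ _) _) h1) (dg_mul (dg_pow (dg_xx _ _) _) h3), ?_⟩
    have : xx 1 ^ (N + M) * (p + q) - (xx 1 ^ M * p' + xx 1 ^ N * q') =
        xx 1 ^ M * (xx 1 ^ N * p - p') + xx 1 ^ N * (xx 1 ^ M * q - q') := by ring
    rw [this]
    exact add_mem (Ideal.mul_mem_left _ _ h2) (Ideal.mul_mem_left _ _ h4)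
  | mul_X p i hp =>
    obtain ⟨N, p', h1, h2⟩ := hp
    by_cases hi : i = Sum.inr 0
    · subst hi
      refine ⟨N + 3, p' * (0 - g3), dg_mul h1 (dg_sub (degreeOf_zero _) dg_g3), ?_⟩
      have : xx 1 ^ (N + 3) * (p * ll 0) - p' * (0 - g3) =
          (xx 1 ^ 3 * ll 0) * (xx 1 ^ N * p - p') + p' * f3 := by rw [f3]; ring
      rw [this]
      exact add_mem (Ideal.mul_mem_left _ _ h2) (Ideal.mul_mem_left _ _ f3_mem_I3)
    · refine ⟨N, p' * X i, dg_mul h1 (degreeOf_X_of_ne (Ne.symm hi)), ?_⟩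
      have : xx 1 ^ N * (p * X i) - p' * X i = X i * (xx 1 ^ N * p - p') := by ring
      rw [this]
      exact Ideal.mul_mem_left _ _ h2

lemma sat_prime {π G : T} {k : ℕ} (hπ : Prime π) (hfree : degreeOf (Sum.inr 0) π = 0)
    (hx : ¬ π ∣ xx 1) (hk : xx 1 ^ k * G - π ∈ I3) :
    (sat (I3 ⊔ Ideal.span {G}) (xx 1)).IsPrime := by
  have key : ∀ a : T, (∃ (N : ℕ) (a' : T), π ∣ a' ∧ xx 1 ^ N * a - a' ∈ I3) →
      a ∈ sat (I3 ⊔ Ideal.span {G}) (xx 1) := by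
    rintro a ⟨N, _, ⟨a'', rfl⟩, h⟩
    refine ⟨N, ?_⟩
    have : xx 1 ^ N * a = ((xx 1 ^ N * a - π * a'') - a'' * (xx 1 ^ k * G - π)) +
        (a'' * xx 1 ^ k) * G := by ring
    rw [this]
    exact add_mem (Ideal.mem_sup_left (sub_mem h (Ideal.mul_mem_left _ _ hk)))
      (Ideal.mem_sup_right (Ideal.mul_mem_left _ _ (Ideal.mem_span_singleton_self _)))
  have key2 : ∀ u u' : T, ∀ N : ℕ, degreeOf (Sum.inr 0) u' = 0 → xx 1 ^ N * u - u' ∈ I3 →
      u ∈ sat (I3 ⊔ Ideal.span {G}) (xx 1) → π ∣ u' := by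
    rintro u u' N h1 h2 ⟨L, h3⟩
    obtain ⟨i, hi, z, hz, hiz⟩ := Submodule.mem_sup.1 h3
    obtain ⟨c, rfl⟩ := Ideal.mem_span_singleton'.1 hz
    obtain ⟨M, c', h4, h5⟩ := elim3 c
    have h6 : xx 1 ^ (k + M + L) * u' - xx 1 ^ N * c' * π ∈ I3 := by
      have : xx 1 ^ (k + M + L) * u' - xx 1 ^ N * c' * π =
          xx 1 ^ (k + M + N) * i - xx 1 ^ (k + M + L) * (xx 1 ^ N * u - u') +
            xx 1 ^ (N + k) * G * (xx 1 ^ M * c - c') + xx 1 ^ N * c' * (xx 1 ^ k * G - π) := by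
        linear_combination (- xx 1 ^ (k + M + N)) * hiz
      rw [this]
      exact add_mem (add_mem (sub_mem (Ideal.mul_mem_left _ _ hi) (Ideal.mul_mem_left _ _ h2))
        (Ideal.mul_mem_left _ _ h5)) (Ideal.mul_mem_left _ _ hk)
    have h7 := eq_zero_of_free3 (dg_sub (dg_mul (dg_pow (dg_xx _ _) _) h1)
      (dg_mul (dg_mul (dg_pow (dg_xx _ _) _) h4) hfree)) h6
    have h8 : π ∣ xx 1 ^ (k + M + L) * u' := ⟨xx 1 ^ N * c', by rw [sub_eq_zero.1 h7]; ring⟩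
    exact (hπ.dvd_or_dvd h8).resolve_left fun h => hx (hπ.dvd_of_dvd_pow h)
  constructor
  · rw [Ideal.ne_top_iff_one]
    intro h
    exact hπ.not_dvd_one (key2 1 1 0 (degreeOf_one _) (by simp) h)
  · intro a b hab
    obtain ⟨N, a', h1, h2⟩ := elim3 a
    obtain ⟨M, b', h3, h4⟩ := elim3 b
    have h5 : xx 1 ^ (N + M) * (a * b) - a' * b' ∈ I3 := by
      have : xx 1 ^ (N + M) * (a * b) - a' * b' =
          xx 1 ^ M * b * (xx 1 ^ N * a - a') + a' * (xx 1 ^ M * b - b') := by ring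
      rw [this]
      exact add_mem (Ideal.mul_mem_left _ _ h2) (Ideal.mul_mem_left _ _ h4)
    rcases hπ.dvd_or_dvd (key2 _ _ _ (dg_mul h1 h3) h5 hab) with h | h
    · exact Or.inl (key a ⟨N, a', h, h2⟩)
    · exact Or.inr (key b ⟨M, b', h, h4⟩)

lemma exists_section3 {Q : Ideal T} (hQ : Q.IsPrime) (hh : Hom Q) (hf : f3 ∈ Q)
    (hne : ¬ Q ≤ I3) (hx : xx 1 ∉ Q) :
    ∃ (G : T) (p q : ℕ), G ∈ GT p q ∧ G ∉ I3 ⊔ Ideal.span {xx 1} ∧
      (sat (I3 ⊔ Ideal.span {G}) (xx 1)).IsPrime ∧ sat (I3 ⊔ Ideal.span {G}) (xx 1) ≤ Q := by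
  classical
  have hle : I3 ≤ Q := (Ideal.span_singleton_le_iff_mem _).2 hf
  have hex : ∃ n, ∃ g : T, g.totalDegree = n ∧ g ≠ 0 ∧ g ∈ Q ∧ degreeOf (Sum.inr 0) g = 0 ∧
      ∃ m, g ∈ Gr (bw 3 3) m := by
    obtain ⟨g, hgQ, hgI⟩ := SetLike.not_le_iff_exists.1 hne
    obtain ⟨N, g', h1, h2⟩ := elim3 g
    have h3 : g' ∈ Q := by
      have : g' = xx 1 ^ N * g - (xx 1 ^ N * g - g') := by ring
      rw [this]
      exact sub_mem (Ideal.mul_mem_left _ _ hgQ) (hle h2)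
    have h4 : g' ∉ (⊥ : Ideal T) := by
      rw [Ideal.mem_bot]
      rintro rfl
      rw [sub_zero] at h2
      rcases I3_prime.mem_or_mem h2 with h | h
      · exact xx_notMem 1 (I3_prime.mem_of_pow_mem _ h)
      · exact hgI h
    obtain ⟨m, hm⟩ := exists_cmp_notMem (w := bw 3 3) h4
    exact ⟨_, cmp (bw 3 3) m g', rfl, by simpa using hm, hh _ h3 m, dg_cmp h1 m, m, cmp_mem _ _⟩
  obtain ⟨g, hgd, hg0, hgQ, hgf, m, hgm⟩ := Nat.find_spec hex
  have hmin : ∀ g' : T, g' ≠ 0 → g' ∈ Q → degreeOf (Sum.inr 0) g' = 0 →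
      (∃ m, g' ∈ Gr (bw 3 3) m) → g.totalDegree ≤ g'.totalDegree := by
    intro g' h1 h2 h3 h4
    rw [hgd]
    exact Nat.find_min' hex ⟨g', rfl, h1, h2, h3, h4⟩
  have hgp : Prime g := by
    obtain ⟨s, hs, hsa⟩ := UniqueFactorizationMonoid.exists_prime_factors g hg0
    have h1 : s.prod ∈ Q := Q.mem_of_dvd hsa.symm.dvd hgQ
    obtain ⟨π, hπs, hπQ⟩ := (hQ.multiset_prod_mem_iff_exists_mem s).1 h1
    have hπ := hs π hπs
    obtain ⟨c, hc⟩ : π ∣ g := (Multiset.dvd_prod hπs).trans hsa.dvd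
    have hc0 : c ≠ 0 := by rintro rfl; simp [hg0] at hc
    have hπf : degreeOf (Sum.inr 0) π = 0 := by
      rw [hc, degreeOf_mul_eq hπ.ne_zero hc0] at hgf
      omega
    have h4 : π ∉ (⊥ : Ideal T) := by simpa using hπ.ne_zero
    obtain ⟨m', hm'⟩ := exists_cmp_notMem (w := bw 3 3) h4
    have h5 := hmin (cmp (bw 3 3) m' π) (by simpa using hm') (hh _ hπQ m') (dg_cmp hπf m')
      ⟨m', cmp_mem _ _⟩
    have h6 := td_cmp (w := bw 3 3) π m'
    have h7 : g.totalDegree = π.totalDegree + c.totalDegree := by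
      rw [hc, totalDegree_mul_of_isDomain hπ.ne_zero hc0]
    have h8 : c.totalDegree = 0 := by omega
    rw [totalDegree_eq_zero_iff_eq_C] at h8
    have h9 : IsUnit c := by
      rw [h8]
      refine (IsUnit.mk0 _ ?_).map C
      intro h
      rw [h, map_zero] at h8
      exact hc0 h8
    rw [hc]
    exact (associated_mul_unit_right π c h9).prime hπ
  have hgx : ¬ g ∣ xx 1 := fun h => hx (Q.mem_of_dvd h hgQ)
  obtain ⟨p₀, q⟩ := m
  have hex2 : ∃ p, ∃ (k : ℕ) (G : T), G ∈ Gr (bw 3 3) (p, q) ∧ xx 1 ^ k * G - g ∈ I3 :=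
    ⟨p₀, 0, g, hgm, by simp⟩
  obtain ⟨k, G, hGm, hGk⟩ := Nat.find_spec hex2
  set p := Nat.find hex2 with hp
  have hGI : G ∉ I3 := by
    intro h
    have : g ∈ I3 := by
      have : g = xx 1 ^ k * G - (xx 1 ^ k * G - g) := by ring
      rw [this]
      exact sub_mem (Ideal.mul_mem_left _ _ h) hGk
    exact hg0 (eq_zero_of_free3 hgf this)
  have hG : G ∉ I3 ⊔ Ideal.span {xx 1} := by
    intro h
    obtain ⟨i, hi, z, hz, hiz⟩ := Submodule.mem_sup.1 h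
    obtain ⟨c, rfl⟩ := Ideal.mem_span_singleton'.1 hz
    have h1 : G = cmp (bw 3 3) (p, q) i + cmp (bw 3 3) (p, q) (xx 1 * c) := by
      rw [← cmp_add, mul_comm, hiz, cmp_self hGm]
    rcases hp0 : p with _ | p'
    · rw [hp0, cmp_mul_not_le (X_inl_mem 1) (by simp), add_zero] at h1
      exact hGI (h1 ▸ hom_I3 i hi _)
    · have h2 : ((p' + 1, q) : ℕ × ℕ) = (1, 0) + (p', q) := by
        ext <;> simp [add_comm]
      rw [hp0] at h1
      conv_rhs at h1 => rw [h2, cmp_mul_add (X_inl_mem 1)]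
      have h3 : p ≤ p' := by
        apply Nat.find_min' hex2
        refine ⟨k + 1, cmp (bw 3 3) (p', q) c, cmp_mem _ _, ?_⟩
        have : xx 1 ^ (k + 1) * cmp (bw 3 3) (p', q) c - g =
            (xx 1 ^ k * G - g) - xx 1 ^ k * cmp (bw 3 3) ((1, 0) + (p', q)) i := by
          conv_rhs => rw [h1]
          ring
        rw [this]
        exact sub_mem hGk (Ideal.mul_mem_left _ _ (hom_I3 i hi _))
      omega
  have hGQ : G ∈ Q := by
    have : xx 1 ^ k * G ∈ Q := by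
      have : xx 1 ^ k * G = (xx 1 ^ k * G - g) + g := by ring
      rw [this]
      exact add_mem (hle hGk) hgQ
    exact (hQ.mem_or_mem this).resolve_left fun h => hx (hQ.mem_of_pow_mem _ h)
  refine ⟨G, p, q, hGm, hG, sat_prime hgp hgf hgx hGk, ?_⟩
  rintro u ⟨N, hN⟩
  have h1 := sup_le hle ((Ideal.span_singleton_le_iff_mem _).2 hGQ) hN
  exact (hQ.mem_or_mem h1).resolve_left fun h => hx (hQ.mem_of_pow_mem _ h)

/-! The fibre `pp` and the residual surface `WW`. -/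

noncomputable abbrev X1 : Ideal T := Ideal.span {xx 1}
noncomputable abbrev pp : Ideal T := X1 ⊔ Ideal.span {xx 2}
noncomputable abbrev WW : Ideal T := X1 ⊔ Ideal.span {om}

lemma X1_prime : X1.IsPrime := (Ideal.span_singleton_prime (X_ne_zero _)).2 X_prime

lemma x1_mem : xx 1 ∈ X1 := Ideal.mem_span_singleton_self _

lemma X1_sup_prime {g : T} (hg : Prime g) (hfix : aeval (fun k => if k = Sum.inl 1 then 0 else X k :
    Fin 3 ⊕ Fin 3 → T) g = g) : (X1 ⊔ Ideal.span {g}).IsPrime := by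
  classical
  let κ : T →ₐ[ℂ] T := aeval fun k => if k = Sum.inl 1 then 0 else X k
  have hκ : ∀ p, κ p - p ∈ X1 := by
    apply sub_mem_of_X
    intro i
    by_cases h : i = Sum.inl 1
    · subst h
      simp [κ]
    · simp [κ, h]
  have hg' : κ g = g := hfix
  have hP : (Ideal.span {g}).IsPrime := (Ideal.span_singleton_prime hg.ne_zero).2 hg
  have : X1 ⊔ Ideal.span {g} = (Ideal.span {g}).comap κ := by
    apply le_antisymm
    · rw [sup_le_iff, Ideal.span_singleton_le_iff_mem, Ideal.span_singleton_le_iff_mem,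
        Ideal.mem_comap, Ideal.mem_comap, hg']
      exact ⟨by simp [κ], Ideal.mem_span_singleton_self _⟩
    · intro p hp
      rw [Ideal.mem_comap] at hp
      have : p = κ p - (κ p - p) := by ring
      rw [this]
      exact sub_mem (Ideal.mem_sup_right hp) (Ideal.mem_sup_left (hκ p))
  rw [this]
  exact Ideal.IsPrime.comap κ

lemma pp_prime : pp.IsPrime := X1_sup_prime X_prime (by simp)

lemma WW_prime : WW.IsPrime := X1_sup_prime om_prime (by simp [om])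

lemma hom_X1 : Hom X1 := hom_span (xx_mem 1)
lemma hom_pp : Hom pp := hom_X1.sup_span (xx_mem 2)
lemma hom_WW : Hom WW := hom_X1.sup_span om_mem

lemma notMem_X1 {g : T} (h : eval (fun k => if k = Sum.inl 1 then (0 : ℂ) else 1) g ≠ 0) :
    g ∉ X1 := by
  rw [Ideal.mem_span_singleton]
  exact not_dvd_of_eval _ (by simp) h

lemma HT_bot (a b : ℕ) :
    (HT ⊥ a b : ℝ) = (a + 1) * (a + 2) / 2 * ((b + 1) * (b + 2) / 2) := by
  rw [HT, HF_bot, finrank_Gr_bw]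
  push_cast
  rw [mc3, mc3]

lemma HT_span {g : T} {p q : ℕ} (hg : g ∈ GT p q) (h0 : g ≠ 0) {a b : ℕ} (ha : p ≤ a)
    (hb : q ≤ b) : (HT (Ideal.span {g}) a b : ℝ) = HT ⊥ a b - HT ⊥ (a - p) (b - q) := by
  have := HF_step (Ideal.isPrime_bot) isHom_bot hg (by simpa using h0) ha hb
  rwa [bot_sup_eq] at this

lemma HT_X1 {a : ℕ} (ha : 1 ≤ a) (b : ℕ) :
    (HT X1 a b : ℝ) = (a + 1) * ((b + 1) * (b + 2) / 2) := by
  rw [HT_span (xx_mem 1) (X_ne_zero _) ha (Nat.zero_le _), HT_bot, HT_bot, Nat.cast_sub ha]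
  simp
  ring

lemma deg_pp : Deg (HT pp) ![0, 0, 1] := by
  refine ⟨0, 3 / 2, 1, 2, fun a b ha hb => ?_⟩
  have := HF_step X1_prime hom_X1 (xx_mem 2) (notMem_X1 (by simp)) (a := a) (b := b)
    (by omega) (by omega)
  have h1 := HT_X1 (a := a) (by omega) b
  have h2 := HT_X1 (a := a - 1) (by omega) b
  rw [Nat.cast_sub (by omega)] at h2
  simp only [HT, Nat.sub_zero] at this h1 h2 ⊢
  rw [this, h1, h2]
  simp
  ring

lemma deg_WW : Deg (HT WW) ![0, 1, 2] := by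
  refine ⟨1, 2, 1, 3, fun a b ha hb => ?_⟩
  have := HF_step X1_prime hom_X1 om_mem (notMem_X1 (by simp [om])) (a := a) (b := b)
    (by omega) (by omega)
  have h1 := HT_X1 (a := a) (by omega) b
  have h2 := HT_X1 (a := a - 2) (by omega) (b - 1)
  rw [Nat.cast_sub (by omega), Nat.cast_sub (by omega)] at h2
  simp only [HT] at this h1 h2 ⊢
  rw [this, h1, h2]
  simp
  ring

lemma om_notMem_pp : om ∉ pp := by
  intro h
  let e : Fin 3 ⊕ Fin 3 → ℂ := Sum.elim ![1, 0, 0] fun _ => 1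
  have : pp ≤ RingHom.ker (eval e) := by
    rw [sup_le_iff, Ideal.span_singleton_le_iff_mem, Ideal.span_singleton_le_iff_mem]
    simp [RingHom.mem_ker, e]
  simpa [RingHom.mem_ker, e, om] using this h

lemma mem_of_mem_pp_WW {G : T} (h1 : G ∈ pp) (h2 : G ∈ WW) : G ∈ I3 ⊔ X1 := by
  obtain ⟨i, hi, z, hz, rfl⟩ := Submodule.mem_sup.1 h2
  obtain ⟨c, rfl⟩ := Ideal.mem_span_singleton'.1 hz
  have h3 : c * om ∈ pp := by simpa using sub_mem h1 (Ideal.mem_sup_left hi)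
  have h4 := (pp_prime.mem_or_mem h3).resolve_right om_notMem_pp
  obtain ⟨j, hj, z', hz', rfl⟩ := Submodule.mem_sup.1 h4
  obtain ⟨e, rfl⟩ := Ideal.mem_span_singleton'.1 hz'
  have : i + (j + e * xx 2) * om = e * f3 + (i + j * om - e * rho * xx 1) := by
    rw [f3_eq]; ring
  rw [this]
  exact add_mem (Ideal.mem_sup_left (Ideal.mul_mem_left _ _ f3_mem_I3))
    (Ideal.mem_sup_right (sub_mem (add_mem hi (Ideal.mul_mem_right _ _ hj))
      (Ideal.mul_mem_left _ _ x1_mem)))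

lemma pp_or_WW {Q : Ideal T} (hQ : Q.IsPrime) (hf : f3 ∈ Q) (hx : xx 1 ∈ Q) :
    pp ≤ Q ∨ WW ≤ Q := by
  have h1 : xx 2 * om ∈ Q := by
    have : xx 2 * om = f3 - xx 1 * rho := by rw [f3_eq]; ring
    rw [this]
    exact sub_mem hf (Q.mul_mem_right _ hx)
  have h2 : X1 ≤ Q := (Ideal.span_singleton_le_iff_mem _).2 hx
  rcases hQ.mem_or_mem h1 with h | h
  · exact Or.inl (sup_le h2 ((Ideal.span_singleton_le_iff_mem _).2 h))
  · exact Or.inr (sup_le h2 ((Ideal.span_singleton_le_iff_mem _).2 h))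

lemma f3_mem_WW : f3 ∈ WW := by
  rw [f3_eq]
  exact add_mem (Ideal.mem_sup_left (Ideal.mul_mem_right _ _ x1_mem))
    (Ideal.mem_sup_right (Ideal.mul_mem_left _ _ (Ideal.mem_span_singleton_self _)))

noncomputable def Phi3 (x y : ℝ) : ℝ :=
  x ^ 2 * y / 2 + 3 * x * y ^ 2 / 2 + x ^ 2 / 2 + 3 * x * y + 3 * x / 2 + y + 1

lemma HT_I3 {a b : ℕ} (ha : 3 ≤ a) (hb : 1 ≤ b) : (HT I3 a b : ℝ) = Phi3 a b := by
  rw [HT_span f3_mem f3_prime.ne_zero ha hb, HT_bot, HT_bot, Nat.cast_sub ha, Nat.cast_sub hb, Phi3]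
  push_cast
  ring

lemma deg_sec3 {G : T} {p q : ℕ} (hG : G ∈ GT p q) (hGI : G ∉ I3) :
    Deg (HT (I3 ⊔ Ideal.span {G})) ![q, p + 3 * q, 3 * p] := by
  let L : ℝ → ℝ → ℝ := fun x y => Phi3 x y - Phi3 (x - p) (y - q) -
    (q * x ^ 2 / 2 + (p + 3 * q) * x * y + 3 * p * y ^ 2 / 2)
  refine ⟨L 1 0 - L 0 0, L 0 1 - L 0 0, L 0 0, p + q + 3, fun a b ha hb => ?_⟩
  have := HF_step I3_prime hom_I3 hG hGI (a := a) (b := b) (by omega) (by omega)
  have h1 := HT_I3 (a := a) (b := b) (by omega) (by omega)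
  have h2 := HT_I3 (a := a - p) (b := b - q) (by omega) (by omega)
  rw [Nat.cast_sub (by omega), Nat.cast_sub (by omega)] at h2
  simp only [HT] at this h1 h2 ⊢
  rw [this, h1, h2]
  simp only [L, Phi3, Matrix.cons_val_zero, Matrix.cons_val_one, Matrix.cons_val]
  ring

lemma not_deg_I3 (v : Fin 3 → ℝ) : ¬ Deg (HT I3) v := by
  rintro ⟨c₁, c₂, c₀, N, h⟩
  have key : ∀ a b : ℕ, N + 3 ≤ a → N + 3 ≤ b → Phi3 a b =
      v 0 * (a : ℝ) ^ 2 / 2 + v 1 * a * b + v 2 * (b : ℝ) ^ 2 / 2 + c₁ * a + c₂ * b + c₀ := by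
    intro a b ha hb
    rw [← HT_I3 (by omega) (by omega)]
    exact h a b (by omega) (by omega)
  have h1 := key (N + 3) (N + 3) (by omega) (by omega)
  have h2 := key (N + 3) (N + 4) (by omega) (by omega)
  have h3 := key (N + 3) (N + 5) (by omega) (by omega)
  have h4 := key (N + 4) (N + 3) (by omega) (by omega)
  have h5 := key (N + 4) (N + 4) (by omega) (by omega)
  have h6 := key (N + 4) (N + 5) (by omega) (by omega)
  unfold Phi3 at h1 h2 h3 h4 h5 h6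
  push_cast at h1 h2 h3 h4 h5 h6
  have : (0 : ℝ) = 3 := by linear_combination -(h6 - 2 * h5 + h4 - h3 + 2 * h2 - h1)
  norm_num at this

end Pool.Agent.MP_f1b239_ag
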