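import Pool.Agent.MP_f1b239_ag.Cone

set_option autoImplicit false

namespace Pool.Agent.MP_f1b239_ag.NotSimplicialOld

open MvPolynomial Pool.Agent.MP_f1b239_ag

/-- There is a rank three vector bundle `E = ker M` on the complex projective plane such that the
pseudo-effective cone of codimension two cycles (surfaces) of `P(E)` is not simplicial. -/
theorem result :
    ∃ (m n : ℕ) (M : Matrix (Fin m) (Fin n) (MvPolynomial (Fin 3) ℂ)) (d : Fin m → ℕ),
      (∀ i j, (M i j).IsHomogeneous (d i)) ∧
      (∀ x : Fin 3 → ℂ, x ≠ 0 →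
        Module.finrank ℂ (LinearMap.ker (Matrix.toLin' (M.map (eval x)))) = 3) ∧
      ¬ IsSimplicial (pseudoEff M) :=
  ⟨4, 6, Mx, ![2, 1, 1, 1], Mx_hom, Mx_rank, not_simplicial⟩

end Pool.Agent.MP_f1b239_ag.NotSimplicialOld
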