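import Pool.Agent.MP_f1b239_ag.Lead

set_option autoImplicit false

namespace Pool.Agent.MP_f1b239_ag

open MvPolynomial Module

lemma hom_div {I : Ideal T} (hI : Hom I) {G p : T} {a b s t : ℕ} (hG : G ∈ GT a b)
    (hp : p ∈ GT s t) (h : p ∈ I ⊔ Ideal.span {G}) :
    p ∈ I ∨ ∃ (s' t' : ℕ) (c : T), s = a + s' ∧ t = b + t' ∧ c ∈ GT s' t' ∧ p - G * c ∈ I := by
  obtain ⟨i, hi, z, hz, hiz⟩ := Submodule.mem_sup.1 h
  obtain ⟨c, rfl⟩ := Ideal.mem_span_singleton'.1 hz
  have h1 : p = cmp (bw 3 3) (s, t) i + cmp (bw 3 3) (s, t) (G * c) := by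
    rw [← cmp_add, mul_comm, hiz, cmp_self hp]
  by_cases hle : ((a, b) : ℕ × ℕ) ≤ (s, t)
  · obtain ⟨⟨s', t'⟩, hk⟩ := exists_add_of_le hle
    right
    refine ⟨s', t', cmp (bw 3 3) (s', t') c, congrArg Prod.fst hk, congrArg Prod.snd hk,
      cmp_mem _ _, ?_⟩
    rw [← cmp_mul_add hG, ← hk, sub_eq_of_eq_add h1]
    exact hI i hi _
  · left
    rw [h1, cmp_mul_not_le hG hle, add_zero]
    exact hI i hi _

lemma var_sup_prime (v : Fin 3 ⊕ Fin 3) {g : T} (hg : Prime g)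
    (hfix : aeval (fun k => if k = v then 0 else X k : Fin 3 ⊕ Fin 3 → T) g = g) :
    (Ideal.span {X v} ⊔ Ideal.span {g} : Ideal T).IsPrime := by
  classical
  let κ : T →ₐ[ℂ] T := aeval fun k => if k = v then 0 else X k
  have hκ : ∀ p, κ p - p ∈ (Ideal.span {X v} : Ideal T) := by
    apply sub_mem_of_X
    intro i
    by_cases h : i = v
    · subst h
      simp [κ]
    · simp [κ, h]
  have hg' : κ g = g := hfix
  have hP : (Ideal.span {g}).IsPrime := (Ideal.span_singleton_prime hg.ne_zero).2 hg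
  have : Ideal.span {X v} ⊔ Ideal.span {g} = (Ideal.span {g}).comap κ := by
    apply le_antisymm
    · rw [sup_le_iff, Ideal.span_singleton_le_iff_mem, Ideal.span_singleton_le_iff_mem,
        Ideal.mem_comap, Ideal.mem_comap, hg']
      exact ⟨by simp [κ], Ideal.mem_span_singleton_self _⟩
    · intro p hp
      rw [Ideal.mem_comap] at hp
      have : p = κ p - (κ p - p) := by ring
      rw [this]
      exact sub_mem (Ideal.mem_sup_right hp) (Ideal.mem_sup_left (hκ p))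
  rw [this]
  exact Ideal.IsPrime.comap κ

noncomputable def f4 : T := xx 1 ^ 3 * ll 0 + (xx 0 ^ 2 * xx 2 + xx 0 * xx 1 ^ 2) * ll 2

lemma f4_prime : Prime f4 := by
  rw [← UniqueFactorizationMonoid.irreducible_iff_prime]
  apply irreducible_mul_X_add
  · exact pow_ne_zero _ (X_ne_zero _)
  · rw [mem_vars_iff_degreeOf_ne_zero, not_not]
    exact dg_pow (dg_xx _ _) _
  · rw [mem_vars_iff_degreeOf_ne_zero, not_not]
    exact dg_mul (dg_add (dg_mul (dg_pow (dg_xx _ _) _) (dg_xx _ _))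
      (dg_mul (dg_xx _ _) (dg_pow (dg_xx _ _) _))) (dg_ll (by decide))
  · apply IsRelPrime.pow_left
    rw [X_prime.irreducible.isRelPrime_iff_not_dvd]
    apply not_dvd_of_eval (fun k => if k = Sum.inl 1 then 0 else 1) <;> simp

noncomputable abbrev L1 : Ideal T := I3 ⊔ Ideal.span {ll 1}

lemma L1_prime : L1.IsPrime := by
  have h := var_sup_prime (Sum.inr 1) f4_prime (by simp [f4])
  have e : f3 = f4 + (xx 0 ^ 2 * xx 1 + xx 2 ^ 3) * ll 1 := by rw [f3, g3, f4]; ring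
  have : L1 = Ideal.span {ll 1} ⊔ Ideal.span {f4} := by
    apply le_antisymm
    · refine sup_le ((Ideal.span_singleton_le_iff_mem _).2 ?_) le_sup_left
      rw [e]
      exact add_mem (Ideal.mem_sup_right (Ideal.mem_span_singleton_self _))
        (Ideal.mem_sup_left (Ideal.mul_mem_left _ _ (Ideal.mem_span_singleton_self _)))
    · refine sup_le le_sup_right ((Ideal.span_singleton_le_iff_mem _).2 ?_)
      rw [eq_sub_of_add_eq e.symm]
      exact sub_mem (Ideal.mem_sup_left f3_mem_I3)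
        (Ideal.mem_sup_right (Ideal.mul_mem_left _ _ (Ideal.mem_span_singleton_self _)))
  rw [this]
  exact h

lemma x1_notMem_L1 : xx 1 ∉ L1 := by
  intro h
  let e : Fin 3 ⊕ Fin 3 → ℂ := Sum.elim (fun _ => 1) fun _ => 0
  have : L1 ≤ RingHom.ker (eval e) := by
    rw [sup_le_iff, Ideal.span_singleton_le_iff_mem, Ideal.span_singleton_le_iff_mem]
    simp [RingHom.mem_ker, e, f3, g3]
  simpa [RingHom.mem_ker, e] using this h

def nux : Fin 3 ⊕ Fin 3 → ℕ := Sum.elim (fun _ => 1) fun _ => 0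
def nuy : Fin 3 ⊕ Fin 3 → ℕ := Sum.elim (fun _ => 0) fun _ => 1

lemma GT_nux {a b : ℕ} {u : T} (hu : u ∈ GT a b) : IsWeightedHomogeneous nux u a := by
  intro d hd
  have h1 : Finsupp.weight (bw 3 3) d = (a, b) := hu hd
  rw [weight_bw, Prod.mk.injEq] at h1
  rw [Finsupp.weight_apply, Finsupp.sum_fintype _ _ (by simp), Fintype.sum_sum_type]
  simp [nux, h1.1]

lemma GT_nuy {a b : ℕ} {u : T} (hu : u ∈ GT a b) : IsWeightedHomogeneous nuy u b := by
  intro d hd
  have h1 : Finsupp.weight (bw 3 3) d = (a, b) := hu hd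
  rw [weight_bw, Prod.mk.injEq] at h1
  rw [Finsupp.weight_apply, Finsupp.sum_fintype _ _ (by simp), Fintype.sum_sum_type]
  simp [nuy, h1.2]

/-- Parametrisation of a cuspidal member of the net. -/
noncomputable def psi (k : ℂ) : T →ₐ[ℂ] Polynomial ℂ :=
  aeval (Sum.elim ![Polynomial.X ^ 3, Polynomial.X ^ 2, - Polynomial.X - Polynomial.C k]
    ![Polynomial.C k, 0, 1])

lemma psi_I3 (k : ℂ) {u : T} (hu : u ∈ I3) : psi k u = 0 := by
  obtain ⟨c, rfl⟩ := Ideal.mem_span_singleton'.1 hu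
  have : psi k f3 = 0 := by
    simp [psi, f3, g3]
    ring
  rw [map_mul, this, mul_zero]

lemma exists_psi_ne {G : T} {a b : ℕ} (hG : G ∈ GT a b) (h : G ∉ L1) : ∃ k, psi k G ≠ 0 := by
  classical
  by_contra hcon
  push Not at hcon
  obtain ⟨N, p, h1, h2⟩ := elim3 G
  have hm : xx 1 ^ N * G ∈ GT (N + a) b := by simpa using GT_mul (GT_pow (xx_mem 1) N) hG
  have k1 := hom_I3 _ h2 (N + a, b)
  rw [cmp_sub, cmp_self hm] at k1
  have k2 := dg_cmp (w := bw 3 3) h1 (N + a, b)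
  have k3 : cmp (bw 3 3) (N + a, b) p ∈ GT (N + a) b := cmp_mem _ _
  set q := cmp (bw 3 3) (N + a, b) p with hq
  have k4 : ∀ k, psi k q = 0 := by
    intro k
    have := psi_I3 k k1
    rw [map_sub, map_mul, hcon k, mul_zero, zero_sub, neg_eq_zero] at this
    exact this
  let κ : T →ₐ[ℂ] T := aeval fun k => if k = Sum.inr 1 then 0 else X k
  have hκ : κ q - q ∈ (Ideal.span {ll 1} : Ideal T) := by
    apply sub_mem_of_X
    intro i
    by_cases h : i = Sum.inr 1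
    · subst h
      simp [κ]
    · simp [κ, h]
  have k5 : κ q * (xx 0 * xx 1 * ll 2) = 0 := by
    apply MvPolynomial.funext
    intro e
    rw [map_mul, map_zero, mul_eq_zero]
    by_cases h0 : eval e (xx 0 * xx 1 * ll 2) = 0
    · exact Or.inr h0
    left
    simp only [map_mul, eval_X, mul_eq_zero, not_or] at h0
    obtain ⟨⟨e0, e1⟩, e2⟩ := h0
    set σ := e (Sum.inl 0) / e (Sum.inl 1) with hσ
    set μ := e (Sum.inl 1) ^ 3 / e (Sum.inl 0) ^ 2 with hμ
    set k := - σ - e (Sum.inl 2) / μ with hk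
    let φ₀ : T →ₐ[ℂ] ℂ := (Polynomial.aeval σ).comp (psi k)
    let φ₁ : T →ₐ[ℂ] ℂ := aeval (Sum.elim (fun i => e (Sum.inl i)) ![k, 0, 1])
    let φ₂ : T →ₐ[ℂ] ℂ :=
      aeval (Sum.elim (fun i => e (Sum.inl i)) ![e (Sum.inr 2) * k, 0, e (Sum.inr 2)])
    have s1 : φ₁ q = μ ^ (N + a) * φ₀ q := by
      refine scaling nux φ₀ φ₁ μ ?_ (GT_nux k3)
      rintro (i | i) <;> fin_cases i <;> simp [φ₀, φ₁, psi, nux]
      · rw [hμ, hσ]; field_simp
      · rw [hμ, hσ]; field_simp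
      · rw [hk, hμ]; field_simp; ring
    have s2 : φ₂ q = e (Sum.inr 2) ^ b * φ₁ q := by
      refine scaling nuy φ₁ φ₂ _ ?_ (GT_nuy k3)
      rintro (i | i) <;> fin_cases i <;> simp [φ₂, φ₁, nuy]
    have s3 : φ₀ q = 0 := by simp [φ₀, k4]
    have s4 : ((aeval e : T →ₐ[ℂ] ℂ).comp κ : T →+* ℂ) q = (φ₂ : T →+* ℂ) q := by
      refine hom_congr_vars ?_ ?_ rfl
      · ext r
        simp [κ, φ₂]
      · intro i hi _
        rw [mem_vars_iff_degreeOf_ne_zero] at hi
        rcases i with i | i <;> fin_cases i <;> simp [κ, φ₂]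
        exact absurd k2 hi
    have s5 : eval e (κ q) = φ₂ q := s4
    rw [s5, s2, s1, s3]
    simp
  have k6 : κ q = 0 := (mul_eq_zero.1 k5).resolve_right
    (mul_ne_zero (mul_ne_zero (X_ne_zero _) (X_ne_zero _)) (X_ne_zero _))
  rw [k6, zero_sub, neg_mem_iff] at hκ
  have k7 : xx 1 ^ N * G ∈ L1 := by
    simpa using add_mem (Ideal.mem_sup_left k1 : _ ∈ L1) (Ideal.mem_sup_right hκ)
  rcases L1_prime.mem_or_mem k7 with h3 | h3
  · exact x1_notMem_L1 (L1_prime.mem_of_pow_mem _ h3)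
  · exact h h3

lemma natDegree_psi_monomial (k : ℂ) (d : Fin 3 ⊕ Fin 3 →₀ ℕ) (c : ℂ) :
    (psi k (monomial d c)).natDegree ≤
      3 * d (Sum.inl 0) + 2 * d (Sum.inl 1) + d (Sum.inl 2) := by
  rw [psi, aeval_monomial, Finsupp.prod_fintype _ _ (by simp), Fintype.prod_sum_type,
    Fin.prod_univ_three, Fin.prod_univ_three]
  simp only [Sum.elim_inl, Sum.elim_inr, Matrix.cons_val_zero, Matrix.cons_val_one,
    Matrix.cons_val, Polynomial.algebraMap_eq]
  have h1 : (0 : Polynomial ℂ) = Polynomial.C 0 := by simp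
  rw [h1, ← Polynomial.C_pow, ← Polynomial.C_pow]
  compute_degree
  omega

lemma psi_bound (k : ℂ) {G : T} {a b n : ℕ} (hG : G ∈ GT a b) (h : psi k G ≠ 0)
    (hn : G ∈ AB n) : (psi k G).natDegree + n ≤ 3 * a := by
  obtain ⟨c, hc⟩ := LC.exists hn
  obtain ⟨N, u, hu, h1, h2, -⟩ := hc.hom_rep hG
  have h3 := psi_I3 k h1
  rw [map_sub, map_mul, map_pow, sub_eq_zero] at h3
  have h4 : psi k (xx 0) = Polynomial.X ^ 3 := by simp [psi]
  rw [h4, ← pow_mul] at h3
  have h5 : (psi k u).coeff ((psi k G).natDegree + 3 * N) ≠ 0 := by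
    rw [← h3, Polynomial.coeff_X_pow_mul]
    exact Polynomial.leadingCoeff_ne_zero.2 h
  by_contra hlt
  apply h5
  rw [u.as_sum, map_sum, Polynomial.finsetSum_coeff]
  refine Finset.sum_eq_zero fun d hd => Polynomial.coeff_eq_zero_of_natDegree_lt ?_
  have k1 := natDegree_psi_monomial k d (coeff d u)
  have k2 := mem_VV_support.1 h2 d hd
  have k3 : Finsupp.weight (bw 3 3) d = (N + a, b) := hu (mem_support_iff.1 hd)
  rw [weight_bw, Prod.mk.injEq, Fin.sum_univ_three] at k3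
  omega

lemma psi_not_const (k : ℂ) {G : T} {a b : ℕ} (hG : G ∈ GT (a + 1) b) (h : psi k G ≠ 0) :
    (psi k G).natDegree ≠ 0 := by
  intro h0
  let φ₁ : T →ₐ[ℂ] Polynomial ℂ :=
    aeval (Sum.elim ![0, 0, - Polynomial.X - Polynomial.C k] ![Polynomial.C k, 0, 1])
  let φ₀ : T →ₐ[ℂ] ℂ := aeval (Sum.elim ![0, 0, 1] ![k, 0, 1])
  have s1 : φ₁ G = (- Polynomial.X - Polynomial.C k) ^ (a + 1) *
      (Polynomial.CAlgHom.comp φ₀) G := by
    refine scaling nux _ φ₁ _ ?_ (GT_nux hG)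
    rintro (i | i) <;> fin_cases i <;> simp [φ₀, φ₁, nux]
  have s2 : psi k G - φ₁ G ∈ Ideal.span {(Polynomial.X : Polynomial ℂ) ^ 2} := by
    apply congr_of_X
    rintro (i | i) <;> fin_cases i <;> simp [psi, φ₁, Ideal.mem_span_singleton]
    exact pow_dvd_pow _ (by omega)
  obtain ⟨r, hr⟩ := Ideal.mem_span_singleton.1 s2
  rw [Polynomial.natDegree_eq_zero] at h0
  obtain ⟨c, hc⟩ := h0
  rw [← hc] at h hr
  rw [s1, AlgHom.comp_apply, Polynomial.CAlgHom_apply] at hr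
  have e0 := congrArg (Polynomial.eval 0) hr
  have e1 := congrArg (fun p => Polynomial.eval 0 (Polynomial.derivative p)) hr
  simp [Polynomial.derivative_pow] at e0 e1
  apply h
  rw [sub_eq_zero.1 e0]
  rcases e1 with (e1 | ⟨e1, -⟩) | e1
  · exact absurd e1 (Nat.cast_add_one_ne_zero a)
  · simp [e1]
  · simp [e1]

theorem tors (a n : ℕ) (b : ℕ) : ∀ G : T, G ∈ GT a b → G ∉ I3 → G ∈ AB n →
    n ≤ 3 * a ∧ (1 ≤ a → n < 3 * a) := by
  induction b using Nat.strong_induction_on with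
  | _ b ih =>
  intro G hG hI hn
  by_cases h : G ∈ L1
  · obtain ⟨s, t, c, h1, h2, h3, h4⟩ := (hom_div hom_I3 (ll_mem 1) hG h).resolve_left hI
    rw [zero_add] at h1
    subst h1
    refine ih t (by omega) c h3 (fun hc => hI ?_) ?_
    · simpa using add_mem h4 (Ideal.mul_mem_left _ (ll 1) hc)
    · refine AB_cancel LC_l1 (X_ne_zero _) h3 n ?_
      rw [zero_add]
      simpa using sub_mem hn (I3_le_AB n h4)
  · obtain ⟨k, hk⟩ := exists_psi_ne hG h
    have h1 := psi_bound k hG hk hn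
    refine ⟨by omega, fun ha => ?_⟩
    obtain ⟨a, rfl⟩ := Nat.exists_eq_add_of_le' ha
    have := psi_not_const k hG hk
    omega

end Pool.Agent.MP_f1b239_ag
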